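import Mathlib

/-!
# RT project: the Montgomery-Taylor function

`Gam u = (1/I0) ∫_{-1/2}^{1/2} cos(√2 x) cos(2π x u) dx`. If `Gam u = Gam v = 0`, `u, v ≥ 0`, then `Gam (u+v) ≠ 0`.
-/

set_option autoImplicit false

open MeasureTheory Set Filter Topology

namespace Pool.Agent.Helper66.RT

/-- `1/√2` -/
noncomputable def aa : ℝ := Real.sqrt 2 / 2

lemma aa_two : 2 * aa = Real.sqrt 2 := by unfold aa; ring

lemma aa_sq : aa ^ 2 = 1 / 2 := by
  unfold aa
  rw [div_pow, Real.sq_sqrt (by norm_num)]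
  norm_num

lemma aa_pos : 0 < aa := by unfold aa; positivity

lemma aa_lt : aa < 1 := by
  have := aa_sq
  have := aa_pos
  nlinarith

lemma sin_aa_pos : 0 < Real.sin aa := Real.sin_pos_of_pos_of_lt_pi aa_pos (by have := aa_lt; have := Real.pi_gt_three; linarith)

lemma cos_aa_pos : 0 < Real.cos aa := Real.cos_pos_of_mem_Ioo ⟨by have := aa_pos; have := Real.pi_gt_three; linarith,
  by have := aa_lt; have := Real.pi_gt_three; linarith⟩

/-- the normalisation -/
noncomputable def I0 : ℝ := Real.sin aa / aa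

lemma I0_pos : 0 < I0 := div_pos sin_aa_pos aa_pos

/-- the Montgomery-Taylor window, not normalised -/
noncomputable def ph (x : ℝ) : ℝ := Real.cos (2 * aa * x)

lemma ph_cont : Continuous ph := by unfold ph; fun_prop

lemma ph_pos {x : ℝ} (hx : |x| ≤ 1 / 2) : 0 < ph x := by
  unfold ph
  have h1 := abs_le.1 hx
  have := aa_pos
  have := aa_lt
  have := Real.pi_gt_three
  refine Real.cos_pos_of_mem_Ioo ⟨?_, ?_⟩
  · nlinarith
  · nlinarith

lemma ph_le (x : ℝ) : ph x ≤ 1 := Real.cos_le_one _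

lemma ph_even (x : ℝ) : ph (-x) = ph x := by
  unfold ph
  rw [mul_neg, Real.cos_neg]

lemma int_ph : ∫ x in (-(1 / 2) : ℝ)..(1 / 2), ph x = I0 := by
  have h1 : ∀ x ∈ uIcc (-(1 / 2) : ℝ) (1 / 2), HasDerivAt (fun x : ℝ => Real.sin (2 * aa * x) / (2 * aa)) (ph x) x := by
    intro x _
    have h2 : HasDerivAt (fun x : ℝ => 2 * aa * x) (2 * aa) x := by
      simpa using (hasDerivAt_id x).const_mul (2 * aa)
    have h3 := (h2.sin).div_const (2 * aa)
    refine h3.congr_deriv ?_
    have := aa_pos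
    unfold ph
    field_simp
  rw [intervalIntegral.integral_eq_sub_of_hasDerivAt h1 (ph_cont.intervalIntegrable _ _)]
  unfold I0
  have e1 : 2 * aa * (1 / 2) = aa := by ring
  have e2 : 2 * aa * -(1 / 2) = -aa := by ring
  rw [e1, e2, Real.sin_neg]
  have := aa_pos
  field_simp
  ring

/-- the transform of the window -/
noncomputable def Gam (u : ℝ) : ℝ := (∫ x in (-(1 / 2) : ℝ)..(1 / 2), ph x * Real.cos (2 * Real.pi * x * u)) / I0

lemma Gam_even (u : ℝ) : Gam (-u) = Gam u := by
  unfold Gam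
  congr 1
  refine intervalIntegral.integral_congr fun x _ => ?_
  show ph x * Real.cos (2 * Real.pi * x * -u) = _
  rw [mul_neg, Real.cos_neg]

lemma Gam_zero : Gam 0 = 1 := by
  unfold Gam
  simp only [mul_zero, Real.cos_zero, mul_one]
  rw [int_ph, div_self I0_pos.ne']

lemma Gam_cont : Continuous Gam := by
  unfold Gam
  refine Continuous.div_const ?_ _
  refine intervalIntegral.continuous_parametric_intervalIntegral_of_continuous' (f := fun (u x : ℝ) => ph x * Real.cos (2 * Real.pi * x * u)) ?_ _ _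
  unfold Function.uncurry
  have := ph_cont
  fun_prop

lemma Gam_abs (u : ℝ) : |Gam u| ≤ 1 := by
  unfold Gam
  rw [abs_div, abs_of_pos I0_pos, div_le_one I0_pos, ← int_ph]
  have h1 : |∫ x in (-(1 / 2) : ℝ)..(1 / 2), ph x * Real.cos (2 * Real.pi * x * u)| ≤
      ∫ x in (-(1 / 2) : ℝ)..(1 / 2), |ph x * Real.cos (2 * Real.pi * x * u)| :=
    intervalIntegral.abs_integral_le_integral_abs (by norm_num)
  refine h1.trans ?_
  have hc := ph_cont
  refine intervalIntegral.integral_mono_on (by norm_num) ?_ (ph_cont.intervalIntegrable _ _) ?_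
  · exact Continuous.intervalIntegrable (by fun_prop) _ _
  · intro x hx
    have h2 : 0 < ph x := ph_pos (abs_le.2 ⟨by linarith [hx.1], hx.2⟩)
    rw [abs_mul, abs_of_pos h2]
    have h3 := Real.abs_cos_le_one (2 * Real.pi * x * u)
    nlinarith

/-- the explicit formula, without division -/
lemma Gam_eq (u : ℝ) : ((Real.pi * u) ^ 2 - aa ^ 2) * (I0 * Gam u) =
    Real.pi * u * Real.sin (Real.pi * u) * Real.cos aa - aa * Real.cos (Real.pi * u) * Real.sin aa := by
  set b := Real.pi * u with hb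
  have h0 : I0 * Gam u = ∫ x in (-(1 / 2) : ℝ)..(1 / 2), ph x * Real.cos (2 * b * x) := by
    unfold Gam
    rw [mul_div_cancel₀ _ I0_pos.ne']
    refine intervalIntegral.integral_congr fun x _ => ?_
    show ph x * Real.cos (2 * Real.pi * x * u) = _
    congr 2
    rw [hb]; ring
  rw [h0, ← intervalIntegral.integral_const_mul]
  have h1 : ∀ x ∈ uIcc (-(1 / 2) : ℝ) (1 / 2), HasDerivAt (fun x : ℝ => (b * (Real.sin (2 * b * x) * Real.cos (2 * aa * x)) -
      aa * (Real.cos (2 * b * x) * Real.sin (2 * aa * x))) / 2) ((b ^ 2 - aa ^ 2) * (ph x * Real.cos (2 * b * x))) x := by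
    intro x _
    have h2 : ∀ k : ℝ, HasDerivAt (fun x : ℝ => 2 * k * x) (2 * k) x := by
      intro k
      simpa using (hasDerivAt_id x).const_mul (2 * k)
    have h3 := (((((h2 b).sin).mul (h2 aa).cos).const_mul b).sub ((((h2 b).cos).mul (h2 aa).sin).const_mul aa)).div_const 2
    refine h3.congr_deriv ?_
    unfold ph
    ring
  rw [intervalIntegral.integral_eq_sub_of_hasDerivAt h1
    (Continuous.intervalIntegrable (by have := ph_cont; fun_prop) _ _)]
  have e1 : ∀ k : ℝ, 2 * k * (1 / 2) = k := fun k => by ring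
  have e2 : ∀ k : ℝ, 2 * k * -(1 / 2) = -k := fun k => by ring
  simp only [e1, e2, Real.sin_neg, Real.cos_neg]
  ring

/-- at a zero -/
lemma Gam_zero_eq {u : ℝ} (h : Gam u = 0) :
    Real.pi * u * Real.sin (Real.pi * u) * Real.cos aa = aa * Real.cos (Real.pi * u) * Real.sin aa := by
  have := Gam_eq u
  rw [h] at this
  linarith

/-- the zeros are not additive -/
theorem not_additive {u v : ℝ} (hu : 0 ≤ u) (hv : 0 ≤ v) (h1 : Gam u = 0) (h2 : Gam v = 0) (h3 : Gam (u + v) = 0) : False := by
  have hu' : 0 < u := by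
    rcases hu.eq_or_lt with h | h
    · rw [← h, Gam_zero] at h1; exact absurd h1 one_ne_zero
    · exact h
  have hv' : 0 < v := by
    rcases hv.eq_or_lt with h | h
    · rw [← h, Gam_zero] at h2; exact absurd h2 one_ne_zero
    · exact h
  have e1 := Gam_zero_eq h1
  have e2 := Gam_zero_eq h2
  have e3 := Gam_zero_eq h3
  have hpi := Real.pi_pos
  have hb : 0 < Real.pi * u := by positivity
  have hb' : 0 < Real.pi * v := by positivity
  rw [show Real.pi * (u + v) = Real.pi * u + Real.pi * v by ring] at e3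
  generalize Real.pi * u = b at *
  generalize Real.pi * v = b' at *
  rw [Real.sin_add, Real.cos_add] at e3
  have hA := aa_pos
  have hS := sin_aa_pos
  have hC := cos_aa_pos
  have q1 := Real.sin_sq_add_cos_sq b
  have q2 := Real.sin_sq_add_cos_sq b'
  generalize Real.sin b = s at *
  generalize Real.cos b = k at *
  generalize Real.sin b' = s' at *
  generalize Real.cos b' = k' at *
  -- `τ = aa tan aa`
  obtain ⟨τ, hτ⟩ : ∃ τ, τ = aa * Real.sin aa / Real.cos aa := ⟨_, rfl⟩
  have hτ0 : 0 < τ := by rw [hτ]; positivity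
  have hτ1 : aa * Real.sin aa = τ * Real.cos aa := by rw [hτ]; field_simp
  have f1 : b * s = τ * k := by
    have : (b * s) * Real.cos aa = (τ * k) * Real.cos aa := by
      calc (b * s) * Real.cos aa = aa * k * Real.sin aa := e1
        _ = k * (aa * Real.sin aa) := by ring
        _ = _ := by rw [hτ1]; ring
    exact mul_right_cancel₀ hC.ne' this
  have f2 : b' * s' = τ * k' := by
    have : (b' * s') * Real.cos aa = (τ * k') * Real.cos aa := by
      calc (b' * s') * Real.cos aa = aa * k' * Real.sin aa := e2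
        _ = k' * (aa * Real.sin aa) := by ring
        _ = _ := by rw [hτ1]; ring
    exact mul_right_cancel₀ hC.ne' this
  have f3 : (b + b') * (s * k' + k * s') = τ * (k * k' - s * s') := by
    have : ((b + b') * (s * k' + k * s')) * Real.cos aa = (τ * (k * k' - s * s')) * Real.cos aa := by
      calc ((b + b') * (s * k' + k * s')) * Real.cos aa = aa * (k * k' - s * s') * Real.sin aa := e3
        _ = (k * k' - s * s') * (aa * Real.sin aa) := by ring
        _ = _ := by rw [hτ1]; ring
    exact mul_right_cancel₀ hC.ne' this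
  have hk : k ≠ 0 := by
    intro h0
    rw [h0, mul_zero] at f1
    have : s = 0 := by
      rcases mul_eq_zero.1 f1 with h | h
      · exact absurd h hb.ne'
      · exact h
    rw [h0, this] at q1
    norm_num at q1
  have hk' : k' ≠ 0 := by
    intro h0
    rw [h0, mul_zero] at f2
    have : s' = 0 := by
      rcases mul_eq_zero.1 f2 with h | h
      · exact absurd h hb'.ne'
      · exact h
    rw [h0, this] at q2
    norm_num at q2
  -- multiply by `b b'`
  have f4 : (b + b') ^ 2 * (τ * (k * k')) = τ * (k * k') * (b * b' - τ ^ 2) := by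
    linear_combination (b * b') * f3 - ((b + b') * b' * k' + τ * b' * s') * f1 - ((b + b') * b * k + τ * τ * k) * f2
  have f5 : τ * (k * k') ≠ 0 := mul_ne_zero hτ0.ne' (mul_ne_zero hk hk')
  have f6 : (b + b') ^ 2 = b * b' - τ ^ 2 := by
    have : (b + b') ^ 2 * (τ * (k * k')) = (b * b' - τ ^ 2) * (τ * (k * k')) := by rw [f4]; ring
    exact mul_right_cancel₀ f5 this
  nlinarith [mul_pos hb hb', sq_nonneg (b - b')]

/-- clipping -/
noncomputable def clip (g : ℝ) : ℝ := max (-(1 / 4)) (min (1 / 4) g)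

lemma clip_cont : Continuous clip := by unfold clip; fun_prop

lemma clip_abs (g : ℝ) : |clip g| ≤ 1 / 4 := by
  unfold clip
  rw [abs_le]
  exact ⟨le_max_left _ _, max_le (by norm_num) (min_le_left _ _)⟩

lemma clip_zero : clip 0 = 0 := by unfold clip; norm_num

/-- the gain -/
noncomputable def eta (g : ℝ) : ℝ := 2 * g * clip g - clip g ^ 2

lemma eta_cont : Continuous eta := by
  unfold eta
  have := clip_cont
  fun_prop

lemma eta_nonneg (g : ℝ) : 0 ≤ eta g := by
  unfold eta clip
  rcases le_total g (1 / 4) with h | h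
  · rw [min_eq_right h]
    rcases le_total (-(1 / 4)) g with h' | h'
    · rw [max_eq_right h']; nlinarith
    · rw [max_eq_left h']; nlinarith
  · rw [min_eq_left h, max_eq_right (by norm_num)]; nlinarith

lemma eta_pos {g : ℝ} (hg : g ≠ 0) : 0 < eta g := by
  unfold eta clip
  rcases le_total g (1 / 4) with h | h
  · rw [min_eq_right h]
    rcases le_total (-(1 / 4)) g with h' | h'
    · rw [max_eq_right h']
      have : 0 < g ^ 2 := by positivity
      nlinarith
    · rw [max_eq_left h']; nlinarith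
  · rw [min_eq_left h, max_eq_right (by norm_num)]; nlinarith

/-- the uniform gain of two consecutive gaps -/
theorem gain {R : ℝ} (hR : 0 ≤ R) : ∃ d : ℝ, 0 < d ∧ ∀ u v : ℝ, 0 ≤ u → u ≤ R → 0 ≤ v → v ≤ R →
    d ≤ eta (Gam u) + eta (Gam v) + eta (Gam (u + v)) := by
  have hK : IsCompact (Icc (0:ℝ) R ×ˢ Icc (0:ℝ) R) := isCompact_Icc.prod isCompact_Icc
  have hne : (Icc (0:ℝ) R ×ˢ Icc (0:ℝ) R).Nonempty := ⟨(0, 0), ⟨⟨le_refl _, hR⟩, ⟨le_refl _, hR⟩⟩⟩
  have hc1 := Gam_cont
  have hc2 := eta_cont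
  obtain ⟨z, hz, hmin⟩ := hK.exists_isMinOn hne
    (f := fun z : ℝ × ℝ => eta (Gam z.1) + eta (Gam z.2) + eta (Gam (z.1 + z.2))) (by fun_prop)
  refine ⟨eta (Gam z.1) + eta (Gam z.2) + eta (Gam (z.1 + z.2)), ?_, fun u v h1 h2 h3 h4 => ?_⟩
  · have n1 := eta_nonneg (Gam z.1)
    have n2 := eta_nonneg (Gam z.2)
    have n3 := eta_nonneg (Gam (z.1 + z.2))
    by_cases g1 : Gam z.1 = 0
    · by_cases g2 : Gam z.2 = 0
      · by_cases g3 : Gam (z.1 + z.2) = 0
        · exact (not_additive hz.1.1 hz.2.1 g1 g2 g3).elim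
        · have := eta_pos g3; linarith
      · have := eta_pos g2; linarith
    · have := eta_pos g1; linarith
  · exact hmin (a := (u, v)) ⟨⟨h1, h2⟩, ⟨h3, h4⟩⟩

end Pool.Agent.Helper66.RT
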