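import Pool.Agent.Helper66.RT.Win
import Pool.Agent.Helper66.RT.Mt

/-!
# RT project: continuous weights close to the Montgomery-Taylor window
-/

set_option autoImplicit false

open MeasureTheory Set Filter Topology

namespace Pool.Agent.Helper66.RT

open Pool.Agent.Helper99.HZ (tz tz_cont tz_nonneg tz_le tz_supp tz_int hh int_swap)

/-- `1/c_MT` -/
noncomputable def CMT : ℝ := 1 / 2 + aa * Real.cos aa / Real.sin aa

lemma CMT_pos : 0 < CMT := by
  unfold CMT
  have := aa_pos
  have := cos_aa_pos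
  have := sin_aa_pos
  positivity

lemma CMT_mul : CMT * I0 = aa * Real.sin aa + Real.cos aa := by
  unfold CMT I0
  have h1 := aa_pos
  have h2 := sin_aa_pos
  have h3 := aa_sq
  field_simp
  linear_combination (-(Real.sin aa)) * h3 * 2

lemma int_box {f : ℝ → ℝ} (h : ∀ x, 1 / 2 ≤ |x| → f x = 0) : ∫ x, f x = ∫ x in (-(1 / 2) : ℝ)..(1 / 2), f x := by
  rw [intervalIntegral.integral_of_le (by norm_num), ← integral_Icc_eq_integral_Ioc]
  symm
  refine setIntegral_eq_integral_of_forall_compl_eq_zero fun x hx => h x ?_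
  by_contra h'
  push Not at h'
  apply hx
  have := abs_lt.mp h'
  exact ⟨by linarith, by linarith⟩

lemma box_abs {x : ℝ} (hx : x ∈ Icc (-(1 / 2) : ℝ) (1 / 2)) : |x| ≤ 1 / 2 := abs_le.2 ⟨by linarith [hx.1], hx.2⟩

/-- the inner integral -/
lemma inner {x : ℝ} (hx : x ∈ Icc (-(1 / 2) : ℝ) (1 / 2)) :
    ∫ y in (-(1 / 2) : ℝ)..(1 / 2), ph y * |x - y| = aa * Real.sin aa + Real.cos aa - ph x := by
  have hc := ph_cont
  have hc1 : Continuous fun y : ℝ => ph y * |x - y| := by fun_prop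
  have hF : ∀ y : ℝ, HasDerivAt (fun y : ℝ => (x - y) * (Real.sin (2 * aa * y) / (2 * aa)) - Real.cos (2 * aa * y) / (2 * aa) ^ 2)
      ((x - y) * ph y) y := by
    intro y
    have h2 : HasDerivAt (fun y : ℝ => 2 * aa * y) (2 * aa) y := by
      simpa using (hasDerivAt_id y).const_mul (2 * aa)
    have h3 : HasDerivAt (fun y : ℝ => x - y) (-1) y := by
      simpa using (hasDerivAt_id y).const_sub x
    have h4 := (h3.mul (h2.sin.div_const (2 * aa))).sub (h2.cos.div_const ((2 * aa) ^ 2))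
    refine h4.congr_deriv ?_
    have := aa_pos
    unfold ph
    field_simp
    ring
  have hc2 : Continuous fun y : ℝ => (x - y) * ph y := by fun_prop
  rw [← intervalIntegral.integral_add_adjacent_intervals (b := x) (hc1.intervalIntegrable _ _) (hc1.intervalIntegrable _ _)]
  have e1 : ∫ y in (-(1 / 2) : ℝ)..x, ph y * |x - y| = ∫ y in (-(1 / 2) : ℝ)..x, (x - y) * ph y := by
    refine intervalIntegral.integral_congr fun y hy => ?_
    rw [uIcc_of_le hx.1] at hy
    show ph y * |x - y| = (x - y) * ph y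
    rw [abs_of_nonneg (by linarith [hy.2]), mul_comm]
  have e2 : ∫ y in x..(1 / 2), ph y * |x - y| = -∫ y in x..(1 / 2), (x - y) * ph y := by
    rw [← intervalIntegral.integral_neg]
    refine intervalIntegral.integral_congr fun y hy => ?_
    rw [uIcc_of_le hx.2] at hy
    show ph y * |x - y| = -((x - y) * ph y)
    rw [abs_of_nonpos (by linarith [hy.1])]
    ring
  rw [e1, e2, intervalIntegral.integral_eq_sub_of_hasDerivAt (fun y _ => hF y) (hc2.intervalIntegrable _ _),
    intervalIntegral.integral_eq_sub_of_hasDerivAt (fun y _ => hF y) (hc2.intervalIntegrable _ _)]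
  have f1 : 2 * aa * (1 / 2) = aa := by ring
  have f2 : 2 * aa * -(1 / 2) = -aa := by ring
  rw [f1, f2, Real.sin_neg, Real.cos_neg]
  have h3 := aa_sq
  have h4 : (2 * aa) ^ 2 = 2 := by rw [mul_pow, h3]; norm_num
  rw [h4]
  have h5 : ∀ s : ℝ, s / (2 * aa) = aa * s := by
    intro s
    have := aa_pos
    field_simp
    linear_combination (-2 * s) * h3
  simp only [h5]
  unfold ph
  ring

/-- the double integral -/
lemma outer : ∫ x in (-(1 / 2) : ℝ)..(1 / 2), ph x * ∫ y in (-(1 / 2) : ℝ)..(1 / 2), ph y * |x - y| =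
    CMT * I0 ^ 2 - ∫ x in (-(1 / 2) : ℝ)..(1 / 2), ph x ^ 2 := by
  have hc := ph_cont
  have e1 : ∫ x in (-(1 / 2) : ℝ)..(1 / 2), ph x * ∫ y in (-(1 / 2) : ℝ)..(1 / 2), ph y * |x - y| =
      ∫ x in (-(1 / 2) : ℝ)..(1 / 2), ((aa * Real.sin aa + Real.cos aa) * ph x - ph x ^ 2) := by
    refine intervalIntegral.integral_congr fun x hx => ?_
    rw [uIcc_of_le (by norm_num)] at hx
    show ph x * (∫ y in (-(1 / 2) : ℝ)..(1 / 2), ph y * |x - y|) = _
    rw [inner hx]
    ring
  rw [e1, intervalIntegral.integral_sub (Continuous.intervalIntegrable (by fun_prop) _ _)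
    (Continuous.intervalIntegrable (by fun_prop) _ _), intervalIntegral.integral_const_mul, int_ph, ← CMT_mul]
  ring

section

variable {δ : ℝ}

/-- the cut-off -/
noncomputable def cut (δ x : ℝ) : ℝ := (1 - 2 * δ) * tz (1 - 2 * δ) δ x

lemma cut_cont (δ : ℝ) : Continuous (cut δ) := by
  unfold cut
  exact continuous_const.mul (tz_cont _ _)

lemma cut_nonneg (h1 : δ < 1 / 2) (x : ℝ) : 0 ≤ cut δ x :=
  mul_nonneg (by linarith) (tz_nonneg (by linarith) _ _)

lemma cut_le (h1 : δ < 1 / 2) (x : ℝ) : cut δ x ≤ 1 := by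
  unfold cut
  have h2 : 0 < 1 - 2 * δ := by linarith
  calc (1 - 2 * δ) * tz (1 - 2 * δ) δ x ≤ (1 - 2 * δ) * (1 / (1 - 2 * δ)) := mul_le_mul_of_nonneg_left (tz_le h2 _ _) h2.le
    _ = 1 := by field_simp

lemma cut_supp (h0 : 0 < δ) {x : ℝ} (hx : (1 - 2 * δ) / 2 ≤ |x|) : cut δ x = 0 := by
  unfold cut
  rw [tz_supp h0 hx, mul_zero]

lemma cut_supp' (h0 : 0 < δ) {x : ℝ} (hx : 1 / 2 ≤ |x|) : cut δ x = 0 := cut_supp h0 (by linarith)

lemma cut_even (δ x : ℝ) : cut δ (-x) = cut δ x := by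
  unfold cut tz
  rw [abs_neg]

lemma cut_int (h0 : 0 < δ) (h1 : δ ≤ 1 / 10) : 1 - 4 * δ ≤ ∫ x, cut δ x := by
  unfold cut
  rw [integral_const_mul]
  have h2 : 0 < 1 - 2 * δ := by linarith
  have h3 := tz_int (th := 1 - 2 * δ) (δ := δ) h2 h0 (by linarith)
  calc 1 - 4 * δ = (1 - 2 * δ) * (1 - 2 * δ / (1 - 2 * δ)) := by rw [mul_sub, mul_one, mul_div_cancel₀ _ h2.ne']; ring
    _ ≤ _ := mul_le_mul_of_nonneg_left h3 h2.le

/-- the mass before normalisation -/
noncomputable def Zc (δ : ℝ) : ℝ := ∫ x in (-(1 / 2) : ℝ)..(1 / 2), ph x * cut δ x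

lemma Zc_le (h1 : δ < 1 / 2) : Zc δ ≤ I0 := by
  unfold Zc
  rw [← int_ph]
  have hc := ph_cont
  have hk := cut_cont δ
  refine intervalIntegral.integral_mono_on (by norm_num) (Continuous.intervalIntegrable (by fun_prop) _ _)
    (Continuous.intervalIntegrable (by fun_prop) _ _) fun x hx => ?_
  have h2 := (ph_pos (box_abs hx)).le
  calc ph x * cut δ x ≤ ph x * 1 := mul_le_mul_of_nonneg_left (cut_le h1 x) h2
    _ = ph x := mul_one _

lemma Zc_ge (h0 : 0 < δ) (h1 : δ ≤ 1 / 10) : I0 - 4 * δ ≤ Zc δ := by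
  have hc := ph_cont
  have hk := cut_cont δ
  have h2 := cut_int h0 h1
  rw [int_box (f := cut δ) (fun x hx => cut_supp' h0 hx)] at h2
  have h3 : ∫ x in (-(1 / 2) : ℝ)..(1 / 2), (ph x - ph x * cut δ x) ≤ ∫ x in (-(1 / 2) : ℝ)..(1 / 2), (1 - cut δ x) := by
    refine intervalIntegral.integral_mono_on (by norm_num) (Continuous.intervalIntegrable (by fun_prop) _ _)
      (Continuous.intervalIntegrable (by fun_prop) _ _) fun x hx => ?_
    have h4 := cut_le (by linarith : δ < 1 / 2) x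
    have h5 := ph_le x
    nlinarith
  rw [intervalIntegral.integral_sub (Continuous.intervalIntegrable (by fun_prop) _ _)
    (Continuous.intervalIntegrable (by fun_prop) _ _), intervalIntegral.integral_sub (Continuous.intervalIntegrable (by fun_prop) _ _)
    (Continuous.intervalIntegrable (by fun_prop) _ _), int_ph] at h3
  have h4 : ∫ _ in (-(1 / 2) : ℝ)..(1 / 2), (1:ℝ) = 1 := by
    rw [intervalIntegral.integral_const]; norm_num
  rw [h4] at h3
  unfold Zc
  linarith

/-- the weight -/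
noncomputable def pw (δ x : ℝ) : ℝ := ph x * cut δ x / Zc δ

lemma pw_wt (h0 : 0 < δ) (h1 : δ ≤ 1 / 10) (hZ : 0 < Zc δ) : Wt (pw δ) ((1 - 2 * δ) / 2) where
  cont := by
    unfold pw
    exact (ph_cont.mul (cut_cont δ)).div_const _
  nn x := by
    unfold pw
    by_cases hx : 1 / 2 ≤ |x|
    · rw [cut_supp' h0 hx, mul_zero, zero_div]
    · push Not at hx
      exact div_nonneg (mul_nonneg (ph_pos hx.le).le (cut_nonneg (by linarith) x)) hZ.le
  ev x := by
    unfold pw
    rw [ph_even, cut_even]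
  supp x hx := by
    unfold pw
    rw [cut_supp h0 hx, mul_zero, zero_div]
  c1 := by linarith
  mass := by
    unfold pw
    rw [integral_div, int_box (f := fun x => ph x * cut δ x) (fun x hx => by rw [cut_supp' h0 hx, mul_zero])]
    exact div_self hZ.ne'

lemma pw_le (h0 : 0 < δ) (h1 : δ ≤ 1 / 10) (hZ : 0 < Zc δ) {x : ℝ} (hx : x ∈ Icc (-(1 / 2) : ℝ) (1 / 2)) :
    pw δ x ≤ ph x / Zc δ := by
  unfold pw
  gcongr
  have h2 := (ph_pos (box_abs hx)).le
  calc ph x * cut δ x ≤ ph x * 1 := mul_le_mul_of_nonneg_left (cut_le (by linarith) x) h2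
    _ = ph x := mul_one _

/-- the energy of the weight -/
lemma pw_energy (h0 : 0 < δ) (h1 : δ ≤ 1 / 10) (hZ : 0 < Zc δ) :
    hh (pw δ) 0 + (∫ u, |u| * hh (pw δ) u) ≤ CMT * (I0 / Zc δ) ^ 2 := by
  have hw := pw_wt h0 h1 hZ
  have hc := ph_cont
  have hp := hw.cont
  have hs : ∀ x, (1 / 2 : ℝ) ≤ |x| → pw δ x = 0 := fun x hx => hw.supp x (by linarith)
  have e1 : hh (pw δ) 0 ≤ (∫ x in (-(1 / 2) : ℝ)..(1 / 2), ph x ^ 2) / Zc δ ^ 2 := by
    unfold hh
    simp only [sub_zero]
    rw [int_box (f := fun x => pw δ x * pw δ x) (fun x hx => by rw [hs x hx, mul_zero]), ← intervalIntegral.integral_div]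
    refine intervalIntegral.integral_mono_on (by norm_num) (Continuous.intervalIntegrable (by fun_prop) _ _)
      (Continuous.intervalIntegrable (by fun_prop) _ _) fun x hx => ?_
    calc pw δ x * pw δ x ≤ ph x / Zc δ * (ph x / Zc δ) :=
          mul_le_mul (pw_le h0 h1 hZ hx) (pw_le h0 h1 hZ hx) (hw.nn x) (div_nonneg (ph_pos (box_abs hx)).le hZ.le)
      _ = _ := by ring
  have e2 : ∫ u, |u| * hh (pw δ) u ≤ (∫ x in (-(1 / 2) : ℝ)..(1 / 2), ph x * ∫ y in (-(1 / 2) : ℝ)..(1 / 2), ph y * |x - y|) / Zc δ ^ 2 := by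
    have f1 : ∫ u, |u| * hh (pw δ) u = ∫ u, hh (pw δ) u * |u| := by
      congr 1
      funext u
      ring
    rw [f1, ← int_swap (c := 1 / 2) (K := fun u => |u|) hp continuous_abs hs]
    have f2 : ∀ f : ℝ → ℝ, ∫ x in Icc (-(1 / 2) : ℝ) (1 / 2), f x = ∫ x in (-(1 / 2) : ℝ)..(1 / 2), f x := by
      intro f
      rw [intervalIntegral.integral_of_le (by norm_num), ← integral_Icc_eq_integral_Ioc]
    simp only [f2]
    rw [← intervalIntegral.integral_div]
    have hcI : Continuous fun x : ℝ => ∫ y in (-(1 / 2) : ℝ)..(1 / 2), pw δ x * pw δ y * |x - y| := by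
      refine intervalIntegral.continuous_parametric_intervalIntegral_of_continuous'
        (f := fun (x y : ℝ) => pw δ x * pw δ y * |x - y|) ?_ _ _
      unfold Function.uncurry
      fun_prop
    have hcJ : Continuous fun x : ℝ => ∫ y in (-(1 / 2) : ℝ)..(1 / 2), ph y * |x - y| := by
      refine intervalIntegral.continuous_parametric_intervalIntegral_of_continuous'
        (f := fun (x y : ℝ) => ph y * |x - y|) ?_ _ _
      unfold Function.uncurry
      fun_prop
    refine intervalIntegral.integral_mono_on (by norm_num) (hcI.intervalIntegrable _ _)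
      (Continuous.intervalIntegrable (by fun_prop) _ _) fun x hx => ?_
    have f3 : ∫ y in (-(1 / 2) : ℝ)..(1 / 2), pw δ x * pw δ y * |x - y| ≤
        ∫ y in (-(1 / 2) : ℝ)..(1 / 2), ph x / Zc δ ^ 2 * (ph y * |x - y|) := by
      refine intervalIntegral.integral_mono_on (by norm_num) (Continuous.intervalIntegrable (by fun_prop) _ _)
        (Continuous.intervalIntegrable (by fun_prop) _ _) fun y hy => ?_
      calc pw δ x * pw δ y * |x - y| ≤ ph x / Zc δ * (ph y / Zc δ) * |x - y| := by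
            refine mul_le_mul_of_nonneg_right ?_ (abs_nonneg _)
            exact mul_le_mul (pw_le h0 h1 hZ hx) (pw_le h0 h1 hZ hy) (hw.nn y) (div_nonneg (ph_pos (box_abs hx)).le hZ.le)
        _ = _ := by ring
    rw [intervalIntegral.integral_const_mul] at f3
    refine f3.trans (le_of_eq ?_)
    ring
  rw [outer] at e2
  have e3 : (∫ x in (-(1 / 2) : ℝ)..(1 / 2), ph x ^ 2) / Zc δ ^ 2 + (CMT * I0 ^ 2 - ∫ x in (-(1 / 2) : ℝ)..(1 / 2), ph x ^ 2) / Zc δ ^ 2 =
      CMT * (I0 / Zc δ) ^ 2 := by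
    rw [← add_div, div_pow]
    ring
  linarith

/-- the transforms are close -/
lemma pw_close (h0 : 0 < δ) (h1 : δ ≤ 1 / 10) (hZ : 0 < Zc δ) (u : ℝ) :
    |Gp (pw δ) u - Gam u| ≤ 2 * (I0 - Zc δ) / I0 := by
  have hw := pw_wt h0 h1 hZ
  have hc := ph_cont
  have hp := hw.cont
  have hk := cut_cont δ
  have hI := I0_pos
  have hZI := Zc_le (by linarith : δ < 1 / 2)
  have hs : ∀ x, (1 / 2 : ℝ) ≤ |x| → pw δ x = 0 := fun x hx => hw.supp x (by linarith)
  unfold Gp Gam
  rw [int_box (f := fun x => pw δ x * Real.cos (2 * Real.pi * x * u)) (fun x hx => by rw [hs x hx, zero_mul]),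
    ← intervalIntegral.integral_div, ← intervalIntegral.integral_sub (Continuous.intervalIntegrable (by fun_prop) _ _)
    (Continuous.intervalIntegrable (by fun_prop) _ _)]
  refine (intervalIntegral.abs_integral_le_integral_abs (by norm_num)).trans ?_
  have hb : ∫ x in (-(1 / 2) : ℝ)..(1 / 2), (ph x * cut δ x * (1 / Zc δ - 1 / I0) + (ph x - ph x * cut δ x) / I0) =
      2 * (I0 - Zc δ) / I0 := by
    rw [intervalIntegral.integral_add (Continuous.intervalIntegrable (by fun_prop) _ _)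
      (Continuous.intervalIntegrable (by fun_prop) _ _), intervalIntegral.integral_mul_const, intervalIntegral.integral_div,
      intervalIntegral.integral_sub (Continuous.intervalIntegrable (by fun_prop) _ _)
      (Continuous.intervalIntegrable (by fun_prop) _ _), int_ph]
    have : ∫ x in (-(1 / 2) : ℝ)..(1 / 2), ph x * cut δ x = Zc δ := rfl
    rw [this]
    field_simp
    ring
  rw [← hb]
  refine intervalIntegral.integral_mono_on (by norm_num) (Continuous.intervalIntegrable (by fun_prop) _ _)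
    (Continuous.intervalIntegrable (by fun_prop) _ _) fun x hx => ?_
  have g1 := (ph_pos (box_abs hx)).le
  have g2 := cut_nonneg (by linarith : δ < 1 / 2) x
  have g3 := cut_le (by linarith : δ < 1 / 2) x
  have g4 : pw δ x * Real.cos (2 * Real.pi * x * u) - ph x * Real.cos (2 * Real.pi * x * u) / I0 =
      (ph x * cut δ x * (1 / Zc δ - 1 / I0) - (ph x - ph x * cut δ x) / I0) * Real.cos (2 * Real.pi * x * u) := by
    unfold pw
    ring
  rw [g4, abs_mul]
  have g5 := Real.abs_cos_le_one (2 * Real.pi * x * u)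
  have g6 : 0 ≤ ph x * cut δ x * (1 / Zc δ - 1 / I0) := by
    refine mul_nonneg (mul_nonneg g1 g2) ?_
    rw [sub_nonneg]
    exact one_div_le_one_div_of_le hZ hZI
  have g7 : 0 ≤ (ph x - ph x * cut δ x) / I0 := div_nonneg (by nlinarith) hI.le
  have g8 : |ph x * cut δ x * (1 / Zc δ - 1 / I0) - (ph x - ph x * cut δ x) / I0| ≤
      ph x * cut δ x * (1 / Zc δ - 1 / I0) + (ph x - ph x * cut δ x) / I0 := by
    rw [abs_le]
    constructor <;> linarith
  calc _ ≤ |ph x * cut δ x * (1 / Zc δ - 1 / I0) - (ph x - ph x * cut δ x) / I0| * 1 :=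
        mul_le_mul_of_nonneg_left g5 (abs_nonneg _)
    _ ≤ _ := by rw [mul_one]; exact g8

end

/-- **continuous weights close to the Montgomery-Taylor window** -/
theorem exists_weight {ε : ℝ} (hε : 0 < ε) : ∃ (p : ℝ → ℝ) (c : ℝ), Wt p c ∧
    hh p 0 + (∫ u, |u| * hh p u) ≤ CMT + ε ∧ ∀ u, |Gp p u - Gam u| ≤ ε := by
  have hI := I0_pos
  have hC := CMT_pos
  obtain ⟨e, he⟩ : ∃ e, e = min (1 / 2) (min (ε / (6 * CMT)) (ε / 2)) := ⟨_, rfl⟩
  have he0 : 0 < e := by rw [he]; positivity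
  have he1 : e ≤ 1 / 2 := by rw [he]; exact min_le_left _ _
  have he2 : e ≤ ε / (6 * CMT) := by rw [he]; exact (min_le_right _ _).trans (min_le_left _ _)
  have he3 : e ≤ ε / 2 := by rw [he]; exact (min_le_right _ _).trans (min_le_right _ _)
  obtain ⟨δ, hδ⟩ : ∃ δ, δ = min (1 / 10) (e * I0 / 4) := ⟨_, rfl⟩
  have hδ0 : 0 < δ := by rw [hδ]; positivity
  have hδ1 : δ ≤ 1 / 10 := by rw [hδ]; exact min_le_left _ _
  have hδ2 : δ ≤ e * I0 / 4 := by rw [hδ]; exact min_le_right _ _
  have hZ1 : I0 * (1 - e) ≤ Zc δ := by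
    have := Zc_ge hδ0 hδ1
    nlinarith
  have hZ : 0 < Zc δ := lt_of_lt_of_le (by have : 0 < 1 - e := by linarith
                                           positivity) hZ1
  refine ⟨pw δ, (1 - 2 * δ) / 2, pw_wt hδ0 hδ1 hZ, ?_, fun u => ?_⟩
  · refine (pw_energy hδ0 hδ1 hZ).trans ?_
    have h1 : (I0 / Zc δ) ^ 2 ≤ 1 + 6 * e := by
      rw [div_pow, div_le_iff₀ (by positivity)]
      have h2 : I0 ^ 2 * (1 - e) ^ 2 ≤ Zc δ ^ 2 := by
        rw [← mul_pow]
        exact pow_le_pow_left₀ (mul_nonneg hI.le (by linarith)) hZ1 2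
      have h3 : 1 ≤ (1 + 6 * e) * (1 - e) ^ 2 := by
        have : (1 + 6 * e) * (1 - e) ^ 2 = 1 + e * ((1 - 2 * e) * (4 - 3 * e)) := by ring
        rw [this]
        have : 0 ≤ e * ((1 - 2 * e) * (4 - 3 * e)) := mul_nonneg he0.le (mul_nonneg (by linarith) (by linarith))
        linarith
      calc I0 ^ 2 ≤ I0 ^ 2 * ((1 + 6 * e) * (1 - e) ^ 2) := le_mul_of_one_le_right (by positivity) h3
        _ = (1 + 6 * e) * (I0 ^ 2 * (1 - e) ^ 2) := by ring
        _ ≤ _ := mul_le_mul_of_nonneg_left h2 (by linarith)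
    have h2 : 6 * CMT * e ≤ ε := by
      rw [le_div_iff₀ (by positivity)] at he2
      linarith
    calc CMT * (I0 / Zc δ) ^ 2 ≤ CMT * (1 + 6 * e) := mul_le_mul_of_nonneg_left h1 hC.le
      _ = CMT + 6 * CMT * e := by ring
      _ ≤ _ := by linarith
  · refine (pw_close hδ0 hδ1 hZ u).trans ?_
    rw [div_le_iff₀ hI]
    nlinarith

end Pool.Agent.Helper66.RT
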