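import Pool.Agent.Helper6.RT.Zeros
import Pool.Agent.Helper66.RT.Wgt
import Pool.Agent.Helper6.RT.Near
import Pool.Agent.Helper6.RT.Row

/-!
# RT project: assembly
-/

set_option autoImplicit false

open Finset Filter Topology MeasureTheory
open Pool.Agent.Helper57.LH Pool.Agent.Helper57.PC Pool.Agent.Helper57.Zeta
open Pool.Agent.Helper57.FL (ff)
open Pool.Agent.Helper6.HM (lev one_le_mult)
open Pool.Agent.Helper99.HZ (hh)

namespace Pool.Agent.Helper66.RT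

lemma CMT_le : CMT ≤ 27 / 20 := by
  unfold CMT
  have h1 := aa_sq
  have h0 := aa_pos
  have h2 := Real.cos_bound (x := aa) (by rw [abs_of_pos h0]; exact aa_lt.le)
  have h3 := Real.sin_bound (x := aa) (by rw [abs_of_pos h0]; exact aa_lt.le)
  rw [abs_of_pos h0] at h2 h3
  have h4 : aa ^ 4 = 1 / 4 := by
    calc aa ^ 4 = (aa ^ 2) ^ 2 := by ring
      _ = _ := by rw [h1]; norm_num
  have h5 : aa ^ 3 = aa / 2 := by
    calc aa ^ 3 = aa * aa ^ 2 := by ring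
      _ = _ := by rw [h1]; ring
  have h5' : aa ^ 5 = aa / 4 := by
    calc aa ^ 5 = aa * aa ^ 4 := by ring
      _ = _ := by rw [h4]; ring
  rw [h4, h1] at h2
  rw [h5', h5] at h3
  have h6 := (abs_le.1 h2).2
  have h7 := (abs_le.1 h3).1
  have h8 : (7:ℝ) / 10 ≤ aa := by nlinarith
  have h9 := sin_aa_pos
  rw [← sub_nonneg]
  have h10 : 0 ≤ (27 / 20 - 1 / 2) * Real.sin aa - aa * Real.cos aa := by nlinarith
  have h11 : 27 / 20 - (1 / 2 + aa * Real.cos aa / Real.sin aa) = ((27 / 20 - 1 / 2) * Real.sin aa - aa * Real.cos aa) / Real.sin aa := by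
    field_simp
    ring
  rw [h11]
  exact div_nonneg h10 h9.le

open Classical in
/-- the critical zeros -/
noncomputable def Cr (T : ℝ) : Finset ℂ := (Zf T).filter (fun ρ => ρ.re = 1 / 2)

open Classical in
/-- critical zeros with another one within `β` -/
noncomputable def Nr (T β : ℝ) : Finset ℂ := (Cr T).filter (fun ρ => ∃ σ ∈ Cr T, σ ≠ ρ ∧ |lev T ρ - lev T σ| ≤ β)

open Classical in
/-- the isolated simple ones -/
noncomputable def Is (T β : ℝ) : Finset ℂ := (Cr T).filter (fun ρ => mult ρ = 1 ∧ ¬ ∃ σ ∈ Cr T, σ ≠ ρ ∧ |lev T ρ - lev T σ| ≤ β)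

lemma lev_inj' {T : ℝ} (hT : 1 < T) {ρ σ : ℂ} (hρ : ρ.re = 1 / 2) (hσ : σ.re = 1 / 2) (h : lev T ρ = lev T σ) : ρ = σ := by
  have hL : 0 < Real.log T := Real.log_pos hT
  have hpi := Real.pi_pos
  unfold lev at h
  have h1 : ρ.im = σ.im := by
    rw [div_left_inj' (by positivity)] at h
    exact mul_right_cancel₀ hL.ne' h
  exact Complex.ext (hρ.trans hσ.symm) h1

open Classical in
/-- the count for one height -/
theorem count {T β ε e d S : ℝ} (hT : 1 < T) {p : ℝ → ℝ} {b : ℝ} (hp : Wt p b)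
    (he : ∀ u, |u| ≤ 2 * β → 1 - e ≤ Gp p u) (he0 : 0 ≤ e) (he1 : e ≤ 1)
    (hε : ∀ u, |Gp p u - Gam u| ≤ ε) (hd0 : 0 ≤ d)
    (hd : ∀ u v : ℝ, 0 ≤ u → u ≤ 10 → 0 ≤ v → v ≤ 10 → d ≤ eta (Gam u) + eta (Gam v) + eta (Gam (u + v)))
    (hS : S = T * Real.log T / (2 * Real.pi)) :
    2 * NT T - (Is T β).card - 2 * e * (Nr T β).card + d * ((Is T β).card - 2 - 2 * S / 10) - 2 * ε * (Is T β).card ≤
      SN T * ∫ u, hh p u * ff T u := by
  have hlog : 0 < Real.log T := Real.log_pos hT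
  have hpi := Real.pi_pos
  have hS0 : 0 ≤ S := by rw [hS]; positivity
  have hCr : ∀ ρ ∈ Cr T, ρ ∈ Zf T ∧ ρ.re = 1 / 2 := fun ρ hρ => by
    unfold Cr at hρ
    rwa [Finset.mem_filter] at hρ
  have hNr : ∀ ρ ∈ Nr T β, ρ ∈ Cr T ∧ ∃ σ ∈ Cr T, σ ≠ ρ ∧ |lev T ρ - lev T σ| ≤ β := fun ρ hρ => by
    unfold Nr at hρ
    rwa [Finset.mem_filter] at hρ
  have hIs : ∀ ρ ∈ Is T β, ρ ∈ Cr T ∧ mult ρ = 1 ∧ ¬ ∃ σ ∈ Cr T, σ ≠ ρ ∧ |lev T ρ - lev T σ| ≤ β := fun ρ hρ => by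
    unfold Is at hρ
    rwa [Finset.mem_filter] at hρ
  have hdisj : Disjoint (Nr T β) (Is T β) := by
    rw [Finset.disjoint_left]
    intro ρ h1 h2
    exact (hIs ρ h2).2.2 (hNr ρ h1).2
  -- the images
  have hinj1 : ∀ A : Finset ℂ, A ⊆ Cr T → ∀ f : ℝ → ℝ, ∑ u ∈ A.image (lev T), f u = ∑ ρ ∈ A, f (lev T ρ) := by
    intro A hA f
    exact Finset.sum_image fun ρ hρ σ hσ h => lev_inj' hT (hCr ρ (hA hρ)).2 (hCr σ (hA hσ)).2 h
  have hN : Nr T β ⊆ Cr T := fun ρ hρ => (hNr ρ hρ).1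
  have hI : Is T β ⊆ Cr T := fun ρ hρ => (hIs ρ hρ).1
  have hmem : ∀ A : Finset ℂ, A ⊆ Cr T → ∀ ρ ∈ Cr T, lev T ρ ∈ A.image (lev T) → ρ ∈ A := by
    intro A hA ρ hρ h
    obtain ⟨σ, hσ, h1⟩ := Finset.mem_image.1 h
    rwa [← lev_inj' hT (hCr σ (hA hσ)).2 (hCr ρ hρ).2 h1]
  have hcard : ∀ A : Finset ℂ, A ⊆ Cr T → (A.image (lev T)).card = A.card := by
    intro A hA
    exact Finset.card_image_of_injOn fun ρ hρ σ hσ h => lev_inj' hT (hCr ρ (hA hρ)).2 (hCr σ (hA hσ)).2 h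
  -- the near part
  obtain ⟨c₁, s1, z1, p1, n1, r1, t1⟩ := Pool.Agent.Helper6.RT.near (b := β) ((Nr T β).image (lev T)) (by
    intro u hu
    obtain ⟨ρ, hρ, rfl⟩ := Finset.mem_image.1 hu
    obtain ⟨h1, σ, h2, h3, h4⟩ := hNr ρ hρ
    have h5 : σ ∈ Nr T β := by
      unfold Nr
      rw [Finset.mem_filter]
      exact ⟨h2, ρ, h1, h3.symm, by rw [abs_sub_comm]; exact h4⟩
    exact ⟨lev T σ, Finset.mem_image_of_mem _ h5, fun h => h3 (lev_inj' hT (hCr σ h2).2 (hCr ρ h1).2 h), h4⟩)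
  -- the isolated part
  obtain ⟨c₂, s2, z2, n2, r2, t2⟩ := Pool.Agent.Helper6.RT.row ((Is T β).image (lev T)) (S := S) (R := 10) (d := d) hS0 (by norm_num) hd0 (by
    intro u hu
    obtain ⟨ρ, hρ, rfl⟩ := Finset.mem_image.1 hu
    have h1 := (hCr ρ (hI hρ)).1
    rw [mem_Zf] at h1
    unfold lev
    rw [hS]
    constructor
    · have := h1.2.1
      positivity
    · gcongr
      exact h1.2.2) (f := Gam) Gam_even hd
  -- the test function
  set Q : Finset ℂ := Nr T β ∪ Is T β with hQ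
  have hQC : Q ⊆ Cr T := Finset.union_subset hN hI
  set c : ℝ → ℝ → ℝ := fun u v => c₁ u v + c₂ u v with hc
  have hN1 : ∀ u v, c₁ u v ≠ 0 → u ∈ (Nr T β).image (lev T) ∧ v ∈ (Nr T β).image (lev T) := fun u v h => ⟨(n1 u v h).1, (n1 u v h).2.1⟩
  -- sums over `Q`
  have hz1 : ∀ ρ ∈ Is T β, ∀ v, c₁ (lev T ρ) v = 0 := by
    intro ρ hρ v
    by_contra h
    exact (Finset.disjoint_left.1 hdisj) (hmem _ hN ρ (hI hρ) (hN1 _ _ h).1) hρ
  have hz2 : ∀ ρ ∈ Nr T β, ∀ v, c₂ (lev T ρ) v = 0 := by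
    intro ρ hρ v
    by_contra h
    exact (Finset.disjoint_left.1 hdisj) hρ (hmem _ hI ρ (hN hρ) (n2 _ _ h).1)
  have hrow : ∀ ρ ∈ Q, ∑ σ ∈ Q, |c (lev T ρ) (lev T σ)| ≤ 1 := by
    intro ρ hρ
    rw [hQ, Finset.sum_union hdisj]
    rcases Finset.mem_union.1 hρ with h | h
    · have e1 : ∑ σ ∈ Is T β, |c (lev T ρ) (lev T σ)| = 0 := by
        refine Finset.sum_eq_zero fun σ hσ => ?_
        simp only [hc]
        rw [hz2 ρ h, s1, hz1 σ hσ]
        simp
      have e2 : ∑ σ ∈ Nr T β, |c (lev T ρ) (lev T σ)| = ∑ v ∈ (Nr T β).image (lev T), c₁ (lev T ρ) v := by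
        rw [hinj1 _ hN]
        refine Finset.sum_congr rfl fun σ _ => ?_
        simp only [hc]
        rw [hz2 ρ h, add_zero, abs_of_nonneg (p1 _ _)]
      rw [e1, e2, add_zero]
      exact r1 _ (Finset.mem_image_of_mem _ h)
    · have e1 : ∑ σ ∈ Nr T β, |c (lev T ρ) (lev T σ)| = 0 := by
        refine Finset.sum_eq_zero fun σ hσ => ?_
        simp only [hc]
        rw [hz1 ρ h, s2, hz2 σ hσ]
        simp
      have e2 : ∑ σ ∈ Is T β, |c (lev T ρ) (lev T σ)| = ∑ v ∈ (Is T β).image (lev T), |c₂ (lev T ρ) v| := by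
        rw [hinj1 _ hI (fun v => |c₂ (lev T ρ) v|)]
        refine Finset.sum_congr rfl fun σ _ => ?_
        simp only [hc]
        rw [hz1 ρ h, zero_add]
      rw [e1, e2, zero_add]
      exact r2 _ (Finset.mem_image_of_mem _ h)
  have hmain := Pool.Agent.Helper6.RT.zeros_ineq hT hp Q (fun ρ hρ => hCr ρ (hQC hρ)) (c := c)
    (fun u v => by simp only [hc]; rw [s1 u v, s2 u v]) (fun u => by simp only [hc]; rw [z1, z2, add_zero]) hrow
  -- first sum
  have hw : 2 * NT T - (Nr T β).card - (Is T β).card ≤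
      ∑ ρ ∈ Zf T, (if ρ.re = 1 / 2 then (if ρ ∈ Q then 2 * (mult ρ : ℝ) - 1 else 4 * (mult ρ : ℝ) - 4) else 2 * (mult ρ : ℝ)) := by
    have h1 : ∀ ρ ∈ Zf T, 2 * (mult ρ : ℝ) - (if ρ ∈ Q then (1:ℝ) else 0) ≤
        (if ρ.re = 1 / 2 then (if ρ ∈ Q then 2 * (mult ρ : ℝ) - 1 else 4 * (mult ρ : ℝ) - 4) else 2 * (mult ρ : ℝ)) := by
      intro ρ hρ
      by_cases h2 : ρ.re = 1 / 2
      · rw [if_pos h2]
        by_cases h3 : ρ ∈ Q
        · rw [if_pos h3, if_pos h3]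
        · rw [if_neg h3, if_neg h3, sub_zero]
          have h4 : ρ ∈ Cr T := by
            unfold Cr
            rw [Finset.mem_filter]
            exact ⟨hρ, h2⟩
          have h5 : ρ ∉ Nr T β := fun h => h3 (Finset.mem_union_left _ h)
          have h6 : ρ ∉ Is T β := fun h => h3 (Finset.mem_union_right _ h)
          have h7 : ¬ ∃ σ ∈ Cr T, σ ≠ ρ ∧ |lev T ρ - lev T σ| ≤ β := by
            intro h
            apply h5
            unfold Nr
            rw [Finset.mem_filter]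
            exact ⟨h4, h⟩
          have h8 : mult ρ ≠ 1 := by
            intro h
            apply h6
            unfold Is
            rw [Finset.mem_filter]
            exact ⟨h4, h, h7⟩
          have h9 := one_le_mult hρ
          have h10 : 2 ≤ mult ρ := by omega
          have h11 : (2:ℝ) ≤ mult ρ := by exact_mod_cast h10
          linarith
      · rw [if_neg h2]
        have h3 : ρ ∉ Q := fun h => h2 (hCr ρ (hQC h)).2
        rw [if_neg h3]
        linarith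
    refine le_trans (le_of_eq ?_) (Finset.sum_le_sum h1)
    rw [Finset.sum_sub_distrib, ← Finset.mul_sum, Finset.sum_ite_mem,
      Finset.inter_eq_right.2 (fun ρ hρ => (hCr ρ (hQC hρ)).1), Finset.sum_const, nsmul_eq_mul, mul_one, hQ,
      Finset.card_union_of_disjoint hdisj]
    unfold NT
    push_cast
    ring
  -- second sum
  have hs : (1 - 2 * e) * (Nr T β).card + (d * ((Is T β).card - 2 - 2 * S / 10) - 2 * ε * (Is T β).card) ≤
      ∑ ρ ∈ Q, ∑ σ ∈ Q, (2 * (Real.sqrt (mult ρ) * Real.sqrt (mult σ)) * Gp p (lev T ρ - lev T σ) * c (lev T ρ) (lev T σ) -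
        c (lev T ρ) (lev T σ) ^ 2) := by
    rw [hQ, Finset.sum_union hdisj]
    refine add_le_add ?_ ?_
    · -- near
      have e0 : (1 - 2 * e) * (Nr T β).card ≤ ∑ ρ ∈ Nr T β, ∑ σ ∈ Nr T β,
          ((2 * c₁ (lev T ρ) (lev T σ) - c₁ (lev T ρ) (lev T σ) ^ 2) - 2 * e * c₁ (lev T ρ) (lev T σ)) := by
        have f1 : ∑ ρ ∈ Nr T β, ∑ σ ∈ Nr T β, (2 * c₁ (lev T ρ) (lev T σ) - c₁ (lev T ρ) (lev T σ) ^ 2) =
            ∑ u ∈ (Nr T β).image (lev T), ∑ v ∈ (Nr T β).image (lev T), (2 * c₁ u v - c₁ u v ^ 2) := by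
          rw [hinj1 _ hN (fun u => ∑ v ∈ (Nr T β).image (lev T), (2 * c₁ u v - c₁ u v ^ 2))]
          refine Finset.sum_congr rfl fun ρ _ => ?_
          rw [hinj1 _ hN (fun v => 2 * c₁ (lev T ρ) v - c₁ (lev T ρ) v ^ 2)]
        have f2 : ∑ ρ ∈ Nr T β, ∑ σ ∈ Nr T β, c₁ (lev T ρ) (lev T σ) ≤ (Nr T β).card := by
          calc ∑ ρ ∈ Nr T β, ∑ σ ∈ Nr T β, c₁ (lev T ρ) (lev T σ) ≤ ∑ ρ ∈ Nr T β, (1:ℝ) := by
                refine Finset.sum_le_sum fun ρ hρ => ?_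
                have := r1 _ (Finset.mem_image_of_mem (lev T) hρ)
                rwa [hinj1 _ hN (fun v => c₁ (lev T ρ) v)] at this
            _ = _ := by simp
        rw [hcard _ hN] at t1
        have f3 : ∑ ρ ∈ Nr T β, ∑ σ ∈ Nr T β,
            ((2 * c₁ (lev T ρ) (lev T σ) - c₁ (lev T ρ) (lev T σ) ^ 2) - 2 * e * c₁ (lev T ρ) (lev T σ)) =
            ∑ ρ ∈ Nr T β, ∑ σ ∈ Nr T β, (2 * c₁ (lev T ρ) (lev T σ) - c₁ (lev T ρ) (lev T σ) ^ 2) -
            2 * e * ∑ ρ ∈ Nr T β, ∑ σ ∈ Nr T β, c₁ (lev T ρ) (lev T σ) := by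
          rw [Finset.mul_sum, ← Finset.sum_sub_distrib]
          refine Finset.sum_congr rfl fun ρ _ => ?_
          rw [Finset.mul_sum, ← Finset.sum_sub_distrib]
        rw [f3, f1]
        nlinarith
      refine e0.trans (Finset.sum_le_sum fun ρ hρ => ?_)
      rw [Finset.sum_union hdisj]
      have e1 : ∑ σ ∈ Is T β, (2 * (Real.sqrt (mult ρ) * Real.sqrt (mult σ)) * Gp p (lev T ρ - lev T σ) * c (lev T ρ) (lev T σ) -
          c (lev T ρ) (lev T σ) ^ 2) = 0 := by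
        refine Finset.sum_eq_zero fun σ hσ => ?_
        have : c (lev T ρ) (lev T σ) = 0 := by
          simp only [hc]
          rw [hz2 ρ hρ, s1, hz1 σ hσ, add_zero]
        rw [this]
        ring
      rw [e1, add_zero]
      refine Finset.sum_le_sum fun σ hσ => ?_
      have e2 : c (lev T ρ) (lev T σ) = c₁ (lev T ρ) (lev T σ) := by
        simp only [hc]
        rw [hz2 ρ hρ, add_zero]
      rw [e2]
      by_cases h0 : c₁ (lev T ρ) (lev T σ) = 0
      · rw [h0]; simp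
      · have h1 := he _ ((n1 _ _ h0).2.2)
        have h2 := p1 (lev T ρ) (lev T σ)
        have h3 : (1:ℝ) ≤ Real.sqrt (mult ρ) * Real.sqrt (mult σ) := by
          have g1 : (1:ℝ) ≤ Real.sqrt (mult ρ) := by
            rw [Real.one_le_sqrt]
            exact_mod_cast one_le_mult (hCr ρ (hN hρ)).1
          have g2 : (1:ℝ) ≤ Real.sqrt (mult σ) := by
            rw [Real.one_le_sqrt]
            exact_mod_cast one_le_mult (hCr σ (hN hσ)).1
          nlinarith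
        have h4 : 1 - e ≤ (Real.sqrt (mult ρ) * Real.sqrt (mult σ)) * Gp p (lev T ρ - lev T σ) := by
          have : 0 ≤ 1 - e := by linarith
          nlinarith
        nlinarith
    · -- isolated
      have hm : ∀ ρ ∈ Is T β, Real.sqrt (mult ρ) = 1 := by
        intro ρ hρ
        rw [(hIs ρ hρ).2.1]
        simp
      have e0 : d * ((Is T β).card - 2 - 2 * S / 10) - 2 * ε * (Is T β).card ≤ ∑ ρ ∈ Is T β, ∑ σ ∈ Is T β,
          ((2 * Gam (lev T ρ - lev T σ) * c₂ (lev T ρ) (lev T σ) - c₂ (lev T ρ) (lev T σ) ^ 2) - 2 * ε * |c₂ (lev T ρ) (lev T σ)|) := by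
        have f1 : ∑ ρ ∈ Is T β, ∑ σ ∈ Is T β, (2 * Gam (lev T ρ - lev T σ) * c₂ (lev T ρ) (lev T σ) - c₂ (lev T ρ) (lev T σ) ^ 2) =
            ∑ u ∈ (Is T β).image (lev T), ∑ v ∈ (Is T β).image (lev T), (2 * Gam (u - v) * c₂ u v - c₂ u v ^ 2) := by
          rw [hinj1 _ hI (fun u => ∑ v ∈ (Is T β).image (lev T), (2 * Gam (u - v) * c₂ u v - c₂ u v ^ 2))]
          refine Finset.sum_congr rfl fun ρ _ => ?_
          rw [hinj1 _ hI (fun v => 2 * Gam (lev T ρ - v) * c₂ (lev T ρ) v - c₂ (lev T ρ) v ^ 2)]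
        have f2 : ∑ ρ ∈ Is T β, ∑ σ ∈ Is T β, |c₂ (lev T ρ) (lev T σ)| ≤ (Is T β).card := by
          calc ∑ ρ ∈ Is T β, ∑ σ ∈ Is T β, |c₂ (lev T ρ) (lev T σ)| ≤ ∑ ρ ∈ Is T β, (1:ℝ) := by
                refine Finset.sum_le_sum fun ρ hρ => ?_
                have := r2 _ (Finset.mem_image_of_mem (lev T) hρ)
                rwa [hinj1 _ hI (fun v => |c₂ (lev T ρ) v|)] at this
            _ = _ := by simp
        rw [hcard _ hI] at t2
        have f3 : ∑ ρ ∈ Is T β, ∑ σ ∈ Is T β,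
            ((2 * Gam (lev T ρ - lev T σ) * c₂ (lev T ρ) (lev T σ) - c₂ (lev T ρ) (lev T σ) ^ 2) - 2 * ε * |c₂ (lev T ρ) (lev T σ)|) =
            ∑ ρ ∈ Is T β, ∑ σ ∈ Is T β, (2 * Gam (lev T ρ - lev T σ) * c₂ (lev T ρ) (lev T σ) - c₂ (lev T ρ) (lev T σ) ^ 2) -
            2 * ε * ∑ ρ ∈ Is T β, ∑ σ ∈ Is T β, |c₂ (lev T ρ) (lev T σ)| := by
          rw [Finset.mul_sum, ← Finset.sum_sub_distrib]
          refine Finset.sum_congr rfl fun ρ _ => ?_
          rw [Finset.mul_sum, ← Finset.sum_sub_distrib]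
        rw [f3, f1]
        have hε0 : 0 ≤ ε := (abs_nonneg _).trans (hε 0)
        nlinarith
      refine e0.trans (Finset.sum_le_sum fun ρ hρ => ?_)
      rw [Finset.sum_union hdisj]
      have e1 : ∑ σ ∈ Nr T β, (2 * (Real.sqrt (mult ρ) * Real.sqrt (mult σ)) * Gp p (lev T ρ - lev T σ) * c (lev T ρ) (lev T σ) -
          c (lev T ρ) (lev T σ) ^ 2) = 0 := by
        refine Finset.sum_eq_zero fun σ hσ => ?_
        have : c (lev T ρ) (lev T σ) = 0 := by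
          simp only [hc]
          rw [hz1 ρ hρ, s2, hz2 σ hσ, add_zero]
        rw [this]
        ring
      rw [e1, zero_add]
      refine Finset.sum_le_sum fun σ hσ => ?_
      have e2 : c (lev T ρ) (lev T σ) = c₂ (lev T ρ) (lev T σ) := by
        simp only [hc]
        rw [hz1 ρ hρ, zero_add]
      rw [e2, hm ρ hρ, hm σ hσ]
      have h1 := hε (lev T ρ - lev T σ)
      have h2 : |(Gp p (lev T ρ - lev T σ) - Gam (lev T ρ - lev T σ)) * c₂ (lev T ρ) (lev T σ)| ≤ ε * |c₂ (lev T ρ) (lev T σ)| := by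
        rw [abs_mul]
        exact mul_le_mul_of_nonneg_right h1 (abs_nonneg _)
      have h3 := (abs_le.1 h2).1
      linarith
  linarith

end Pool.Agent.Helper66.RT
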