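import Pool.Agent.Helper66.RT.Unif

/-!
# RT project: the Montgomery-Taylor transform up to one half
-/

set_option autoImplicit false

open MeasureTheory Set Filter Topology

namespace Pool.Agent.Helper66.RT

lemma CMT_two : (2 * CMT - 1) * Real.sin aa = 2 * aa * Real.cos aa := by
  unfold CMT
  have h2 := sin_aa_pos
  field_simp
  ring

lemma Gam_closed (u : ℝ) : (1 - 2 * Real.pi ^ 2 * u ^ 2) * Gam u =
    Real.cos (Real.pi * u) - 2 * Real.pi * u * (CMT - 1 / 2) * Real.sin (Real.pi * u) := by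
  have h1 := Gam_eq u
  have h2 := CMT_two
  have h3 := aa_sq
  have h4 := sin_aa_pos
  have h5 := aa_pos
  have h6 : I0 * aa = Real.sin aa := by
    unfold I0
    field_simp
  have h7 : Real.sin aa * ((1 - 2 * Real.pi ^ 2 * u ^ 2) * Gam u) =
      Real.sin aa * (Real.cos (Real.pi * u) - 2 * Real.pi * u * (CMT - 1 / 2) * Real.sin (Real.pi * u)) := by
    have e1 : Real.sin aa * ((1 - 2 * Real.pi ^ 2 * u ^ 2) * Gam u) = - 2 * aa * (((Real.pi * u) ^ 2 - aa ^ 2) * (I0 * Gam u)) := by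
      rw [← h6]
      have : aa ^ 2 * 2 = 1 := by rw [h3]; norm_num
      linear_combination (-(I0 * aa * Gam u)) * this
    rw [e1, h1]
    linear_combination (2 * Real.cos (Real.pi * u) * Real.sin aa) * h3 + (Real.pi * u * Real.sin (Real.pi * u)) * h2
  exact mul_left_cancel₀ h4.ne' h7

lemma half_bounds : 9366 / 10000 ≤ Real.cos (aa / 2) ∧ Real.cos (aa / 2) ≤ 9384 / 10000 ∧
    9789 / 10000 * aa ≤ 2 * Real.sin (aa / 2) ∧ 2 * Real.sin (aa / 2) ≤ 9794 / 10000 * aa := by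
  have h1 := aa_sq
  have h0 := aa_pos
  have h0' := aa_lt
  have h2 := Real.cos_bound (x := aa / 2) (by rw [abs_of_pos (by positivity)]; linarith)
  have h3 := Real.sin_bound (x := aa / 2) (by rw [abs_of_pos (by positivity)]; linarith)
  rw [abs_of_pos (by positivity : 0 < aa / 2)] at h2 h3
  have e2 : (aa / 2) ^ 2 = 1 / 8 := by rw [div_pow, h1]; norm_num
  have e4 : (aa / 2) ^ 4 = 1 / 64 := by
    calc (aa / 2) ^ 4 = ((aa / 2) ^ 2) ^ 2 := by ring
      _ = _ := by rw [e2]; norm_num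
  have e3 : (aa / 2) ^ 3 = aa / 16 := by
    calc (aa / 2) ^ 3 = aa / 2 * (aa / 2) ^ 2 := by ring
      _ = _ := by rw [e2]; ring
  have e5 : (aa / 2) ^ 5 = aa / 128 := by
    calc (aa / 2) ^ 5 = aa / 2 * (aa / 2) ^ 4 := by ring
      _ = _ := by rw [e4]; ring
  rw [e4, e2] at h2
  rw [e5, e3] at h3
  have h4 := abs_le.1 h2
  have h5 := abs_le.1 h3
  refine ⟨by linarith, by linarith, by linarith, by linarith⟩

lemma CMT_key : (2 * CMT - 1) * (2 * Real.sin (aa / 2)) * Real.cos (aa / 2) = 2 * aa * (2 * Real.cos (aa / 2) ^ 2 - 1) := by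
  have h1 := CMT_two
  have e1 : Real.sin aa = 2 * Real.sin (aa / 2) * Real.cos (aa / 2) := by
    rw [← Real.sin_two_mul]
    congr 1
    ring
  have e2 : Real.cos aa = 2 * Real.cos (aa / 2) ^ 2 - 1 := by
    rw [← Real.cos_two_mul]
    congr 1
    ring
  rw [e1, e2] at h1
  linarith

lemma CMT_ge3 : 132 / 100 ≤ CMT := by
  obtain ⟨h1, h2, h3, h4⟩ := half_bounds
  have h5 := CMT_key
  have h6 := aa_pos
  have h7 := CMT_ge
  set c := Real.cos (aa / 2)
  set s := 2 * Real.sin (aa / 2)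
  have h8 : 2 * aa * (2 * c ^ 2 - 1) ≤ (2 * CMT - 1) * (9794 / 10000 * aa) * c := by
    rw [← h5]
    gcongr
    linarith
  have h9 : 2 * (2 * c ^ 2 - 1) ≤ (2 * CMT - 1) * (9794 / 10000) * c := by
    refine le_of_mul_le_mul_left ?_ h6
    linarith
  by_contra h
  push Not at h
  have h10 : (2 * CMT - 1) * (9794 / 10000) * c ≤ (164 / 100) * (9794 / 10000) * c := by
    gcongr
    linarith
  nlinarith

lemma CMT_le3 : CMT ≤ 133 / 100 := by
  obtain ⟨h1, h2, h3, h4⟩ := half_bounds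
  have h5 := CMT_key
  have h6 := aa_pos
  have h7 := CMT_ge
  set c := Real.cos (aa / 2)
  set s := 2 * Real.sin (aa / 2)
  have h8 : (2 * CMT - 1) * (9789 / 10000 * aa) * c ≤ 2 * aa * (2 * c ^ 2 - 1) := by
    rw [← h5]
    gcongr
    linarith
  have h9 : (2 * CMT - 1) * (9789 / 10000) * c ≤ 2 * (2 * c ^ 2 - 1) := by
    refine le_of_mul_le_mul_left ?_ h6
    linarith
  by_contra h
  push Not at h
  have h10 : (166 / 100) * (9789 / 10000) * c ≤ (2 * CMT - 1) * (9789 / 10000) * c := by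
    gcongr
    linarith
  nlinarith

lemma Gam_half_eq : (Real.pi ^ 2 - 2) * Gam (1 / 2) = 2 * Real.pi * (CMT - 1 / 2) := by
  have h := Gam_closed (1 / 2)
  have e : Real.pi * (1 / 2) = Real.pi / 2 := by ring
  rw [e, Real.cos_pi_div_two, Real.sin_pi_div_two] at h
  linarith

lemma Gam_half_ge : 653 / 1000 ≤ Gam (1 / 2) := by
  have h := Gam_half_eq
  have h1 := CMT_ge3
  have h2 := Real.pi_gt_d4
  have h3 := Real.pi_lt_d4
  have h4 : 0 < Real.pi ^ 2 - 2 := by nlinarith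
  by_contra hlt
  push Not at hlt
  have h5 : (Real.pi ^ 2 - 2) * Gam (1 / 2) < (Real.pi ^ 2 - 2) * (653 / 1000) := mul_lt_mul_of_pos_left hlt h4
  nlinarith

lemma Gam_half : 42 / 100 ≤ Gam (1 / 2) ^ 2 := by
  have := Gam_half_ge
  nlinarith

lemma Gam_anti {u v : ℝ} (hu : 0 ≤ u) (huv : u ≤ v) (hv : v ≤ 1 / 2) : Gam v ≤ Gam u := by
  have hc := ph_cont
  have hpi := Real.pi_pos
  unfold Gam
  refine div_le_div_of_nonneg_right ?_ I0_pos.le
  refine intervalIntegral.integral_mono_on (by norm_num) (Continuous.intervalIntegrable (by fun_prop) _ _)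
    (Continuous.intervalIntegrable (by fun_prop) _ _) fun x hx => ?_
  refine mul_le_mul_of_nonneg_left ?_ (ph_pos (box_abs hx)).le
  have e1 : Real.cos (2 * Real.pi * x * v) = Real.cos (2 * Real.pi * |x| * v) := by
    rw [← Real.cos_abs, abs_mul, abs_mul, abs_mul, abs_of_pos hpi, abs_of_nonneg (hu.trans huv)]
    norm_num
  have e2 : Real.cos (2 * Real.pi * x * u) = Real.cos (2 * Real.pi * |x| * u) := by
    rw [← Real.cos_abs, abs_mul, abs_mul, abs_mul, abs_of_pos hpi, abs_of_nonneg hu]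
    norm_num
  rw [e1, e2]
  have h1 : |x| ≤ 1 / 2 := box_abs hx
  have h2 : 0 ≤ |x| := abs_nonneg x
  refine Real.cos_le_cos_of_nonneg_of_le_pi (by positivity) ?_ (by gcongr)
  have h3 : 0 ≤ v := hu.trans huv
  calc 2 * Real.pi * |x| * v ≤ 2 * Real.pi * (1 / 2) * (1 / 2) := by gcongr
    _ ≤ Real.pi := by linarith

lemma Gam_pos_half {u : ℝ} (hu : |u| ≤ 1 / 2) : 653 / 1000 ≤ Gam u := by
  have h1 : Gam u = Gam |u| := by
    rcases abs_choice u with h | h
    · rw [h]
    · rw [h, Gam_even]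
  rw [h1]
  exact Gam_half_ge.trans (Gam_anti (abs_nonneg u) hu le_rfl)

end Pool.Agent.Helper66.RT
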