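import Pool.Agent.Helper66.RT.Cells

/-!
# RT project: numerical values with the loss included
-/

set_option autoImplicit false

namespace Pool.Agent.Helper66.RT

/-- sharper bounds for `a cos a` in terms of `sin a` at `a = 1/√2` -/
lemma num_cos_sin9 {a : ℝ} (h0 : 0 < a) (h1 : a ^ 2 = 1 / 2) :
    82749 / 100000 * Real.sin a ≤ a * Real.cos a ∧ a * Real.cos a ≤ 82751 / 100000 * Real.sin a := by
  have hn : ‖(a : ℂ) * Complex.I‖ = a := by
    rw [norm_mul, Complex.norm_I, mul_one, Complex.norm_real, Real.norm_of_nonneg h0.le]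
  have ha1 : a ≤ 1 := by nlinarith
  have hb := Complex.exp_bound' (x := (a : ℂ) * Complex.I) (n := 8) (by
    rw [hn]; norm_num; linarith)
  rw [hn] at hb
  have h4 : a ^ 4 = 1 / 4 := by
    calc a ^ 4 = (a ^ 2) ^ 2 := by ring
      _ = _ := by rw [h1]; norm_num
  have h6 : a ^ 6 = 1 / 8 := by
    calc a ^ 6 = (a ^ 2) ^ 3 := by ring
      _ = _ := by rw [h1]; norm_num
  have h8 : a ^ 8 = 1 / 16 := by
    calc a ^ 8 = (a ^ 2) ^ 4 := by ring
      _ = _ := by rw [h1]; norm_num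
  have hexp : Complex.exp ((a : ℂ) * Complex.I) = (Real.cos a : ℂ) + (Real.sin a : ℂ) * Complex.I := by
    rw [Complex.exp_mul_I, ← Complex.ofReal_cos, ← Complex.ofReal_sin]
  have hI2 : Complex.I ^ 2 = -1 := Complex.I_sq
  have hsum : ∑ m ∈ Finset.range 8, ((a : ℂ) * Complex.I) ^ m / (m.factorial : ℂ) =
      ((1 - a ^ 2 / 2 + a ^ 4 / 24 - a ^ 6 / 720 : ℝ) : ℂ) +
      ((a * (1 - a ^ 2 / 6 + a ^ 4 / 120 - a ^ 6 / 5040) : ℝ) : ℂ) * Complex.I := by
    have i3 : Complex.I ^ 3 = -Complex.I := by rw [pow_succ, hI2]; ring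
    have i4 : Complex.I ^ 4 = 1 := by rw [pow_succ, i3]; simp
    have i5 : Complex.I ^ 5 = Complex.I := by rw [pow_succ, i4]; ring
    have i6 : Complex.I ^ 6 = -1 := by rw [pow_succ, i5]; simp
    have i7 : Complex.I ^ 7 = -Complex.I := by rw [pow_succ, i6]; ring
    simp only [Finset.sum_range_succ, Finset.sum_range_zero, mul_pow, i3, i4, i5, i6, i7, hI2, Nat.factorial]
    push_cast
    ring
  rw [hexp, hsum] at hb
  have hre := (Complex.abs_re_le_norm _).trans hb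
  have him := (Complex.abs_im_le_norm _).trans hb
  have e1 : ((Real.cos a : ℂ) + (Real.sin a : ℂ) * Complex.I -
      (((1 - a ^ 2 / 2 + a ^ 4 / 24 - a ^ 6 / 720 : ℝ) : ℂ) +
      ((a * (1 - a ^ 2 / 6 + a ^ 4 / 120 - a ^ 6 / 5040) : ℝ) : ℂ) * Complex.I)).re =
      Real.cos a - (1 - a ^ 2 / 2 + a ^ 4 / 24 - a ^ 6 / 720) := by
    simp only [Complex.sub_re, Complex.add_re, Complex.re_ofReal_mul, Complex.I_re, Complex.ofReal_re]
    ring
  have e2 : ((Real.cos a : ℂ) + (Real.sin a : ℂ) * Complex.I -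
      (((1 - a ^ 2 / 2 + a ^ 4 / 24 - a ^ 6 / 720 : ℝ) : ℂ) +
      ((a * (1 - a ^ 2 / 6 + a ^ 4 / 120 - a ^ 6 / 5040) : ℝ) : ℂ) * Complex.I)).im =
      Real.sin a - a * (1 - a ^ 2 / 6 + a ^ 4 / 120 - a ^ 6 / 5040) := by
    simp only [Complex.sub_im, Complex.add_im, Complex.im_ofReal_mul, Complex.I_im, Complex.ofReal_im]
    ring
  rw [e1, h1, h4, h6, h8] at hre
  rw [e2, h1, h4, h6, h8] at him
  have hfac : ((8 : ℕ).factorial : ℝ) = 40320 := by norm_num [Nat.factorial]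
  rw [hfac] at hre him
  have h10 : (7071 : ℝ) / 10000 ≤ a := by nlinarith
  constructor
  · have h7 := (abs_le.1 hre).1
    have h9 := (abs_le.1 him).2
    have h11 : a * (1 - (1 / 2) / 2 + (1 / 4) / 24 - (1 / 8) / 720 - 1 / 16 / 40320 * 2) ≤ a * Real.cos a :=
      mul_le_mul_of_nonneg_left (by linarith) h0.le
    norm_num at h9 h11 ⊢
    linarith
  · have h7 := (abs_le.1 hre).2
    have h9 := (abs_le.1 him).1
    have h11 : a * Real.cos a ≤ a * (1 - (1 / 2) / 2 + (1 / 4) / 24 - (1 / 8) / 720 + 1 / 16 / 40320 * 2) :=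
      mul_le_mul_of_nonneg_left (by linarith) h0.le
    norm_num at h9 h11 ⊢
    linarith

lemma q_lo9 : 82749 / 100000 ≤ CMT - 1 / 2 := by
  obtain ⟨h1, h2⟩ := num_cos_sin9 aa_pos aa_sq
  unfold CMT
  have h3 : 82749 / 100000 ≤ aa * Real.cos aa / Real.sin aa := by
    rw [le_div_iff₀ sin_aa_pos]
    exact h1
  linarith

lemma q_hi9 : CMT - 1 / 2 ≤ 82751 / 100000 := by
  obtain ⟨h1, h2⟩ := num_cos_sin9 aa_pos aa_sq
  unfold CMT
  have h3 : aa * Real.cos aa / Real.sin aa ≤ 82751 / 100000 := by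
    rw [div_le_iff₀ sin_aa_pos]
    exact h2
  linarith

/-- lower bound for `Gam` -/
lemma Gam_ge9 {b gl θl θu cu sl : ℝ} (h1 : 0 ≤ θl) (h2 : θl ≤ Real.pi * b) (h3 : Real.pi * b ≤ θu)
    (h5 : Real.cos (Real.pi * b) ≤ cu) (h6 : 0 ≤ sl) (h7 : sl ≤ Real.sin (Real.pi * b)) (hg : 0 ≤ gl)
    (hpos : 0 < 2 * θl ^ 2 - 1) (h : gl * (2 * θu ^ 2 - 1) ≤ 2 * θl * (82749 / 100000) * sl - cu) : gl ≤ Gam b := by
  have k := Gam_closed b
  obtain ⟨θ, hθ⟩ : ∃ θ, θ = Real.pi * b := ⟨_, rfl⟩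
  have e1 : 1 - 2 * Real.pi ^ 2 * b ^ 2 = 1 - 2 * θ ^ 2 := by rw [hθ]; ring
  have e2 : 2 * Real.pi * b * (CMT - 1 / 2) * Real.sin (Real.pi * b) = 2 * θ * (CMT - 1 / 2) * Real.sin θ := by rw [hθ]; ring
  rw [e1, e2] at k
  rw [← hθ] at h2 h3 h5 h7 k
  have hq := q_lo9
  have g1 : 2 * θl * (82749 / 100000) * sl ≤ 2 * θ * (CMT - 1 / 2) * Real.sin θ := by
    have h8 : 0 ≤ θ := h1.trans h2
    gcongr
  have g2 : θ ^ 2 ≤ θu ^ 2 := pow_le_pow_left₀ (h1.trans h2) h3 2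
  have g2' : θl ^ 2 ≤ θ ^ 2 := pow_le_pow_left₀ h1 h2 2
  have g3 : gl * (2 * θ ^ 2 - 1) ≤ gl * (2 * θu ^ 2 - 1) := mul_le_mul_of_nonneg_left (by linarith) hg
  have g4 : (2 * θ ^ 2 - 1) * gl ≤ (2 * θ ^ 2 - 1) * Gam b := by
    have : (2 * θ ^ 2 - 1) * Gam b = -((1 - 2 * θ ^ 2) * Gam b) := by ring
    rw [this, k]
    linarith
  exact le_of_mul_le_mul_left g4 (by linarith)

lemma of_sq9 {g k : ℝ} (hg : 0 < g) {x : ℝ} (hx : g ≤ x) (h : 82751 / 100000 - 1 / 2 ≤ (1 - k) * g ^ 2) (hk : k ≤ 1) :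
    k ≤ 1 - (CMT - 1) / x ^ 2 := by
  have hq := q_hi9
  have h1 : (CMT - 1) / x ^ 2 ≤ 1 - k := by
    have hx0 : 0 < x := lt_of_lt_of_le hg hx
    rw [div_le_iff₀ (by positivity)]
    have h2 : (1 - k) * g ^ 2 ≤ (1 - k) * x ^ 2 :=
      mul_le_mul_of_nonneg_left (pow_le_pow_left₀ hg.le hx 2) (by linarith)
    linarith
  linarith

lemma val9_20 : 2 / 3 ≤ 1 - (CMT - 1) / Gam (1 / 20) ^ 2 - 1 / 1400 := by
  have h1 : 995 / 1000 ≤ Gam (1 / 20) := by
    have h := Gam_near (1 / 20)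
    have h2 := q_hi9
    have h3 : Real.pi ^ 2 ≤ 10 := by
      have := Real.pi_lt_d2
      have := Real.pi_pos
      nlinarith
    have h4 : (2 * Real.pi * (1 / 20)) ^ 2 / 2 = Real.pi ^ 2 / 200 := by ring
    rw [h4] at h
    have h5 : Real.pi ^ 2 / 200 * (CMT - 5 / 4) ≤ 10 / 200 * (239 / 180 - 5 / 4) := by
      have h6 := CMT_ge
      exact mul_le_mul (by linarith) (by linarith) (by linarith) (by norm_num)
    norm_num at h5
    linarith
  have h2 := of_sq9 (k := 2 / 3 + 1 / 1400) (by norm_num) h1 (by norm_num) (by norm_num)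
  linarith

lemma sqrt2_lo9 : (1414213 : ℝ) / 1000000 ≤ Real.sqrt 2 := Real.le_sqrt_of_sq_le (by norm_num)
lemma sqrt2_hi9 : Real.sqrt 2 ≤ 1414214 / 1000000 := by
  rw [Real.sqrt_le_left (by norm_num)]
  norm_num

lemma val9_4 : 3 / 5 ≤ 1 - (CMT - 1) / Gam (1 / 4) ^ 2 - 1 / 600 := by
  have e : Real.pi * (1 / 4) = Real.pi / 4 := by ring
  have h3 := sqrt2_hi9
  have h4 := sqrt2_lo9
  have h1 : 90714 / 100000 ≤ Gam (1 / 4) := by
    refine Gam_ge9 (θl := 3141592 / 1000000 * (1 / 4)) (θu := 3141593 / 1000000 * (1 / 4)) (cu := 1414214 / 2000000)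
      (sl := 1414213 / 2000000) (by norm_num) (pib_lo (by norm_num)) (pib_hi (by norm_num)) ?_ (by norm_num) ?_ (by norm_num)
      (by norm_num) (by norm_num)
    · rw [e, Real.cos_pi_div_four]
      linarith
    · rw [e, Real.sin_pi_div_four]
      linarith
  have h2 := of_sq9 (k := 3 / 5 + 1 / 600) (by norm_num) h1 (by norm_num) (by norm_num)
  linarith

lemma val9_3 : 53 / 100 ≤ 1 - (CMT - 1) / Gam (1 / 3) ^ 2 - 1 / 270 := by
  have e : Real.pi * (1 / 3) = Real.pi / 3 := by ring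
  have h3 := sqrt3_lo
  have h1 : 8386 / 10000 ≤ Gam (1 / 3) := by
    refine Gam_ge9 (θl := 3141592 / 1000000 * (1 / 3)) (θu := 3141593 / 1000000 * (1 / 3)) (cu := 1 / 2)
      (sl := 173205 / 200000) (by norm_num) (pib_lo (by norm_num)) (pib_hi (by norm_num)) ?_ (by norm_num) ?_ (by norm_num)
      (by norm_num) (by norm_num)
    · rw [e, Real.cos_pi_div_three]
    · rw [e, Real.sin_pi_div_three]
      linarith
  have h2 := of_sq9 (k := 53 / 100 + 1 / 270) (by norm_num) h1 (by norm_num) (by norm_num)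
  linarith

lemma val9_2 : 6 / 25 ≤ 1 - (CMT - 1) / Gam (1 / 2) ^ 2 - 1 / 125 := by
  have e : Real.pi * (1 / 2) = Real.pi / 2 := by ring
  have h1 : 6605 / 10000 ≤ Gam (1 / 2) := by
    refine Gam_ge9 (θl := 3141592 / 1000000 * (1 / 2)) (θu := 3141593 / 1000000 * (1 / 2)) (cu := 0)
      (sl := 1) (by norm_num) (pib_lo (by norm_num)) (pib_hi (by norm_num)) ?_ (by norm_num) ?_ (by norm_num)
      (by norm_num) (by norm_num)
    · rw [e, Real.cos_pi_div_two]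
    · rw [e, Real.sin_pi_div_two]
  have h2 := of_sq9 (k := 6 / 25 + 1 / 125) (by norm_num) h1 (by norm_num) (by norm_num)
  linarith

end Pool.Agent.Helper66.RT
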