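import Pool.Agent.Helper66.RT.Wgt

/-!
# RT project: uniformity in `β`
-/

set_option autoImplicit false

open MeasureTheory Set Filter Topology

namespace Pool.Agent.Helper66.RT

lemma CMT_le2 : CMT ≤ 267 / 200 := by
  unfold CMT
  have h1 := aa_sq
  have h0 := aa_pos
  have h2 := Real.cos_bound (x := aa) (by rw [abs_of_pos h0]; exact aa_lt.le)
  have h3 := Real.sin_bound (x := aa) (by rw [abs_of_pos h0]; exact aa_lt.le)
  rw [abs_of_pos h0] at h2 h3
  have h4 : aa ^ 4 = 1 / 4 := by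
    calc aa ^ 4 = (aa ^ 2) ^ 2 := by ring
      _ = _ := by rw [h1]; norm_num
  have h5 : aa ^ 3 = aa / 2 := by
    calc aa ^ 3 = aa * aa ^ 2 := by ring
      _ = _ := by rw [h1]; ring
  have h5' : aa ^ 5 = aa / 4 := by
    calc aa ^ 5 = aa * aa ^ 4 := by ring
      _ = _ := by rw [h4]; ring
  rw [h4, h1] at h2
  rw [h5', h5] at h3
  have h6 := (abs_le.1 h2).2
  have h7 := (abs_le.1 h3).1
  have h9 := sin_aa_pos
  rw [← sub_nonneg]
  have h10 : 0 ≤ (267 / 200 - 1 / 2) * Real.sin aa - aa * Real.cos aa := by nlinarith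
  have h11 : 267 / 200 - (1 / 2 + aa * Real.cos aa / Real.sin aa) = ((267 / 200 - 1 / 2) * Real.sin aa - aa * Real.cos aa) / Real.sin aa := by
    field_simp
    ring
  rw [h11]
  exact div_nonneg h10 h9.le

/-- the second moment of the window -/
lemma var_ph : ∫ x in (-(1 / 2) : ℝ)..(1 / 2), ph x * x ^ 2 = I0 * (CMT - 5 / 4) := by
  have h1 : ∀ x ∈ uIcc (-(1 / 2) : ℝ) (1 / 2), HasDerivAt (fun x : ℝ => x ^ 2 * (Real.sin (2 * aa * x) / (2 * aa)) +
      x * Real.cos (2 * aa * x) - Real.sin (2 * aa * x) / (2 * aa)) (ph x * x ^ 2) x := by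
    intro x _
    have h2 : HasDerivAt (fun x : ℝ => 2 * aa * x) (2 * aa) x := by
      simpa using (hasDerivAt_id x).const_mul (2 * aa)
    have h3 := ((hasDerivAt_pow 2 x).mul (h2.sin.div_const (2 * aa))).add ((hasDerivAt_id x).mul h2.cos)
    have h4 := h3.sub (h2.sin.div_const (2 * aa))
    refine (h4.congr_deriv ?_)
    have h5 := aa_pos
    have h6 := aa_sq
    unfold ph
    simp only [id]
    field_simp
    push_cast
    ring_nf
    linear_combination (-(4 * x * Real.sin (x * aa * 2))) * h6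
  rw [intervalIntegral.integral_eq_sub_of_hasDerivAt h1 (Continuous.intervalIntegrable (by have := ph_cont; fun_prop) _ _)]
  have f1 : 2 * aa * (1 / 2) = aa := by ring
  have f2 : 2 * aa * -(1 / 2) = -aa := by ring
  rw [f1, f2, Real.sin_neg, Real.cos_neg]
  have h2 := CMT_mul
  have h3 : I0 * (CMT - 5 / 4) = CMT * I0 - 5 / 4 * I0 := by ring
  rw [h3, h2]
  have h4 := aa_sq
  have h5 := aa_pos
  unfold I0
  field_simp
  ring_nf
  linear_combination (-32 * (Real.sin aa)) * h4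

lemma CMT_ge : 5 / 4 ≤ CMT := by
  have h1 : 0 ≤ ∫ x in (-(1 / 2) : ℝ)..(1 / 2), ph x * x ^ 2 :=
    intervalIntegral.integral_nonneg (by norm_num) fun x hx => mul_nonneg (ph_pos (box_abs hx)).le (sq_nonneg x)
  rw [var_ph] at h1
  by_contra h
  push Not at h
  have h2 : I0 * (CMT - 5 / 4) < 0 := mul_neg_of_pos_of_neg I0_pos (by linarith)
  linarith

/-- the transform near zero -/
lemma Gam_near (u : ℝ) : 1 - (2 * Real.pi * u) ^ 2 / 2 * (CMT - 5 / 4) ≤ Gam u := by
  have hI := I0_pos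
  have hc := ph_cont
  unfold Gam
  rw [le_div_iff₀ hI]
  have e : (1 - (2 * Real.pi * u) ^ 2 / 2 * (CMT - 5 / 4)) * I0 =
      ∫ x in (-(1 / 2) : ℝ)..(1 / 2), (ph x - (2 * Real.pi * u) ^ 2 / 2 * (ph x * x ^ 2)) := by
    rw [intervalIntegral.integral_sub (Continuous.intervalIntegrable (by fun_prop) _ _)
      (Continuous.intervalIntegrable (by fun_prop) _ _), intervalIntegral.integral_const_mul, int_ph, var_ph]
    ring
  rw [e]
  refine intervalIntegral.integral_mono_on (by norm_num) (Continuous.intervalIntegrable (by fun_prop) _ _)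
    (Continuous.intervalIntegrable (by fun_prop) _ _) fun x hx => ?_
  have h1 := (ph_pos (box_abs hx)).le
  have h2 := Real.one_sub_sq_div_two_le_cos (x := 2 * Real.pi * x * u)
  have h3 : ph x * (1 - (2 * Real.pi * x * u) ^ 2 / 2) ≤ ph x * Real.cos (2 * Real.pi * x * u) :=
    mul_le_mul_of_nonneg_left h2 h1
  refine le_trans (le_of_eq ?_) h3
  ring

/-- the transform of a close weight, at distance at most `2β` -/
lemma Gp_near2 {p : ℝ → ℝ} {ε β : ℝ} (hcl : ∀ u, |Gp p u - Gam u| ≤ ε) (u : ℝ) (hu : |u| ≤ 2 * β) :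
    1 - (34 / 5 * β ^ 2 + ε) ≤ Gp p u := by
  have h1 := Gam_near u
  have h2 := (abs_le.1 (hcl u)).1
  have h3 := CMT_le2
  have h4 : u ^ 2 ≤ (2 * β) ^ 2 := by
    rw [← sq_abs]
    exact pow_le_pow_left₀ (abs_nonneg _) hu 2
  have hpi := Real.pi_pos
  have h5 : Real.pi ^ 2 ≤ 987 / 100 := by
    have := Real.pi_lt_d4
    nlinarith
  have h6 : (2 * Real.pi * u) ^ 2 / 2 * (CMT - 5 / 4) ≤ (2 * Real.pi * u) ^ 2 / 2 * (17 / 200) :=
    mul_le_mul_of_nonneg_left (by linarith) (by positivity)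
  have h7 : (2 * Real.pi * u) ^ 2 ≤ 4 * (987 / 100) * (2 * β) ^ 2 := by
    have : (2 * Real.pi * u) ^ 2 = 4 * Real.pi ^ 2 * u ^ 2 := by ring
    rw [this]
    exact mul_le_mul (by linarith) h4 (sq_nonneg _) (by norm_num)
  nlinarith [sq_nonneg β]

/-- from the count to the proportion -/
lemma arith2 {x d S a N M e β : ℝ} (hx : 133 / 200 ≤ x) (hx1 : x ≤ 1) (hd0 : 0 < d) (hd1 : d ≤ 1 / 100) (he : e = d / 200)
    (hS : 20 ≤ S) (hβ0 : 0 ≤ β) (hβ : β ≤ 1 / 20) (hN : 0 ≤ N) (ha : 0 ≤ a) (hM1 : (1 - e) * S ≤ M) (hM2 : M ≤ (1 + e) * S)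
    (hNa : N + a ≤ M)
    (h : 2 * M - a - 2 * (34 / 5 * β ^ 2 + e) * N + d * (a - 2 - 2 * S / 10) - 2 * e * a ≤ S * (2 - x + 2 * e)) :
    (x + d / 10 - 5 * β ^ 2) * S ≤ a := by
  obtain ⟨t, ht⟩ : ∃ t, t = β ^ 2 := ⟨_, rfl⟩
  rw [← ht] at h ⊢
  have ht0 : 0 ≤ t := by rw [ht]; positivity
  have ht1 : t ≤ 1 / 400 := by rw [ht]; nlinarith
  by_contra hlt
  push Not at hlt
  subst he
  obtain ⟨E, hE⟩ : ∃ E, E = 34 / 5 * t + d / 200 := ⟨_, rfl⟩
  rw [← hE] at h
  have hE0 : 0 ≤ E := by rw [hE]; positivity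
  have hE1 : E ≤ 7 / 400 := by rw [hE]; linarith
  have hN2 : N ≤ (1 + d / 200) * S - a := by linarith
  have h1 : 2 * E * N ≤ 2 * E * ((1 + d / 200) * S - a) := mul_le_mul_of_nonneg_left hN2 (by positivity)
  have h2 : d * 20 ≤ d * S := mul_le_mul_of_nonneg_left hS hd0.le
  -- lower bound for the coefficient times `a`
  have h3 : (x - 2 * E - 2 * E * (d / 200) - 33 / 100 * d) * S ≤ a * (1 - 2 * E - d + d / 100) := by
    nlinarith
  have h4 : 0 < 1 - 2 * E - d + d / 100 := by linarith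
  have h5 : a * (1 - 2 * E - d + d / 100) < (x + d / 10 - 5 * t) * S * (1 - 2 * E - d + d / 100) :=
    mul_lt_mul_of_pos_right hlt h4
  have h6 : (x + d / 10 - 5 * t) * (1 - 2 * E - d + d / 100) ≤ x - 2 * E - 2 * E * (d / 200) - 33 / 100 * d := by
    have g1 : 2 * E * (1 - x) ≤ 2 * E * (67 / 200) := mul_le_mul_of_nonneg_left (by linarith) (by positivity)
    have g2 : d * (133 / 200) ≤ d * x := mul_le_mul_of_nonneg_left hx hd0.le
    have g3 : 0 ≤ E * d := by positivity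
    have g4 : t * E ≤ t * (7 / 400) := mul_le_mul_of_nonneg_left hE1 ht0
    have g5 : t * d ≤ t * (1 / 100) := mul_le_mul_of_nonneg_left hd1 ht0
    have g6 : E * d ≤ (7 / 400) * d := mul_le_mul_of_nonneg_right hE1 hd0.le
    have g7 : 0 ≤ d * d := by positivity
    have g8 : 0 ≤ t * E := by positivity
    have g9 : 0 ≤ t * d := by positivity
    have g10 : d * E = E * d := by ring
    have e1 : (x + d / 10 - 5 * t) * (1 - 2 * E - d + d / 100) = x - 2 * E * x - 99 / 100 * (d * x) + d / 10 - d * E / 5 -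
        99 / 1000 * (d * d) - 5 * t + 10 * (t * E) + 99 / 20 * (t * d) := by ring
    rw [e1]
    have e2 : 2 * E * x = 2 * E - 2 * E * (1 - x) := by ring
    rw [e2]
    have e3 : E = 34 / 5 * t + d / 200 := hE
    nlinarith
  have h7 : (x + d / 10 - 5 * t) * S * (1 - 2 * E - d + d / 100) ≤ (x - 2 * E - 2 * E * (d / 200) - 33 / 100 * d) * S := by
    calc (x + d / 10 - 5 * t) * S * (1 - 2 * E - d + d / 100) = ((x + d / 10 - 5 * t) * (1 - 2 * E - d + d / 100)) * S := by ring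
      _ ≤ _ := mul_le_mul_of_nonneg_right h6 (by linarith)
  linarith

end Pool.Agent.Helper66.RT
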