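import Pool.Agent.Helper49.RT.Fin3
import Pool.Agent.Helper66.RT.Unif

/-!
# RT project: the limit, uniformly in the size of the box
-/

set_option autoImplicit false

open Finset Filter Topology MeasureTheory

namespace Pool.Agent.Helper66.RT

open Pool.Agent.Helper57.LH Pool.Agent.Helper57.PC Pool.Agent.Helper57.Zeta
open Pool.Agent.Helper57.FL (ff)
open Pool.Agent.Helper6.HM (lev one_le_mult Sc mem_Sc lev_inj)
open Pool.Agent.Helper99.HZ (hh)
open Pool.Agent.Helper6.RT (zeros3)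
open Pool.Agent.Helper49.RT

/-- the count for one height, the loss only over the zeros which are not isolated -/
theorem count4 {T β τ d : ℝ} (hT : 1 < T) {p : ℝ → ℝ} {b : ℝ} (hp : Wt p b) (hβ : 2 * β ≤ 1 / 10) (_hβ0 : 0 ≤ β)
    (hτ : 0 ≤ τ) (hf : ∀ u, |u| ≤ 2 * β → 1 - τ / 2 ≤ Gp p u) (hd0 : 0 ≤ d) (hd1 : d ≤ 1)
    (hd : ∀ u v : ℝ, 0 ≤ u → u ≤ 10 → 0 ≤ v → v ≤ 10 →
      d ≤ Pool.Agent.Helper6.RT.eta (Gp p u) + Pool.Agent.Helper6.RT.eta (Gp p v) + Pool.Agent.Helper6.RT.eta (Gp p (u + v))) :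
    ((Iso T β).card : ℝ) ≤ NT T ∧
    2 * NT T - (Iso T β).card * (1 - d) - τ * (NT T - (Iso T β).card) - d * (2 + 2 * SN T / 10) ≤
      SN T * ∫ u, hh p u * ff T u := by
  classical
  have hS0 : 0 < SN T := SN_pos hT
  have hlog : 0 < Real.log T := Real.log_pos hT
  have hpi := Real.pi_pos
  obtain ⟨A, W, I, h0, hAW, hAI, hWI, hA, hW, hI⟩ := split (Sc T) (Nb T β) (Rb T β)
    (fun a b h => ⟨h.1.symm, by rw [abs_sub_comm]; exact h.2⟩)
  have sA : A ⊆ Sc T := by rw [← h0]; exact (subset_union_left).trans subset_union_left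
  have sW : W ⊆ Sc T := by rw [← h0]; exact (subset_union_right).trans subset_union_left
  have sI : I ⊆ Sc T := by rw [← h0]; exact subset_union_right
  have hinj : ∀ X ⊆ Sc T, Set.InjOn (lev T) (X : Set ℂ) := fun X hX ρ hρ σ hσ h => lev_inj hT ρ (hX hρ) σ (hX hσ) h
  have hdis : Disjoint (W.image (lev T)) (I.image (lev T)) := by
    rw [disjoint_left]
    intro u h1 h2
    obtain ⟨ρ, hρ, rfl⟩ := mem_image.1 h1
    obtain ⟨σ, hσ, h3⟩ := mem_image.1 h2
    have := lev_inj hT σ (sI hσ) ρ (sW hρ) h3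
    exact disjoint_left.1 hWI hρ (this ▸ hσ)
  obtain ⟨c, c1, c2, c3, c4⟩ := combine (W.image (lev T)) (I.image (lev T)) hdis (f := Gp p) (β := β) (τ := τ) (S := SN T)
    (R := 10) (d := d) hτ (Gp_even p) hf
    (by
      intro u hu
      obtain ⟨ρ, hρ, rfl⟩ := mem_image.1 hu
      obtain ⟨σ, hσ, h1, h2⟩ := hW ρ hρ
      exact ⟨lev T σ, mem_image_of_mem _ hσ, fun h => h1 (lev_inj hT σ (sW hσ) ρ (sW hρ) h), h2⟩)
    hS0.le (by norm_num) hd0
    (by
      intro u hu
      obtain ⟨ρ, hρ, rfl⟩ := mem_image.1 hu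
      have h1 := (mem_Zf.1 (mem_Sc.1 (sI hρ)).1).2
      unfold lev SN
      constructor
      · have := h1.1
        positivity
      · gcongr
        exact h1.2) hd
  have hQ : (W ∪ I).image (lev T) = W.image (lev T) ∪ I.image (lev T) := image_union _ _
  have sQ : W ∪ I ⊆ Sc T := union_subset sW sI
  have hsum : ∀ f : ℝ → ℝ, ∑ u ∈ W.image (lev T) ∪ I.image (lev T), f u = ∑ ρ ∈ W ∪ I, f (lev T ρ) := by
    intro f
    rw [← hQ]
    exact sum_image (hinj _ sQ)
  have hz := zeros3 hT hp (W ∪ I) A (fun ρ hρ => sQ hρ)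
    (fun ρ hρ => ⟨sA hρ, by
      rw [mem_union]
      rintro (h | h)
      · exact disjoint_left.1 hAW hρ h
      · exact disjoint_left.1 hAI hρ h⟩)
    (fun ρ hρ => by
      rw [← h0, mem_union, mem_union] at hρ
      rw [mem_union]
      tauto)
    (fun ρ hρ => by
      rcases hA ρ hρ with h | ⟨τ', hτ', h1, h2⟩
      · obtain ⟨σ, h3, h4, h5, h6⟩ := h
        exact ⟨σ, h3, h4, by linarith, h6⟩
      · obtain ⟨σ, h3, h4, h5, h6⟩ := h2
        refine ⟨σ, h3, h4, ?_, h6⟩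
        have h7 := abs_sub_le (lev T ρ) (lev T τ') (lev T σ)
        linarith [h1.2])
    c1 c2
    (fun ρ hρ => by
      have h1 := c3 (lev T ρ) (by rw [← hQ]; exact mem_image_of_mem _ hρ)
      rwa [hsum] at h1)
  rw [hsum] at c4
  simp only [hsum] at c4
  rw [card_image_of_injOn (hinj _ sW), card_image_of_injOn (hinj _ sI)] at c4
  have hcard : ((W ∪ I).card : ℝ) = W.card + I.card := by exact_mod_cast card_union_of_disjoint hWI
  rw [hcard] at hz
  have hWIso : Disjoint W (Iso T β) := by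
    rw [disjoint_left]
    intro ρ hρ h
    unfold Iso at h
    rw [mem_filter] at h
    obtain ⟨σ, hσ, h1, h2⟩ := hW ρ hρ
    exact h.2.2 σ (sW hσ) ⟨fun h3 => h1 (by rw [h3]), h2⟩
  have hWN : (W.card : ℝ) + (Iso T β).card ≤ NT T := by
    have h1 : W ∪ Iso T β ⊆ Zf T := by
      refine union_subset (fun ρ hρ => (mem_Sc.1 (sW hρ)).1) fun ρ hρ => ?_
      unfold Iso at hρ
      rw [mem_filter] at hρ
      exact (mem_Sc.1 hρ.1).1
    have h2 : ((W ∪ Iso T β).card : ℝ) = W.card + (Iso T β).card := by exact_mod_cast card_union_of_disjoint hWIso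
    rw [← h2]
    calc ((W ∪ Iso T β).card : ℝ) ≤ ∑ ρ ∈ W ∪ Iso T β, (mult ρ : ℝ) := card_le_NT h1
      _ ≤ NT T := sum_le_sum_of_subset_of_nonneg h1 fun _ _ _ => Nat.cast_nonneg _
  have hII : (I.card : ℝ) ≤ (Iso T β).card := by
    have h1 : I ⊆ Iso T β := by
      intro ρ hρ
      unfold Iso
      rw [mem_filter]
      exact ⟨sI hρ, hI ρ hρ⟩
    exact_mod_cast card_le_card h1
  have hW0 : (0 : ℝ) ≤ W.card := Nat.cast_nonneg _
  refine ⟨by linarith, ?_⟩
  have h1 : τ * W.card ≤ τ * (NT T - (Iso T β).card) := mul_le_mul_of_nonneg_left (by linarith) hτ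
  have h2 := mul_le_mul_of_nonneg_right hII (show 0 ≤ 1 - d by linarith)
  nlinarith

open Classical in
/-- **the limit, uniformly in `β`** -/
theorem final_unif : ∃ κ T₀ : ℝ, 2 - CMT < κ ∧ ∀ β : ℝ, 0 ≤ β → β ≤ 1 / 20 → ∀ T : ℝ, T₀ ≤ T →
    (κ - 5 * β ^ 2) * SN T ≤ ((Iso T β \ Ed T).card : ℝ) := by
  obtain ⟨d₀, hd₀, hd₀'⟩ := gain (R := 10) (by norm_num)
  obtain ⟨d, hd⟩ : ∃ d, d = min (d₀ / 2) (1 / 100) := ⟨_, rfl⟩
  have hd0 : 0 < d := by rw [hd]; positivity
  have hd1 : d ≤ 1 / 100 := by rw [hd]; exact min_le_right _ _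
  have hdd : d ≤ d₀ / 2 := by rw [hd]; exact min_le_left _ _
  obtain ⟨e, he⟩ : ∃ e, e = d / 200 := ⟨_, rfl⟩
  have he0 : 0 < e := by rw [he]; positivity
  have he1 : e ≤ 1 := by rw [he]; linarith
  obtain ⟨p, b, hp, hen, hcl⟩ := exists_weight he0
  obtain ⟨T₁, hT₁⟩ := NT_lower e he0
  obtain ⟨T₂, hT₂⟩ := NT_upper e he0
  obtain ⟨T₃, hT₃⟩ := Filter.eventually_atTop.1 (trace_up hp he0)
  obtain ⟨T₄, hT₄⟩ := Filter.eventually_atTop.1 (edge he0)
  refine ⟨2 - CMT + 9 / 100 * d, max (max T₁ T₂) (max T₃ (max T₄ 200)), by linarith, fun β hβ0 hβ T hT => ?_⟩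
  have g1 : T₁ ≤ T := ((le_max_left _ _).trans (le_max_left _ _)).trans hT
  have g2 : T₂ ≤ T := ((le_max_right _ _).trans (le_max_left _ _)).trans hT
  have g3 : T₃ ≤ T := ((le_max_left _ _).trans (le_max_right _ _)).trans hT
  have g4 : T₄ ≤ T := ((le_max_left _ _).trans ((le_max_right _ _).trans (le_max_right _ _))).trans hT
  have g5 : 200 ≤ T := ((le_max_right _ _).trans ((le_max_right _ _).trans (le_max_right _ _))).trans hT
  have hT1 : 1 < T := by linarith
  have hpi := Real.pi_pos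
  have hpi4 := Real.pi_lt_four
  have hlog : 1 ≤ Real.log T := by
    rw [Real.le_log_iff_exp_le (by linarith)]
    have := Real.exp_one_lt_d9
    linarith
  have hSd : SN T = T * Real.log T / (2 * Real.pi) := rfl
  have hS : 20 ≤ SN T := by
    rw [hSd, le_div_iff₀ (by positivity)]
    nlinarith
  obtain ⟨hc1, hc⟩ := count4 (T := T) (β := β) (τ := 2 * (34 / 5 * β ^ 2 + e)) (d := d) hT1 hp (by linarith) hβ0 (by positivity) (by
      intro u hu
      have := Gp_near2 hcl u hu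
      linarith) hd0.le (by linarith)
    (fun u v h1 h2 h3 h4 => by
      have q := hd₀' u v h1 h2 h3 h4
      have q1 := eta_lip (Gam u) (Gp p u)
      have q2 := eta_lip (Gam v) (Gp p v)
      have q3 := eta_lip (Gam (u + v)) (Gp p (u + v))
      have r1 := hcl u
      have r2 := hcl v
      have r3 := hcl (u + v)
      have s : ∀ g, Pool.Agent.Helper66.RT.eta g = Pool.Agent.Helper6.RT.eta g := fun g => rfl
      rw [s, s, s] at q
      linarith)
  have h1 := hT₁ T g1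
  have h2 := hT₂ T g2
  have h3 := hT₃ T g3
  have h4 := hT₄ T g4
  have hx : 133 / 200 ≤ 2 - CMT := by
    have := CMT_le2
    linarith
  have hx1 : 2 - CMT ≤ 1 := by
    have := CMT_ge
    linarith
  have h5 : SN T * ∫ u, hh p u * ff T u ≤ SN T * (CMT + e + e) :=
    mul_le_mul_of_nonneg_left (h3.trans (by linarith)) (by linarith)
  have h6 : ((Iso T β).card : ℝ) - (Ed T).card ≤ ((Iso T β \ Ed T).card : ℝ) := by
    have := le_card_sdiff (Ed T) (Iso T β)
    have h7 : (Iso T β).card ≤ (Iso T β \ Ed T).card + (Ed T).card := by omega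
    have h8 : ((Iso T β).card : ℝ) ≤ ((Iso T β \ Ed T).card : ℝ) + (Ed T).card := by exact_mod_cast h7
    linarith
  have ha : (0 : ℝ) ≤ (Iso T β).card := Nat.cast_nonneg _
  have h7 := arith2 (x := 2 - CMT) (d := d) (S := SN T) (a := (Iso T β).card) (N := NT T - (Iso T β).card) (M := NT T) (e := e)
    (β := β) hx hx1 hd0 hd1 he hS hβ0 hβ (by linarith) ha h1 (by
      refine h2.trans (le_of_eq ?_)
      rw [← hSd]
      ) (by linarith) (by
      have e2 : SN T * (2 - (2 - CMT) + 2 * e) = SN T * (CMT + e + e) := by ring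
      rw [e2]
      have e3 : 0 ≤ 2 * e * (Iso T β).card := by positivity
      nlinarith)
  have h8 : (Ed T).card ≤ d / 200 * SN T := by rw [← he]; exact h4
  nlinarith

/-- **the box version**: the other zeros range over all zeros of zeta in the strip -/
theorem final5 : ∃ κ T₀ : ℝ, 2 - CMT < κ ∧ ∀ β : ℝ, 0 ≤ β → β ≤ 1 / 20 → ∀ T : ℝ, T₀ ≤ T →
    (κ - 5 * β ^ 2) * SN T ≤ ((Is3 T β).card : ℝ) := by
  obtain ⟨κ, T₀, h1, h2⟩ := final_unif
  refine ⟨κ, max T₀ 3, h1, fun β hβ0 hβ T hT => ?_⟩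
  have hlog : 1 ≤ Real.log T := by
    rw [Real.le_log_iff_exp_le (by linarith [le_max_right T₀ 3])]
    have := Real.exp_one_lt_d9
    linarith [le_max_right T₀ 3]
  refine (h2 β hβ0 hβ T ((le_max_left _ _).trans hT)).trans ?_
  exact_mod_cast card_le_card (sub_Is3 hlog hβ)

end Pool.Agent.Helper66.RT
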