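import Pool.Agent.Helper49.RT.Fin6
import Pool.Agent.Helper66.RT.Lim

/-!
# RT project: isolation from all zeros of zeta

Every off-line ordinate belongs to two zeros and can be close to at most one of the simple critical zeros which are `2 b` apart.
-/

set_option autoImplicit false

open Finset Filter Topology MeasureTheory

namespace Pool.Agent.Helper66.RT

open Pool.Agent.Helper57.LH Pool.Agent.Helper57.PC Pool.Agent.Helper57.Zeta
open Pool.Agent.Helper6.HM (lev one_le_mult Sc mem_Sc lev_inj st_mem)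
open Pool.Agent.Helper49.RT

/-- the simple critical zeros `ρ` up to `T` such that every other zero `σ` of zeta has normalised distance of ordinates `> b` -/
def AllSet (T b : ℝ) : Set ℂ := {ρ | ρ ∈ Zf T ∧ ρ.re = 1 / 2 ∧ mult ρ = 1 ∧
  ∀ σ : ℂ, IsNontrivialZero σ → σ ≠ ρ → b < |lev T ρ - lev T σ|}

lemma lev_mirror (T : ℝ) (σ : ℂ) : lev T (1 - starRingEnd ℂ σ) = lev T σ := by
  unfold lev
  simp

lemma all_count {T b : ℝ} (hb0 : 0 ≤ b) (hb : b ≤ 1 / 4) (hlog : 4 ≤ Real.log T) :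
    3 / 2 * ((IsoSet T (2 * b) 0).ncard : ℝ) - 1 / 2 * NT T - (Ed T).card ≤ ((AllSet T b).ncard : ℝ) := by
  classical
  obtain ⟨I, hI⟩ : ∃ I : Finset ℂ, I = (Zf T).filter (fun ρ => ρ ∈ IsoSet T (2 * b) 0) := ⟨_, rfl⟩
  have hIs : (I : Set ℂ) = IsoSet T (2 * b) 0 := by
    ext ρ
    rw [hI]
    simp only [coe_filter, Set.mem_ofPred_eq]
    exact ⟨fun h => h.2, fun h => ⟨IsoSet_sub _ _ _ h, h⟩⟩
  obtain ⟨J, hJ⟩ : ∃ J : Finset ℂ, J = (Zf T).filter (fun ρ => ρ ∈ AllSet T b) := ⟨_, rfl⟩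
  have hJs : (J : Set ℂ) = AllSet T b := by
    ext ρ
    rw [hJ]
    simp only [coe_filter, Set.mem_ofPred_eq]
    exact ⟨fun h => h.2, fun h => ⟨h.1, h⟩⟩
  rw [← hIs, ← hJs, Set.ncard_coe_finset, Set.ncard_coe_finset]
  obtain ⟨P, hP⟩ : ∃ P : Finset ℂ, P = (I \ J) \ Ed T := ⟨_, rfl⟩
  obtain ⟨R, hR⟩ : ∃ R : Finset ℂ, R = (Zf T).filter (fun σ => 1 / 2 < σ.re) := ⟨_, rfl⟩
  obtain ⟨L, hL⟩ : ∃ L : Finset ℂ, L = (Zf T).filter (fun σ => σ.re < 1 / 2) := ⟨_, rfl⟩
  have hmI : ∀ ρ, ρ ∈ I ↔ ρ ∈ IsoSet T (2 * b) 0 := fun ρ => by rw [← hIs]; exact Finset.mem_coe.symm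
  have hmJ : ∀ ρ, ρ ∈ J ↔ ρ ∈ AllSet T b := fun ρ => by rw [← hJs]; exact Finset.mem_coe.symm
  have hlog0 : 0 < Real.log T := by linarith
  -- the close off-line zero
  have key : ∀ ρ ∈ P, ∃ σ ∈ R, |lev T ρ - lev T σ| ≤ b := by
    intro ρ hρ
    rw [hP, Finset.mem_sdiff, Finset.mem_sdiff] at hρ
    obtain ⟨⟨h1, h2⟩, h3⟩ := hρ
    rw [hmI] at h1
    rw [hmJ] at h2
    obtain ⟨h4, h5, h6, h7⟩ := h1
    have h8 : ∃ σ : ℂ, IsNontrivialZero σ ∧ σ ≠ ρ ∧ |lev T ρ - lev T σ| ≤ b := by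
      by_contra hno
      apply h2
      refine ⟨h4, h5, h6, fun σ h9 h10 => ?_⟩
      by_contra h11
      push Not at h11
      exact hno ⟨σ, h9, h10, h11⟩
    obtain ⟨σ, h9, h10, h11⟩ := h8
    have h12 : σ.re ≠ 1 / 2 := by
      intro h
      have := h7 σ h9 h10 (by rw [h]; simp)
      linarith
    have h13 : 1 < ρ.im ∧ ρ.im ≤ T - 1 := by
      by_contra h
      apply h3
      unfold Ed
      rw [mem_filter]
      exact ⟨h4, h⟩
    have h14 : σ ∈ Zf T := in_range (by linarith) (by linarith : b ≤ 1 / 2) h13 h9 h11 hlog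
    rcases lt_or_gt_of_ne h12 with h | h
    · refine ⟨1 - starRingEnd ℂ σ, ?_, ?_⟩
      · rw [hR, mem_filter]
        refine ⟨(st_mem h14).1, ?_⟩
        simp only [Complex.sub_re, Complex.one_re, Complex.conj_re]
        linarith
      · rw [lev_mirror]
        exact h11
    · refine ⟨σ, ?_, h11⟩
      rw [hR, mem_filter]
      exact ⟨h14, h⟩
  choose! f hf1 hf2 using key
  have hinj : Set.InjOn f (P : Set ℂ) := by
    intro ρ hρ ρ' hρ' h
    rw [Finset.mem_coe] at hρ hρ'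
    by_contra hne
    have h1 := hf2 ρ hρ
    have h2 := hf2 ρ' hρ'
    rw [← h] at h2
    have h3 : ρ ∈ IsoSet T (2 * b) 0 := by
      rw [hP, Finset.mem_sdiff, Finset.mem_sdiff] at hρ
      exact (hmI ρ).1 hρ.1.1
    have h4 : ρ' ∈ IsoSet T (2 * b) 0 := by
      rw [hP, Finset.mem_sdiff, Finset.mem_sdiff] at hρ'
      exact (hmI ρ').1 hρ'.1.1
    obtain ⟨-, h5, -, h6⟩ := h3
    obtain ⟨h7, h8, -, -⟩ := h4
    have h9 := h6 ρ' (mem_Zf.1 h7).1 (Ne.symm hne) (by rw [h8]; simp)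
    have h10 := abs_sub_le (lev T ρ) (lev T (f ρ)) (lev T ρ')
    have h11 := abs_sub_comm (lev T (f ρ)) (lev T ρ')
    linarith
  have c1 : P.card ≤ R.card := by
    rw [← Finset.card_image_of_injOn hinj]
    refine card_le_card ?_
    intro σ hσ
    obtain ⟨ρ, hρ, rfl⟩ := mem_image.1 hσ
    exact hf1 ρ hρ
  have c2 : R.card ≤ L.card := by
    have hi : Set.InjOn (fun σ : ℂ => 1 - starRingEnd ℂ σ) (R : Set ℂ) := by
      intro x _ y _ h
      have h1 : starRingEnd ℂ x = starRingEnd ℂ y := by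
        have h' : (1 : ℂ) - starRingEnd ℂ x = 1 - starRingEnd ℂ y := h
        linear_combination -h'
      exact (starRingEnd ℂ).injective h1
    rw [← Finset.card_image_of_injOn hi]
    refine card_le_card ?_
    intro σ hσ
    obtain ⟨ρ, hρ, rfl⟩ := mem_image.1 hσ
    rw [hR, mem_filter] at hρ
    rw [hL, mem_filter]
    refine ⟨(st_mem hρ.1).1, ?_⟩
    simp only [Complex.sub_re, Complex.one_re, Complex.conj_re]
    linarith [hρ.2]
  have d1 : Disjoint I R := by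
    rw [disjoint_left]
    intro ρ h1 h2
    rw [hmI] at h1
    rw [hR, mem_filter] at h2
    have := h1.2.1
    linarith [h2.2]
  have d2 : Disjoint (I ∪ R) L := by
    rw [disjoint_left]
    intro ρ h1 h2
    rw [hL, mem_filter] at h2
    rcases mem_union.1 h1 with h | h
    · rw [hmI] at h
      have := h.2.1
      linarith [h2.2]
    · rw [hR, mem_filter] at h
      linarith [h2.2, h.2]
  have c3 : I.card + R.card + L.card ≤ (Zf T).card := by
    rw [← card_union_of_disjoint d1, ← card_union_of_disjoint d2]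
    refine card_le_card ?_
    refine union_subset (union_subset ?_ ?_) ?_
    · rw [hI]; exact filter_subset _ _
    · rw [hR]; exact filter_subset _ _
    · rw [hL]; exact filter_subset _ _
  have c4 : ((Zf T).card : ℝ) ≤ NT T := card_le_NT (subset_refl _)
  have c5 : I.card ≤ J.card + P.card + (Ed T).card := by
    have h1 : I ⊆ (J ∪ P) ∪ Ed T := by
      intro ρ hρ
      rw [mem_union, mem_union, hP, Finset.mem_sdiff, Finset.mem_sdiff]
      tauto
    exact (card_le_card h1).trans ((card_union_le _ _).trans (Nat.add_le_add_right (card_union_le _ _) _))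
  have c3' : (I.card : ℝ) + R.card + L.card ≤ (Zf T).card := by exact_mod_cast c3
  have c5' : (I.card : ℝ) ≤ J.card + P.card + (Ed T).card := by exact_mod_cast c5
  have c1' : (P.card : ℝ) ≤ R.card := by exact_mod_cast c1
  have c2' : (R.card : ℝ) ≤ L.card := by exact_mod_cast c2
  linarith

/-- **the isolation function, with the isolation from all zeros** -/
theorem final7 : ∃ δ T₀ : ℝ, 0 < δ ∧ ∀ T : ℝ, T₀ ≤ T →
    (∀ β : ℝ, 0 ≤ β → β ≤ 1 / 2 → (1 - (CMT - 1) / Gam β ^ 2 + δ) * SN T ≤ ((IsoSet T β 0).ncard : ℝ)) ∧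
    (∀ β : ℝ, 0 ≤ β → β ≤ 1 / 20 → (1 - (CMT - 1) / Gam β ^ 2 + δ) * SN T ≤ ((IsoSet T β 5).ncard : ℝ)) ∧
    (∀ β : ℝ, 0 ≤ β → β ≤ 1 / 4 → (1 - 3 / 2 * ((CMT - 1) / Gam (2 * β) ^ 2) + δ) * SN T ≤ ((AllSet T β).ncard : ℝ)) := by
  obtain ⟨δ, T₁, hδ, h1⟩ := final6
  obtain ⟨T₂, h2⟩ := NT_upper (δ / 4) (by positivity)
  obtain ⟨T₃, h3⟩ := Filter.eventually_atTop.1 (edge (ε := δ / 4) (by positivity))
  refine ⟨δ, max (max T₁ T₂) (max T₃ (max (Real.exp 4) 80)), hδ, fun T hT => ?_⟩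
  have g1 : T₁ ≤ T := ((le_max_left _ _).trans (le_max_left _ _)).trans hT
  have g2 : T₂ ≤ T := ((le_max_right _ _).trans (le_max_left _ _)).trans hT
  have g3 : T₃ ≤ T := ((le_max_left _ _).trans (le_max_right _ _)).trans hT
  have g4 : Real.exp 4 ≤ T := ((le_max_left _ _).trans ((le_max_right _ _).trans (le_max_right _ _))).trans hT
  have hT0 : 0 < T := lt_of_lt_of_le (Real.exp_pos 4) g4
  have hlog : 4 ≤ Real.log T := by rwa [Real.le_log_iff_exp_le hT0]
  obtain ⟨k1, k2⟩ := h1 T g1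
  refine ⟨k1, k2, fun b hb0 hb => ?_⟩
  have hSN : 0 < SN T := by
    unfold SN
    have := Real.pi_pos
    positivity
  have m1 := k1 (2 * b) (by linarith) (by linarith)
  have m2 := h2 T g2
  have m3 := h3 T g3
  have m4 := all_count hb0 hb hlog
  have m5 : NT T ≤ (1 + δ / 4) * SN T := m2
  have e1 : (1 - 3 / 2 * ((CMT - 1) / Gam (2 * b) ^ 2) + δ) * SN T =
      3 / 2 * ((1 - (CMT - 1) / Gam (2 * b) ^ 2 + δ) * SN T) - 1 / 2 * ((1 + δ / 4) * SN T) - δ / 4 * SN T - δ / 8 * SN T := by ring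
  rw [e1]
  have e2 : 0 ≤ δ / 8 * SN T := by positivity
  linarith

end Pool.Agent.Helper66.RT
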