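import Pool.Agent.Helper66.RT.Closed

/-!
# RT project: the numerical inequality of a cell, generic part
-/

set_option autoImplicit false

open MeasureTheory Set

namespace Pool.Agent.Helper66.RT

lemma FF_zero (b : ℝ) : FF 0 b / I0 = Gam b := by
  unfold FF Gam
  congr 1
  refine intervalIntegral.integral_congr fun x _ => ?_
  rw [mul_zero, Real.cosh_zero, one_mul]
  congr 2
  ring

/-- the inequality of the cell `[0,b] × [0,H]` -/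
def Cell (b H a m : ℝ) : Prop :=
  (1 + m) * ((FF 0 b / I0) ^ 2 + (1 - a) ^ 2) * (AA2 H / I0) ≤ (4 - 2 * a) * (FF H b / I0) ^ 2

lemma AA2_nonneg (H : ℝ) : 0 ≤ AA2 H := by
  unfold AA2
  refine intervalIntegral.integral_nonneg (by norm_num) fun x hx => ?_
  exact mul_nonneg (ph_pos' hx).le (mul_nonneg (Real.cosh_pos _).le (Real.cosh_pos _).le)

lemma sinh_half {H E : ℝ} (hE : E = Real.exp (H / 2)) : Real.sinh (H / 2) = (E - 1 / E) / 2 := by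
  rw [Real.sinh_eq, Real.exp_neg, hE, one_div]

lemma cosh_half {H E : ℝ} (hE : E = Real.exp (H / 2)) : Real.cosh (H / 2) = (E + 1 / E) / 2 := by
  rw [Real.cosh_eq, Real.exp_neg, hE, one_div]

lemma exp_full {H E : ℝ} (hE : E = Real.exp (H / 2)) : Real.exp H = E ^ 2 := by
  rw [hE, ← Real.exp_nat_mul]
  congr 1
  push_cast
  ring

/-- the upper bound of the square mean -/
lemma G_up {H qu Eu : ℝ} (hH : 1 ≤ H) (h8 : 1 / 2 ≤ CMT - 1 / 2) (h10 : CMT - 1 / 2 ≤ qu) (h13 : Real.exp (H / 2) ≤ Eu) :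
    AA2 H / I0 ≤ 1 / 2 + (2 * H * qu + 1) * Eu ^ 2 / (4 * (2 * H ^ 2 + 1)) := by
  obtain ⟨q, hq⟩ : ∃ q, q = CMT - 1 / 2 := ⟨_, rfl⟩
  obtain ⟨E, hE⟩ : ∃ E, E = Real.exp (H / 2) := ⟨_, rfl⟩
  obtain ⟨G, hG⟩ : ∃ G, G = AA2 H / I0 := ⟨_, rfl⟩
  have k2 := AA2_closed H
  have e3 := exp_full hE
  have e4 : Real.sinh H = (E ^ 2 - 1 / E ^ 2) / 2 := by
    rw [Real.sinh_eq, Real.exp_neg, e3, one_div]
  have e5 : Real.cosh H = (E ^ 2 + 1 / E ^ 2) / 2 := by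
    rw [Real.cosh_eq, Real.exp_neg, e3, one_div]
  rw [← hG, ← hq, e4, e5] at k2
  rw [← hG]
  rw [← hq] at h8 h10
  rw [← hE] at h13
  have hE0 : 0 < E := by rw [hE]; exact Real.exp_pos _
  clear hE hG hq e3 e4 e5
  have g2 : 0 ≤ 1 / E ^ 2 := by positivity
  have g3 : 0 ≤ 2 * H * q - 1 := by
    have : 1 * (1 / 2) ≤ H * q := mul_le_mul hH h8 (by norm_num) (by linarith)
    linarith
  have g4 : E ^ 2 ≤ Eu ^ 2 := pow_le_pow_left₀ hE0.le h13 2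
  have g5 : 2 * H * q + 1 ≤ 2 * H * qu + 1 := by
    have : H * q ≤ H * qu := mul_le_mul_of_nonneg_left h10 (by linarith)
    linarith
  have g6 : (2 * H * q + 1) * E ^ 2 ≤ (2 * H * qu + 1) * Eu ^ 2 :=
    mul_le_mul g5 g4 (by positivity) (by linarith)
  have g7 := mul_nonneg g3 g2
  have g8 : (2 * H ^ 2 + 1) * (2 * G - 1) ≤ (2 * H * qu + 1) * Eu ^ 2 / 2 := by
    rw [k2]
    linarith
  rw [← sub_le_iff_le_add', le_div_iff₀ (by positivity)]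
  linarith

/-- the lower bound of the transform -/
lemma F_lo {b H θl θu cl sl ql El Eu : ℝ} (hH : 1 ≤ H)
    (h1 : 0 ≤ θl) (h2 : θl ≤ Real.pi * b) (h3 : Real.pi * b ≤ θu) (h4 : 0 ≤ cl) (h5 : cl ≤ Real.cos (Real.pi * b))
    (h6 : 0 ≤ sl) (h7 : sl ≤ Real.sin (Real.pi * b)) (h8 : 0 ≤ ql) (h9 : ql ≤ CMT - 1 / 2)
    (h11 : 1 ≤ El) (h12 : El ≤ Real.exp (H / 2)) (h13 : Real.exp (H / 2) ≤ Eu)
    (h16 : 0 ≤ 2 * H ^ 2 + 4 - 8 * θu ^ 2) (h17 : 0 ≤ 4 * H ^ 2 - 8 + 16 * θl ^ 2) :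
    (El - 1 / El) / 2 * H * (2 * (H ^ 2 + 2 + 4 * θl ^ 2) * ql * cl + 8 * θl * sl) +
        (El + 1 / Eu) / 2 * (cl * (2 * H ^ 2 + 4 - 8 * θu ^ 2) + θl * ql * sl * (4 * H ^ 2 - 8 + 16 * θl ^ 2)) ≤
    ((H ^ 2 + 2 + 4 * (Real.pi * b) ^ 2) ^ 2 - 32 * (Real.pi * b) ^ 2) * (FF H b / I0) := by
  obtain ⟨θ, hθ⟩ : ∃ θ, θ = Real.pi * b := ⟨_, rfl⟩
  obtain ⟨q, hq⟩ : ∃ q, q = CMT - 1 / 2 := ⟨_, rfl⟩
  obtain ⟨E, hE⟩ : ∃ E, E = Real.exp (H / 2) := ⟨_, rfl⟩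
  obtain ⟨c, hc⟩ : ∃ c, c = Real.cos θ := ⟨_, rfl⟩
  obtain ⟨s, hs⟩ : ∃ s, s = Real.sin θ := ⟨_, rfl⟩
  have k1 := FF_closed H b θ hθ
  rw [sinh_half hE, cosh_half hE] at k1
  rw [← hθ] at h2 h3 h5 h7 ⊢
  rw [← hc] at h5 k1
  rw [← hs] at h7 k1
  rw [← hq] at h9 k1
  rw [← hE] at h12 h13
  rw [k1]
  have hE0 : 0 < E := by linarith
  have hθ0 : 0 ≤ θ := h1.trans h2
  have hq0 : 0 ≤ q := by linarith
  have hc0 : 0 ≤ c := h4.trans h5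
  have hs0 : 0 ≤ s := h6.trans h7
  clear k1 hE hq hc hs hθ
  have hθ2 : θ ^ 2 ≤ θu ^ 2 := pow_le_pow_left₀ hθ0 h3 2
  have hθ3 : θl ^ 2 ≤ θ ^ 2 := pow_le_pow_left₀ h1 h2 2
  have hEl0 : 0 < El := by linarith
  have hEu0 : 0 < Eu := by linarith
  have hS : (El - 1 / El) / 2 ≤ (E - 1 / E) / 2 := by
    have : 1 / E ≤ 1 / El := one_div_le_one_div_of_le hEl0 h12
    linarith
  have hS0 : 0 ≤ (El - 1 / El) / 2 := by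
    have : 1 / El ≤ 1 := by
      rw [div_le_one hEl0]
      exact h11
    linarith
  have hC : (El + 1 / Eu) / 2 ≤ (E + 1 / E) / 2 := by
    have : 1 / Eu ≤ 1 / E := one_div_le_one_div_of_le hE0 h13
    linarith
  have hC0 : 0 ≤ (El + 1 / Eu) / 2 := by positivity
  have g1 : 2 * (H ^ 2 + 2 + 4 * θl ^ 2) * ql * cl + 8 * θl * sl ≤ 2 * (H ^ 2 + 2 + 4 * θ ^ 2) * q * c + 8 * θ * s := by
    have g2 : H ^ 2 + 2 + 4 * θl ^ 2 ≤ H ^ 2 + 2 + 4 * θ ^ 2 := by linarith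
    gcongr
  have g2 : cl * (2 * H ^ 2 + 4 - 8 * θu ^ 2) + θl * ql * sl * (4 * H ^ 2 - 8 + 16 * θl ^ 2) ≤
      c * (2 * H ^ 2 + 4 - 8 * θ ^ 2) + θ * q * s * (4 * H ^ 2 - 8 + 16 * θ ^ 2) := by
    have g4 : 2 * H ^ 2 + 4 - 8 * θu ^ 2 ≤ 2 * H ^ 2 + 4 - 8 * θ ^ 2 := by linarith
    have g5 : 4 * H ^ 2 - 8 + 16 * θl ^ 2 ≤ 4 * H ^ 2 - 8 + 16 * θ ^ 2 := by linarith
    refine add_le_add (mul_le_mul h5 g4 h16 hc0) (mul_le_mul ?_ g5 h17 (by positivity))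
    gcongr
  have g3 : 0 ≤ 2 * (H ^ 2 + 2 + 4 * θl ^ 2) * ql * cl + 8 * θl * sl := by positivity
  have g4 : 0 ≤ cl * (2 * H ^ 2 + 4 - 8 * θu ^ 2) + θl * ql * sl * (4 * H ^ 2 - 8 + 16 * θl ^ 2) := by
    have g5 := mul_nonneg h4 h16
    have g6 := mul_nonneg (mul_nonneg (mul_nonneg h1 h8) h6) h17
    exact add_nonneg g5 g6
  have hH0 : 0 ≤ H := by linarith
  have g5 : (El - 1 / El) / 2 * H * (2 * (H ^ 2 + 2 + 4 * θl ^ 2) * ql * cl + 8 * θl * sl) ≤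
      (E - 1 / E) / 2 * H * (2 * (H ^ 2 + 2 + 4 * θ ^ 2) * q * c + 8 * θ * s) :=
    mul_le_mul (mul_le_mul_of_nonneg_right hS hH0) g1 g3 (mul_nonneg (hS0.trans hS) hH0)
  have g6 := mul_le_mul hC g2 g4 (hC0.trans hC)
  refine (add_le_add g5 g6).trans (le_of_eq ?_)
  ring

theorem cell_gen {b H a m θl θu cl sl ql qu El Eu gu : ℝ} (hH : 1 ≤ H) (ha : a ≤ 1) (hm : 0 ≤ m)
    (h1 : 0 ≤ θl) (h2 : θl ≤ Real.pi * b) (h3 : Real.pi * b ≤ θu) (h4 : 0 ≤ cl) (h5 : cl ≤ Real.cos (Real.pi * b))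
    (h6 : 0 ≤ sl) (h7 : sl ≤ Real.sin (Real.pi * b)) (h8 : 1 / 2 ≤ ql) (h9 : ql ≤ CMT - 1 / 2) (h10 : CMT - 1 / 2 ≤ qu)
    (h11 : 1 ≤ El) (h12 : El ≤ Real.exp (H / 2)) (h13 : Real.exp (H / 2) ≤ Eu) (h14 : 0 ≤ Gam b) (h15 : Gam b ≤ gu)
    (h16 : 0 ≤ 2 * H ^ 2 + 4 - 8 * θu ^ 2) (h17 : 0 ≤ 4 * H ^ 2 - 8 + 16 * θl ^ 2)
    (h19 : (1 + m) * (gu ^ 2 + (1 - a) ^ 2) * (1 / 2 + (2 * H * qu + 1) * Eu ^ 2 / (4 * (2 * H ^ 2 + 1))) *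
      ((H ^ 2 + 2 + 4 * θu ^ 2) ^ 2 - 32 * θl ^ 2) ^ 2 ≤
      (4 - 2 * a) * ((El - 1 / El) / 2 * H * (2 * (H ^ 2 + 2 + 4 * θl ^ 2) * ql * cl + 8 * θl * sl) +
        (El + 1 / Eu) / 2 * (cl * (2 * H ^ 2 + 4 - 8 * θu ^ 2) + θl * ql * sl * (4 * H ^ 2 - 8 + 16 * θl ^ 2))) ^ 2) :
    Cell b H a m := by
  have hGu := G_up hH (h8.trans h9) h10 h13
  have hFD := F_lo hH h1 h2 h3 h4 h5 h6 h7 (by linarith : 0 ≤ ql) h9 h11 h12 h13 h16 h17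
  obtain ⟨L, hL⟩ : ∃ L, L = (El - 1 / El) / 2 * H * (2 * (H ^ 2 + 2 + 4 * θl ^ 2) * ql * cl + 8 * θl * sl) +
        (El + 1 / Eu) / 2 * (cl * (2 * H ^ 2 + 4 - 8 * θu ^ 2) + θl * ql * sl * (4 * H ^ 2 - 8 + 16 * θl ^ 2)) := ⟨_, rfl⟩
  rw [← hL] at h19 hFD
  have hL0 : 0 ≤ L := by
    rw [hL]
    have g3 : 0 ≤ ql := by linarith
    have g4 := mul_nonneg h4 h16
    have g5 := mul_nonneg (mul_nonneg (mul_nonneg h1 g3) h6) h17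
    have g6 : 0 ≤ 2 * (H ^ 2 + 2 + 4 * θl ^ 2) * ql * cl + 8 * θl * sl := by positivity
    have hEl0 : 0 < El := by linarith
    have hEu0 : 0 < Eu := lt_of_lt_of_le (Real.exp_pos _) h13
    have hS0 : 0 ≤ (El - 1 / El) / 2 := by
      have : 1 / El ≤ 1 := by
        rw [div_le_one hEl0]
        exact h11
      linarith
    have hC0 : 0 ≤ (El + 1 / Eu) / 2 := by positivity
    exact add_nonneg (mul_nonneg (mul_nonneg hS0 (by linarith)) g6) (mul_nonneg hC0 (add_nonneg g4 g5))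
  obtain ⟨F, hF⟩ : ∃ F, F = FF H b / I0 := ⟨_, rfl⟩
  obtain ⟨G, hG⟩ : ∃ G, G = AA2 H / I0 := ⟨_, rfl⟩
  have hG0 : 0 ≤ G := by
    rw [hG]
    exact div_nonneg (AA2_nonneg H) I0_pos.le
  unfold Cell
  rw [FF_zero]
  rw [← hG] at hGu ⊢
  rw [← hF] at hFD ⊢
  obtain ⟨θ, hθ⟩ : ∃ θ, θ = Real.pi * b := ⟨_, rfl⟩
  rw [← hθ] at h2 h3 hFD
  obtain ⟨D, hD⟩ : ∃ D, D = (H ^ 2 + 2 + 4 * θ ^ 2) ^ 2 - 32 * θ ^ 2 := ⟨_, rfl⟩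
  rw [← hD] at hFD
  have hθ0 : 0 ≤ θ := h1.trans h2
  have hD0 : 0 < D := by
    have e : D = (H ^ 2 + 2 - 4 * θ ^ 2) ^ 2 + 16 * H ^ 2 * θ ^ 2 := by rw [hD]; ring
    rw [e]
    have hH0 : 0 < H := by linarith
    rcases eq_or_lt_of_le hθ0 with h | h
    · have e2 : (H ^ 2 + 2 - 4 * θ ^ 2) ^ 2 + 16 * H ^ 2 * θ ^ 2 = (H ^ 2 + 2) ^ 2 := by rw [← h]; ring
      rw [e2]
      positivity
    · positivity
  have hDu : D ≤ (H ^ 2 + 2 + 4 * θu ^ 2) ^ 2 - 32 * θl ^ 2 := by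
    rw [hD]
    have hθ2 : θ ^ 2 ≤ θu ^ 2 := pow_le_pow_left₀ hθ0 h3 2
    have hθ3 : θl ^ 2 ≤ θ ^ 2 := pow_le_pow_left₀ h1 h2 2
    have g1 : (H ^ 2 + 2 + 4 * θ ^ 2) ^ 2 ≤ (H ^ 2 + 2 + 4 * θu ^ 2) ^ 2 :=
      pow_le_pow_left₀ (by positivity) (by linarith) 2
    linarith
  have hpos : 0 ≤ 2 * H * qu + 1 := by
    have : 0 ≤ H * qu := mul_nonneg (by linarith) (by linarith)
    linarith
  have n1 : (1 + m) * (Gam b ^ 2 + (1 - a) ^ 2) * G ≤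
      (1 + m) * (gu ^ 2 + (1 - a) ^ 2) * (1 / 2 + (2 * H * qu + 1) * Eu ^ 2 / (4 * (2 * H ^ 2 + 1))) := by
    have : Gam b ^ 2 ≤ gu ^ 2 := pow_le_pow_left₀ h14 h15 2
    refine mul_le_mul (mul_le_mul_of_nonneg_left (by linarith) (by linarith)) hGu hG0 (by positivity)
  have n2 : (1 + m) * (Gam b ^ 2 + (1 - a) ^ 2) * G * D ^ 2 ≤ (4 - 2 * a) * L ^ 2 := by
    refine le_trans (mul_le_mul n1 (pow_le_pow_left₀ hD0.le hDu 2) (by positivity) ?_) h19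
    positivity
  have n3 : (4 - 2 * a) * L ^ 2 ≤ (4 - 2 * a) * F ^ 2 * D ^ 2 := by
    have : L ^ 2 ≤ (D * F) ^ 2 := pow_le_pow_left₀ hL0 hFD 2
    calc (4 - 2 * a) * L ^ 2 ≤ (4 - 2 * a) * (D * F) ^ 2 := mul_le_mul_of_nonneg_left this (by linarith)
      _ = _ := by ring
  exact le_of_mul_le_mul_right (n2.trans n3) (by positivity)

end Pool.Agent.Helper66.RT
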