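import Pool.Agent.Helper66.RT.Cell

/-!
# RT project: the five cells

`(b, H, a) = (1/6, 83/10, 3/5), (1/4, 37/5, 13/20), (1/3, 32/5, 7/10), (5/12, 27/5, 3/4), (1/2, 9/2, 4/5)`.
-/

set_option autoImplicit false

namespace Pool.Agent.Helper66.RT

open Pool.Agent.Helper65.RT (CMT_lo CMT_hi)

lemma exp_ge {x r : ℝ} {n k : ℕ} (hn : n ≠ 0) (_hr : 0 ≤ r) (hx : (n : ℝ) * x = k) (h : r ^ n ≤ 2.7182818283 ^ k) : r ≤ Real.exp x := by
  have h1 : Real.exp x ^ n = Real.exp 1 ^ k := by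
    rw [← Real.exp_nat_mul, ← Real.exp_nat_mul, hx, mul_one]
  have h2 : (2.7182818283 : ℝ) ^ k ≤ Real.exp 1 ^ k := pow_le_pow_left₀ (by norm_num) Real.exp_one_gt_d9.le k
  have h3 : r ^ n ≤ Real.exp x ^ n := by rw [h1]; exact h.trans h2
  exact le_of_pow_le_pow_left₀ hn (Real.exp_pos _).le h3

lemma exp_le' {x r : ℝ} {n k : ℕ} (hn : n ≠ 0) (hr : 0 ≤ r) (hx : (n : ℝ) * x = k) (h : 2.7182818286 ^ k ≤ r ^ n) : Real.exp x ≤ r := by
  have h1 : Real.exp x ^ n = Real.exp 1 ^ k := by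
    rw [← Real.exp_nat_mul, ← Real.exp_nat_mul, hx, mul_one]
  have h2 : Real.exp 1 ^ k ≤ (2.7182818286 : ℝ) ^ k := pow_le_pow_left₀ (Real.exp_pos _).le Real.exp_one_lt_d9.le k
  have h3 : Real.exp x ^ n ≤ r ^ n := by rw [h1]; exact h2.trans h
  exact le_of_pow_le_pow_left₀ hn hr h3

lemma sqrt2_lo : (14142 : ℝ) / 10000 ≤ Real.sqrt 2 := Real.le_sqrt_of_sq_le (by norm_num)
lemma sqrt2_hi : Real.sqrt 2 ≤ 141422 / 100000 := by
  rw [Real.sqrt_le_left (by norm_num)]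
  norm_num
lemma sqrt3_lo : (173205 : ℝ) / 100000 ≤ Real.sqrt 3 := Real.le_sqrt_of_sq_le (by norm_num)
lemma sqrt3_hi : Real.sqrt 3 ≤ 173206 / 100000 := by
  rw [Real.sqrt_le_left (by norm_num)]
  norm_num

/-- upper bound for `Gam`, first case -/
lemma Gam_le₁ {b gu θl θu cu sl : ℝ} (h1 : 0 ≤ θl) (h2 : θl ≤ Real.pi * b) (h3 : Real.pi * b ≤ θu)
    (h5 : Real.cos (Real.pi * b) ≤ cu) (h6 : 0 ≤ sl) (h7 : sl ≤ Real.sin (Real.pi * b)) (hg : 0 ≤ gu)
    (hpos : 0 < 1 - 2 * θu ^ 2) (h : cu - 2 * θl * (8274 / 10000) * sl ≤ gu * (1 - 2 * θu ^ 2)) : Gam b ≤ gu := by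
  have k := Gam_closed b
  obtain ⟨θ, hθ⟩ : ∃ θ, θ = Real.pi * b := ⟨_, rfl⟩
  have e1 : 1 - 2 * Real.pi ^ 2 * b ^ 2 = 1 - 2 * θ ^ 2 := by rw [hθ]; ring
  have e2 : 2 * Real.pi * b * (CMT - 1 / 2) * Real.sin (Real.pi * b) = 2 * θ * (CMT - 1 / 2) * Real.sin θ := by rw [hθ]; ring
  rw [e1, e2] at k
  rw [← hθ] at h2 h3 h5 h7 k
  have hq := CMT_lo
  have g1 : 2 * θl * (8274 / 10000) * sl ≤ 2 * θ * (CMT - 1 / 2) * Real.sin θ := by
    have : (8274 / 10000 : ℝ) ≤ CMT - 1 / 2 := by linarith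
    have h8 : 0 ≤ θ := h1.trans h2
    gcongr
  have g2 : θ ^ 2 ≤ θu ^ 2 := pow_le_pow_left₀ (h1.trans h2) h3 2
  have g3 : gu * (1 - 2 * θu ^ 2) ≤ gu * (1 - 2 * θ ^ 2) := mul_le_mul_of_nonneg_left (by linarith) hg
  have g4 : (1 - 2 * θ ^ 2) * Gam b ≤ (1 - 2 * θ ^ 2) * gu := by rw [k]; linarith
  exact le_of_mul_le_mul_left g4 (by linarith)

/-- upper bound for `Gam`, second case -/
lemma Gam_le₂ {b gu θl θu cl su : ℝ} (h1 : 0 ≤ θl) (h2 : θl ≤ Real.pi * b) (h3 : Real.pi * b ≤ θu)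
    (h5 : cl ≤ Real.cos (Real.pi * b)) (h6 : 0 ≤ Real.sin (Real.pi * b)) (h7 : Real.sin (Real.pi * b) ≤ su) (hg : 0 ≤ gu)
    (hpos : 0 < 2 * θl ^ 2 - 1) (h : 2 * θu * (149 / 180) * su - cl ≤ gu * (2 * θl ^ 2 - 1)) : Gam b ≤ gu := by
  have k := Gam_closed b
  obtain ⟨θ, hθ⟩ : ∃ θ, θ = Real.pi * b := ⟨_, rfl⟩
  have e1 : 1 - 2 * Real.pi ^ 2 * b ^ 2 = 1 - 2 * θ ^ 2 := by rw [hθ]; ring
  have e2 : 2 * Real.pi * b * (CMT - 1 / 2) * Real.sin (Real.pi * b) = 2 * θ * (CMT - 1 / 2) * Real.sin θ := by rw [hθ]; ring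
  rw [e1, e2] at k
  rw [← hθ] at h2 h3 h5 h6 h7 k
  have hq := CMT_hi
  have hq2 := CMT_lo
  have g1 : 2 * θ * (CMT - 1 / 2) * Real.sin θ ≤ 2 * θu * (149 / 180) * su := by
    have h9 : CMT - 1 / 2 ≤ 149 / 180 := by linarith
    have h8 : 0 ≤ θ := h1.trans h2
    have h10 : 0 ≤ CMT - 1 / 2 := by linarith
    have h11 : 0 ≤ θu := h8.trans h3
    gcongr
  have g2 : θl ^ 2 ≤ θ ^ 2 := pow_le_pow_left₀ h1 h2 2
  have g3 : gu * (2 * θl ^ 2 - 1) ≤ gu * (2 * θ ^ 2 - 1) := mul_le_mul_of_nonneg_left (by linarith) hg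
  have g4 : (2 * θ ^ 2 - 1) * Gam b ≤ (2 * θ ^ 2 - 1) * gu := by
    have : (2 * θ ^ 2 - 1) * Gam b = -((1 - 2 * θ ^ 2) * Gam b) := by ring
    rw [this, k]
    linarith
  exact le_of_mul_le_mul_left g4 (by linarith)

lemma Gam_nn {b : ℝ} (h0 : 0 ≤ b) (h : b ≤ 1 / 2) : 0 ≤ Gam b := by
  have := Gam_pos_half (u := b) (by rw [abs_of_nonneg h0]; exact h)
  linarith

lemma pib_lo {b : ℝ} (hb : 0 ≤ b) : 3141592 / 1000000 * b ≤ Real.pi * b :=
  mul_le_mul_of_nonneg_right (by have := Real.pi_gt_d6; linarith) hb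

lemma pib_hi {b : ℝ} (hb : 0 ≤ b) : Real.pi * b ≤ 3141593 / 1000000 * b :=
  mul_le_mul_of_nonneg_right (by have := Real.pi_lt_d6; linarith) hb

theorem Gam_6 : Gam (1 / 6) ≤ 9583 / 10000 := by
  have e : Real.pi * (1 / 6) = Real.pi / 6 := by ring
  have h3 := sqrt3_hi
  refine Gam_le₁ (θl := 3141592 / 1000000 * (1 / 6)) (θu := 3141593 / 1000000 * (1 / 6)) (cu := 86603 / 100000) (sl := 1 / 2)
    (by norm_num) (pib_lo (by norm_num)) (pib_hi (by norm_num)) ?_ (by norm_num) ?_ (by norm_num) (by norm_num) (by norm_num)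
  · rw [e, Real.cos_pi_div_six]
    linarith
  · rw [e, Real.sin_pi_div_six]

theorem cell_6 : Cell (1 / 6) (83 / 10) (3 / 5) (1 / 1000) := by
  have e : Real.pi * (1 / 6) = Real.pi / 6 := by ring
  have h3 := sqrt3_lo
  have hq := CMT_lo
  have hq2 := CMT_hi
  refine cell_gen (θl := 3141592 / 1000000 * (1 / 6)) (θu := 3141593 / 1000000 * (1 / 6)) (cl := 86602 / 100000) (sl := 1 / 2)
    (ql := 8274 / 10000) (qu := 149 / 180) (El := 6343 / 100) (Eu := 6344 / 100) (gu := 9583 / 10000)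
    (by norm_num) (by norm_num) (by norm_num) (by norm_num) (pib_lo (by norm_num)) (pib_hi (by norm_num)) (by norm_num) ?_
    (by norm_num) ?_ (by norm_num) (by linarith) (by linarith) (by norm_num) ?_ ?_ (Gam_nn (by norm_num) (by norm_num)) Gam_6
    (by norm_num) (by norm_num) (by norm_num)
  · rw [e, Real.cos_pi_div_six]
    linarith
  · rw [e, Real.sin_pi_div_six]
  · exact exp_ge (n := 20) (k := 83) (by norm_num) (by norm_num) (by norm_num) (by norm_num)
  · exact exp_le' (n := 20) (k := 83) (by norm_num) (by norm_num) (by norm_num) (by norm_num)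

theorem Gam_4 : Gam (1 / 4) ≤ 909 / 1000 := by
  have e : Real.pi * (1 / 4) = Real.pi / 4 := by ring
  have h3 := sqrt2_hi
  have h4 := sqrt2_lo
  refine Gam_le₂ (θl := 3141592 / 1000000 * (1 / 4)) (θu := 3141593 / 1000000 * (1 / 4)) (cl := 7071 / 10000) (su := 70711 / 100000)
    (by norm_num) (pib_lo (by norm_num)) (pib_hi (by norm_num)) ?_ ?_ ?_ (by norm_num) (by norm_num) (by norm_num)
  · rw [e, Real.cos_pi_div_four]
    linarith
  · rw [e, Real.sin_pi_div_four]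
    positivity
  · rw [e, Real.sin_pi_div_four]
    linarith

theorem cell_4 : Cell (1 / 4) (37 / 5) (13 / 20) (1 / 1000) := by
  have e : Real.pi * (1 / 4) = Real.pi / 4 := by ring
  have h3 := sqrt2_lo
  have hq := CMT_lo
  have hq2 := CMT_hi
  refine cell_gen (θl := 3141592 / 1000000 * (1 / 4)) (θu := 3141593 / 1000000 * (1 / 4)) (cl := 7071 / 10000) (sl := 7071 / 10000)
    (ql := 8274 / 10000) (qu := 149 / 180) (El := 4044 / 100) (Eu := 4045 / 100) (gu := 909 / 1000)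
    (by norm_num) (by norm_num) (by norm_num) (by norm_num) (pib_lo (by norm_num)) (pib_hi (by norm_num)) (by norm_num) ?_
    (by norm_num) ?_ (by norm_num) (by linarith) (by linarith) (by norm_num) ?_ ?_ (Gam_nn (by norm_num) (by norm_num)) Gam_4
    (by norm_num) (by norm_num) (by norm_num)
  · rw [e, Real.cos_pi_div_four]
    linarith
  · rw [e, Real.sin_pi_div_four]
    linarith
  · exact exp_ge (n := 10) (k := 37) (by norm_num) (by norm_num) (by norm_num) (by norm_num)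
  · exact exp_le' (n := 10) (k := 37) (by norm_num) (by norm_num) (by norm_num) (by norm_num)

theorem Gam_3 : Gam (1 / 3) ≤ 84 / 100 := by
  have e : Real.pi * (1 / 3) = Real.pi / 3 := by ring
  have h3 := sqrt3_hi
  refine Gam_le₂ (θl := 3141592 / 1000000 * (1 / 3)) (θu := 3141593 / 1000000 * (1 / 3)) (cl := 1 / 2) (su := 86603 / 100000)
    (by norm_num) (pib_lo (by norm_num)) (pib_hi (by norm_num)) ?_ ?_ ?_ (by norm_num) (by norm_num) (by norm_num)
  · rw [e, Real.cos_pi_div_three]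
  · rw [e, Real.sin_pi_div_three]
    positivity
  · rw [e, Real.sin_pi_div_three]
    linarith

theorem cell_3 : Cell (1 / 3) (32 / 5) (7 / 10) (1 / 1000) := by
  have e : Real.pi * (1 / 3) = Real.pi / 3 := by ring
  have h3 := sqrt3_lo
  have hq := CMT_lo
  have hq2 := CMT_hi
  refine cell_gen (θl := 3141592 / 1000000 * (1 / 3)) (θu := 3141593 / 1000000 * (1 / 3)) (cl := 1 / 2) (sl := 86602 / 100000)
    (ql := 8274 / 10000) (qu := 149 / 180) (El := 2453 / 100) (Eu := 24533 / 1000) (gu := 84 / 100)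
    (by norm_num) (by norm_num) (by norm_num) (by norm_num) (pib_lo (by norm_num)) (pib_hi (by norm_num)) (by norm_num) ?_
    (by norm_num) ?_ (by norm_num) (by linarith) (by linarith) (by norm_num) ?_ ?_ (Gam_nn (by norm_num) (by norm_num)) Gam_3
    (by norm_num) (by norm_num) (by norm_num)
  · rw [e, Real.cos_pi_div_three]
  · rw [e, Real.sin_pi_div_three]
    linarith
  · exact exp_ge (n := 5) (k := 16) (by norm_num) (by norm_num) (by norm_num) (by norm_num)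
  · exact exp_le' (n := 5) (k := 16) (by norm_num) (by norm_num) (by norm_num) (by norm_num)

theorem cs_75 : 2588 / 10000 ≤ Real.cos (Real.pi * (5 / 12)) ∧ 9659 / 10000 ≤ Real.sin (Real.pi * (5 / 12)) ∧
    Real.sin (Real.pi * (5 / 12)) ≤ 966 / 1000 := by
  have e : Real.pi * (5 / 12) = Real.pi / 4 + Real.pi / 6 := by ring
  have h2 := sqrt2_lo
  have h2' := sqrt2_hi
  have h3 := sqrt3_lo
  have h3' := sqrt3_hi
  rw [e, Real.cos_add, Real.sin_add, Real.cos_pi_div_four, Real.sin_pi_div_four, Real.cos_pi_div_six, Real.sin_pi_div_six]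
  refine ⟨?_, ?_, ?_⟩
  · have : (2588 / 10000 : ℝ) ≤ Real.sqrt 2 * ((Real.sqrt 3 - 1) / 4) := by
      calc (2588 / 10000 : ℝ) ≤ 14142 / 10000 * ((173205 / 100000 - 1) / 4) := by norm_num
        _ ≤ _ := mul_le_mul h2 (by linarith) (by norm_num) (by positivity)
    linarith
  · have : (9659 / 10000 : ℝ) ≤ Real.sqrt 2 * ((Real.sqrt 3 + 1) / 4) := by
      calc (9659 / 10000 : ℝ) ≤ 14142 / 10000 * ((173205 / 100000 + 1) / 4) := by norm_num
        _ ≤ _ := mul_le_mul h2 (by linarith) (by norm_num) (by positivity)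
    linarith
  · have : Real.sqrt 2 * ((Real.sqrt 3 + 1) / 4) ≤ (966 / 1000 : ℝ) := by
      calc Real.sqrt 2 * ((Real.sqrt 3 + 1) / 4) ≤ 141422 / 100000 * ((173206 / 100000 + 1) / 4) :=
            mul_le_mul h2' (by linarith) (by positivity) (by norm_num)
        _ ≤ _ := by norm_num
    linarith

theorem Gam_5 : Gam (5 / 12) ≤ 757 / 1000 := by
  obtain ⟨h1, h2, h3⟩ := cs_75
  exact Gam_le₂ (θl := 3141592 / 1000000 * (5 / 12)) (θu := 3141593 / 1000000 * (5 / 12)) (cl := 2588 / 10000) (su := 966 / 1000)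
    (by norm_num) (pib_lo (by norm_num)) (pib_hi (by norm_num)) h1 (by linarith) h3 (by norm_num) (by norm_num) (by norm_num)

theorem cell_5 : Cell (5 / 12) (27 / 5) (3 / 4) (1 / 1000) := by
  obtain ⟨h1, h2, h3⟩ := cs_75
  have hq := CMT_lo
  have hq2 := CMT_hi
  refine cell_gen (θl := 3141592 / 1000000 * (5 / 12)) (θu := 3141593 / 1000000 * (5 / 12)) (cl := 2588 / 10000) (sl := 9659 / 10000)
    (ql := 8274 / 10000) (qu := 149 / 180) (El := 1487 / 100) (Eu := 1488 / 100) (gu := 757 / 1000)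
    (by norm_num) (by norm_num) (by norm_num) (by norm_num) (pib_lo (by norm_num)) (pib_hi (by norm_num)) (by norm_num) h1
    (by norm_num) h2 (by norm_num) (by linarith) (by linarith) (by norm_num) ?_ ?_ (Gam_nn (by norm_num) (by norm_num)) Gam_5
    (by norm_num) (by norm_num) (by norm_num)
  · exact exp_ge (n := 10) (k := 27) (by norm_num) (by norm_num) (by norm_num) (by norm_num)
  · exact exp_le' (n := 10) (k := 27) (by norm_num) (by norm_num) (by norm_num) (by norm_num)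

theorem Gam_2 : Gam (1 / 2) ≤ 661 / 1000 := by
  have e : Real.pi * (1 / 2) = Real.pi / 2 := by ring
  refine Gam_le₂ (θl := 3141592 / 1000000 * (1 / 2)) (θu := 3141593 / 1000000 * (1 / 2)) (cl := 0) (su := 1)
    (by norm_num) (pib_lo (by norm_num)) (pib_hi (by norm_num)) ?_ ?_ ?_ (by norm_num) (by norm_num) (by norm_num)
  · rw [e, Real.cos_pi_div_two]
  · rw [e, Real.sin_pi_div_two]
    norm_num
  · rw [e, Real.sin_pi_div_two]

theorem cell_2 : Cell (1 / 2) (9 / 2) (4 / 5) (1 / 1000) := by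
  have e : Real.pi * (1 / 2) = Real.pi / 2 := by ring
  have hq := CMT_lo
  have hq2 := CMT_hi
  refine cell_gen (θl := 3141592 / 1000000 * (1 / 2)) (θu := 3141593 / 1000000 * (1 / 2)) (cl := 0) (sl := 1)
    (ql := 8274 / 10000) (qu := 149 / 180) (El := 948 / 100) (Eu := 949 / 100) (gu := 661 / 1000)
    (by norm_num) (by norm_num) (by norm_num) (by norm_num) (pib_lo (by norm_num)) (pib_hi (by norm_num)) (by norm_num) ?_
    (by norm_num) ?_ (by norm_num) (by linarith) (by linarith) (by norm_num) ?_ ?_ (Gam_nn (by norm_num) (by norm_num)) Gam_2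
    (by norm_num) (by norm_num) (by norm_num)
  · rw [e, Real.cos_pi_div_two]
  · rw [e, Real.sin_pi_div_two]
  · exact exp_ge (n := 4) (k := 9) (by norm_num) (by norm_num) (by norm_num) (by norm_num)
  · exact exp_le' (n := 4) (k := 9) (by norm_num) (by norm_num) (by norm_num) (by norm_num)

end Pool.Agent.Helper66.RT
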