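import Pool.Agent.Helper66.RT.Mt

/-!
# RT project: two monotonicity facts by Chebyshev's inequality

`FF h β = ∫ ph(x) cosh(xh) cos(2πβx) dx`, `AA2 h = ∫ ph(x) cosh(xh)² dx` over `[-1/2,1/2]`.
-/

set_option autoImplicit false

open MeasureTheory Set

namespace Pool.Agent.Helper66.RT

/-- the double integral form of Chebyshev's inequality -/
lemma andreief {w u₁ u₂ v₁ v₂ : ℝ → ℝ} (hw : Continuous w) (hu₁ : Continuous u₁) (hu₂ : Continuous u₂) (hv₁ : Continuous v₁)
    (hv₂ : Continuous v₂) (h : ∀ x ∈ Icc (-(1 / 2) : ℝ) (1 / 2), ∀ y ∈ Icc (-(1 / 2) : ℝ) (1 / 2),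
      w x * w y * ((u₁ x * u₂ y - u₁ y * u₂ x) * (v₁ x * v₂ y - v₁ y * v₂ x)) ≤ 0) :
    (∫ x in (-(1 / 2) : ℝ)..(1 / 2), w x * (u₁ x * v₁ x)) * (∫ x in (-(1 / 2) : ℝ)..(1 / 2), w x * (u₂ x * v₂ x)) ≤
    (∫ x in (-(1 / 2) : ℝ)..(1 / 2), w x * (u₁ x * v₂ x)) * (∫ x in (-(1 / 2) : ℝ)..(1 / 2), w x * (u₂ x * v₁ x)) := by
  obtain ⟨a, ha⟩ : ∃ a, a = ∫ x in (-(1 / 2) : ℝ)..(1 / 2), w x * (u₁ x * v₁ x) := ⟨_, rfl⟩
  obtain ⟨b, hb⟩ : ∃ b, b = ∫ x in (-(1 / 2) : ℝ)..(1 / 2), w x * (u₂ x * v₂ x) := ⟨_, rfl⟩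
  obtain ⟨c, hc⟩ : ∃ c, c = ∫ x in (-(1 / 2) : ℝ)..(1 / 2), w x * (u₁ x * v₂ x) := ⟨_, rfl⟩
  obtain ⟨d, hd⟩ : ∃ d, d = ∫ x in (-(1 / 2) : ℝ)..(1 / 2), w x * (u₂ x * v₁ x) := ⟨_, rfl⟩
  have hi : ∀ {f : ℝ → ℝ}, Continuous f → IntervalIntegrable f volume (-(1 / 2) : ℝ) (1 / 2) :=
    fun hf => hf.intervalIntegrable _ _
  have h1 : ∀ x, ∫ y in (-(1 / 2) : ℝ)..(1 / 2), w x * w y * ((u₁ x * u₂ y - u₁ y * u₂ x) * (v₁ x * v₂ y - v₁ y * v₂ x)) =
      w x * (u₁ x * v₁ x) * b - w x * (u₁ x * v₂ x) * d - w x * (u₂ x * v₁ x) * c + w x * (u₂ x * v₂ x) * a := by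
    intro x
    have e : ∀ y, w x * w y * ((u₁ x * u₂ y - u₁ y * u₂ x) * (v₁ x * v₂ y - v₁ y * v₂ x)) =
        w x * (u₁ x * v₁ x) * (w y * (u₂ y * v₂ y)) - w x * (u₁ x * v₂ x) * (w y * (u₂ y * v₁ y)) -
          w x * (u₂ x * v₁ x) * (w y * (u₁ y * v₂ y)) + w x * (u₂ x * v₂ x) * (w y * (u₁ y * v₁ y)) := by
      intro y
      ring
    simp_rw [e]
    rw [intervalIntegral.integral_add (hi (by fun_prop)) (hi (by fun_prop)),
      intervalIntegral.integral_sub (hi (by fun_prop)) (hi (by fun_prop)),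
      intervalIntegral.integral_sub (hi (by fun_prop)) (hi (by fun_prop)), intervalIntegral.integral_const_mul,
      intervalIntegral.integral_const_mul, intervalIntegral.integral_const_mul, intervalIntegral.integral_const_mul,
      ← ha, ← hb, ← hc, ← hd]
  have h2 : ∫ x in (-(1 / 2) : ℝ)..(1 / 2), ∫ y in (-(1 / 2) : ℝ)..(1 / 2),
      w x * w y * ((u₁ x * u₂ y - u₁ y * u₂ x) * (v₁ x * v₂ y - v₁ y * v₂ x)) = 2 * (a * b - c * d) := by
    simp_rw [h1]
    rw [intervalIntegral.integral_add (hi (by fun_prop)) (hi (by fun_prop)),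
      intervalIntegral.integral_sub (hi (by fun_prop)) (hi (by fun_prop)),
      intervalIntegral.integral_sub (hi (by fun_prop)) (hi (by fun_prop)), intervalIntegral.integral_mul_const,
      intervalIntegral.integral_mul_const, intervalIntegral.integral_mul_const, intervalIntegral.integral_mul_const,
      ← ha, ← hb, ← hc, ← hd]
    ring
  have h3 : ∫ x in (-(1 / 2) : ℝ)..(1 / 2), ∫ y in (-(1 / 2) : ℝ)..(1 / 2),
      w x * w y * ((u₁ x * u₂ y - u₁ y * u₂ x) * (v₁ x * v₂ y - v₁ y * v₂ x)) ≤ 0 := by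
    have h4 : ∀ x ∈ Icc (-(1 / 2) : ℝ) (1 / 2), ∫ y in (-(1 / 2) : ℝ)..(1 / 2),
        w x * w y * ((u₁ x * u₂ y - u₁ y * u₂ x) * (v₁ x * v₂ y - v₁ y * v₂ x)) ≤ 0 := by
      intro x hx
      have h5 : 0 ≤ ∫ y in (-(1 / 2) : ℝ)..(1 / 2),
          -(w x * w y * ((u₁ x * u₂ y - u₁ y * u₂ x) * (v₁ x * v₂ y - v₁ y * v₂ x))) :=
        intervalIntegral.integral_nonneg (by norm_num) fun y hy => by
          have := h x hx y hy
          linarith
      rw [intervalIntegral.integral_neg] at h5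
      linarith
    have h5 : 0 ≤ ∫ x in (-(1 / 2) : ℝ)..(1 / 2), -∫ y in (-(1 / 2) : ℝ)..(1 / 2),
        w x * w y * ((u₁ x * u₂ y - u₁ y * u₂ x) * (v₁ x * v₂ y - v₁ y * v₂ x)) :=
      intervalIntegral.integral_nonneg (by norm_num) fun x hx => by
        have := h4 x hx
        linarith
    rw [intervalIntegral.integral_neg] at h5
    linarith
  rw [h2] at h3
  rw [← ha, ← hb, ← hc, ← hd]
  linarith

/-- the cosine transform of `ph cosh` -/
noncomputable def FF (h β : ℝ) : ℝ := ∫ x in (-(1 / 2) : ℝ)..(1 / 2), ph x * (Real.cosh (x * h) * Real.cos (2 * Real.pi * β * x))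

/-- the square mean of `cosh` -/
noncomputable def AA2 (h : ℝ) : ℝ := ∫ x in (-(1 / 2) : ℝ)..(1 / 2), ph x * (Real.cosh (x * h) * Real.cosh (x * h))

lemma ph_pos' {x : ℝ} (hx : x ∈ Icc (-(1 / 2) : ℝ) (1 / 2)) : 0 < ph x := ph_pos (abs_le.2 ⟨by linarith [hx.1], hx.2⟩)

/-- monotonicity of products of hyperbolic cosines -/
lemma cosh_mono {h H x y : ℝ} (hh : 0 ≤ h) (hH : h ≤ H) (hxy : |x| ≤ |y|) :
    Real.cosh (x * H) * Real.cosh (y * h) ≤ Real.cosh (y * H) * Real.cosh (x * h) := by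
  have e : ∀ a b : ℝ, Real.cosh a * Real.cosh b = (Real.cosh (a + b) + Real.cosh (a - b)) / 2 := by
    intro a b
    rw [Real.cosh_add, Real.cosh_sub]
    ring
  have e1 : ∀ x y : ℝ, Real.cosh (x * H) * Real.cosh (y * h) = Real.cosh (|x| * H) * Real.cosh (|y| * h) := by
    intro x y
    rw [← Real.cosh_abs (x * H), ← Real.cosh_abs (y * h), abs_mul, abs_mul, abs_of_nonneg hh, abs_of_nonneg (hh.trans hH)]
  have e2 : Real.cosh (y * H) * Real.cosh (x * h) = Real.cosh (|y| * H) * Real.cosh (|x| * h) := e1 y x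
  rw [e1 x y, e2, e, e]
  have hx := abs_nonneg x
  have h1 : Real.cosh (|x| * H + |y| * h) ≤ Real.cosh (|y| * H + |x| * h) := by
    have g1 : 0 ≤ |x| * H := mul_nonneg hx (hh.trans hH)
    have g2 : 0 ≤ |y| * h := mul_nonneg (abs_nonneg y) hh
    have g3 : 0 ≤ |y| * H := mul_nonneg (abs_nonneg y) (hh.trans hH)
    have g4 : 0 ≤ |x| * h := mul_nonneg hx hh
    rw [Real.cosh_le_cosh, abs_of_nonneg (show 0 ≤ |x| * H + |y| * h by linarith),
      abs_of_nonneg (show 0 ≤ |y| * H + |x| * h by linarith)]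
    nlinarith
  have h2 : Real.cosh (|x| * H - |y| * h) ≤ Real.cosh (|y| * H - |x| * h) := by
    rw [Real.cosh_le_cosh, abs_of_nonneg (show 0 ≤ |y| * H - |x| * h by nlinarith)]
    rw [abs_le]
    constructor <;> nlinarith
  linarith

/-- monotonicity of products of cosines -/
lemma cos_mono {β b x y : ℝ} (hβ : 0 ≤ β) (hb : β ≤ b) (hb2 : b ≤ Real.pi) (hx : |x| ≤ 1 / 2) (hy : |y| ≤ 1 / 2) (hxy : |x| ≤ |y|) :
    Real.cos (b * y) * Real.cos (β * x) ≤ Real.cos (b * x) * Real.cos (β * y) := by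
  have e : ∀ a b : ℝ, Real.cos a * Real.cos b = (Real.cos (a + b) + Real.cos (a - b)) / 2 := by
    intro a b
    rw [Real.cos_add, Real.cos_sub]
    ring
  have e1 : ∀ x y : ℝ, Real.cos (b * y) * Real.cos (β * x) = Real.cos (b * |y|) * Real.cos (β * |x|) := by
    intro x y
    rw [← Real.cos_abs (b * y), ← Real.cos_abs (β * x), abs_mul, abs_mul, abs_of_nonneg hβ, abs_of_nonneg (hβ.trans hb)]
  have e2 : Real.cos (b * x) * Real.cos (β * y) = Real.cos (b * |x|) * Real.cos (β * |y|) := e1 y x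
  rw [e1 x y, e2, e, e]
  have hx0 := abs_nonneg x
  have hy0 := abs_nonneg y
  have h1 : Real.cos (b * |y| + β * |x|) ≤ Real.cos (b * |x| + β * |y|) := by
    apply Real.cos_le_cos_of_nonneg_of_le_pi <;> nlinarith
  have h2 : Real.cos (b * |y| - β * |x|) ≤ Real.cos (b * |x| - β * |y|) := by
    rw [← Real.cos_abs (b * |x| - β * |y|)]
    apply Real.cos_le_cos_of_nonneg_of_le_pi (abs_nonneg _)
    · nlinarith
    · rw [abs_le]
      constructor <;> nlinarith
  linarith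

lemma cos_nn {β x : ℝ} (hβ0 : 0 ≤ β) (hβ : β ≤ 1 / 2) (hx : |x| ≤ 1 / 2) : 0 ≤ Real.cos (2 * Real.pi * β * x) := by
  have hpi := Real.pi_pos
  rw [← Real.cos_abs, abs_mul, abs_of_nonneg (by positivity)]
  apply Real.cos_nonneg_of_neg_pi_div_two_le_of_le
  · have := abs_nonneg x
    have : 0 ≤ 2 * Real.pi * β * |x| := by positivity
    linarith
  · have h1 : β * |x| ≤ 1 / 4 := by
      have := abs_nonneg x
      nlinarith
    nlinarith

/-- the cosine is monotone, the box version -/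
lemma cos_box {β x d : ℝ} (hβ : β ≤ 1 / 2) (hx : |x| ≤ 1 / 2) (hd : |d| ≤ 2 * Real.pi * β) :
    Real.cos (2 * Real.pi * β * x) ≤ Real.cos (x * d) := by
  have hpi := Real.pi_pos
  have hβ0 : 0 ≤ β := by
    have h1 := (abs_nonneg d).trans hd
    by_contra h2
    push Not at h2
    nlinarith
  rw [← Real.cos_abs (2 * Real.pi * β * x), ← Real.cos_abs (x * d), abs_mul (2 * Real.pi * β), abs_mul x,
    abs_of_nonneg (by positivity : 0 ≤ 2 * Real.pi * β)]
  apply Real.cos_le_cos_of_nonneg_of_le_pi (by positivity)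
  · have h1 : β * |x| ≤ 1 / 4 := by
      have := abs_nonneg x
      nlinarith
    nlinarith
  · rw [mul_comm]
    exact mul_le_mul_of_nonneg_right hd (abs_nonneg x)

/-- the squared cosine decreases in `h` -/
lemma FF_AA2 {h H β : ℝ} (hh : 0 ≤ h) (hH : h ≤ H) (hβ0 : 0 ≤ β) (hβ : β ≤ 1 / 2) (hA : 0 < AA2 h) :
    FF H β ^ 2 * AA2 h ≤ AA2 H * FF h β ^ 2 := by
  obtain ⟨B, hB⟩ : ∃ B, B = ∫ x in (-(1 / 2) : ℝ)..(1 / 2), ph x * (Real.cosh (x * H) * Real.cosh (x * h)) := ⟨_, rfl⟩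
  have hc1 : Continuous fun x : ℝ => Real.cosh (x * H) := Real.continuous_cosh.comp (by fun_prop)
  have hc2 : Continuous fun x : ℝ => Real.cosh (x * h) := Real.continuous_cosh.comp (by fun_prop)
  have h1 : FF H β * AA2 h ≤ B * FF h β := by
    rw [hB]
    unfold FF AA2
    refine andreief (w := ph) (u₁ := fun x => Real.cosh (x * H)) (u₂ := fun x => Real.cosh (x * h))
      (v₁ := fun x => Real.cos (2 * Real.pi * β * x)) (v₂ := fun x => Real.cosh (x * h)) ph_cont hc1 hc2 (by fun_prop) hc2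
      fun x hx y hy => ?_
    have hx' : |x| ≤ 1 / 2 := abs_le.2 ⟨by linarith [hx.1], hx.2⟩
    have hy' : |y| ≤ 1 / 2 := abs_le.2 ⟨by linarith [hy.1], hy.2⟩
    refine mul_nonpos_of_nonneg_of_nonpos (mul_nonneg (ph_pos' hx).le (ph_pos' hy).le) ?_
    have hcc : ∀ {x y : ℝ}, |x| ≤ 1 / 2 → |y| ≤ 1 / 2 → |x| ≤ |y| →
        Real.cos (2 * Real.pi * β * y) * Real.cosh (x * h) ≤ Real.cos (2 * Real.pi * β * x) * Real.cosh (y * h) := by
      intro x y hx hy hxy
      have g1 : Real.cos (2 * Real.pi * β * y) ≤ Real.cos (2 * Real.pi * β * x) := by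
        have hpi := Real.pi_pos
        rw [← Real.cos_abs (2 * Real.pi * β * y), ← Real.cos_abs (2 * Real.pi * β * x), abs_mul (2 * Real.pi * β),
          abs_mul (2 * Real.pi * β), abs_of_nonneg (by positivity : 0 ≤ 2 * Real.pi * β)]
        apply Real.cos_le_cos_of_nonneg_of_le_pi (by positivity)
        · have h1 : β * |y| ≤ 1 / 4 := by
            have := abs_nonneg y
            nlinarith
          nlinarith
        · exact mul_le_mul_of_nonneg_left hxy (by positivity)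
      have g2 : Real.cosh (x * h) ≤ Real.cosh (y * h) := by
        rw [Real.cosh_le_cosh, abs_mul, abs_mul]
        exact mul_le_mul_of_nonneg_right hxy (abs_nonneg _)
      exact mul_le_mul g1 g2 (Real.cosh_pos _).le (cos_nn hβ0 hβ hx)
    rcases le_total |x| |y| with hxy | hxy
    · have g1 := cosh_mono hh hH hxy
      have g2 := hcc hx' hy' hxy
      exact mul_nonpos_of_nonpos_of_nonneg (by linarith) (by linarith)
    · have g1 := cosh_mono hh hH hxy
      have g2 := hcc hy' hx' hxy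
      exact mul_nonpos_of_nonneg_of_nonpos (by linarith) (by linarith)
  have h2 : B * B ≤ AA2 H * AA2 h := by
    have h3 := andreief (w := ph) (u₁ := fun x => Real.cosh (x * H)) (u₂ := fun x => Real.cosh (x * h))
      (v₁ := fun x => Real.cosh (x * h)) (v₂ := fun x => Real.cosh (x * H)) ph_cont hc1 hc2 hc2 hc1
      (fun x hx y hy => by
        have g1 : ph x * ph y * ((Real.cosh (x * H) * Real.cosh (y * h) - Real.cosh (y * H) * Real.cosh (x * h)) *
            (Real.cosh (x * h) * Real.cosh (y * H) - Real.cosh (y * h) * Real.cosh (x * H))) =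
            -(ph x * ph y * (Real.cosh (x * H) * Real.cosh (y * h) - Real.cosh (y * H) * Real.cosh (x * h)) ^ 2) := by
          ring
        rw [g1, neg_nonpos]
        exact mul_nonneg (mul_nonneg (ph_pos' hx).le (ph_pos' hy).le) (sq_nonneg _))
    have g2 : ∫ x in (-(1 / 2) : ℝ)..(1 / 2), ph x * (Real.cosh (x * h) * Real.cosh (x * H)) = B := by
      rw [hB]
      refine intervalIntegral.integral_congr fun x _ => ?_
      ring
    rw [g2, ← hB] at h3
    exact h3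
  have hB0 : 0 ≤ B := by
    rw [hB]
    refine intervalIntegral.integral_nonneg (by norm_num) fun x hx => ?_
    exact mul_nonneg (ph_pos' hx).le (mul_nonneg (Real.cosh_pos _).le (Real.cosh_pos _).le)
  have hF : 0 ≤ FF h β := by
    unfold FF
    refine intervalIntegral.integral_nonneg (by norm_num) fun x hx => ?_
    exact mul_nonneg (ph_pos' hx).le (mul_nonneg (Real.cosh_pos _).le (cos_nn hβ0 hβ (abs_le.2 ⟨by linarith [hx.1], hx.2⟩)))
  have hF2 : 0 ≤ FF H β := by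
    unfold FF
    refine intervalIntegral.integral_nonneg (by norm_num) fun x hx => ?_
    exact mul_nonneg (ph_pos' hx).le (mul_nonneg (Real.cosh_pos _).le (cos_nn hβ0 hβ (abs_le.2 ⟨by linarith [hx.1], hx.2⟩)))
  have h3 : (FF H β * AA2 h) ^ 2 ≤ (B * FF h β) ^ 2 := pow_le_pow_left₀ (mul_nonneg hF2 hA.le) h1 2
  have h4 : (B * FF h β) ^ 2 ≤ AA2 H * AA2 h * FF h β ^ 2 := by
    rw [mul_pow]
    refine mul_le_mul_of_nonneg_right ?_ (sq_nonneg _)
    rw [sq]
    exact h2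
  have h5 : AA2 h * (FF H β ^ 2 * AA2 h) ≤ AA2 h * (AA2 H * FF h β ^ 2) := by
    calc AA2 h * (FF H β ^ 2 * AA2 h) = (FF H β * AA2 h) ^ 2 := by ring
      _ ≤ AA2 H * AA2 h * FF h β ^ 2 := h3.trans h4
      _ = _ := by ring
  exact le_of_mul_le_mul_left h5 hA

/-- the ratio decreases in `β` -/
lemma FF_ratio {H β b : ℝ} (hH : 0 ≤ H) (hβ0 : 0 ≤ β) (hβ : β ≤ b) (hb : b ≤ 1 / 2) :
    FF 0 β * FF H b ≤ FF H β * FF 0 b := by
  have hpi := Real.pi_pos
  have hc1 : Continuous fun x : ℝ => Real.cosh (x * H) := Real.continuous_cosh.comp (by fun_prop)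
  have h1 := andreief (w := ph) (u₁ := fun x => Real.cosh (x * H)) (u₂ := fun x => Real.cosh (x * 0))
      (v₁ := fun x => Real.cos (2 * Real.pi * b * x)) (v₂ := fun x => Real.cos (2 * Real.pi * β * x)) ph_cont hc1
      (by simp only [mul_zero]; fun_prop) (by fun_prop) (by fun_prop)
      (fun x hx y hy => by
        have hx' : |x| ≤ 1 / 2 := abs_le.2 ⟨by linarith [hx.1], hx.2⟩
        have hy' : |y| ≤ 1 / 2 := abs_le.2 ⟨by linarith [hy.1], hy.2⟩
        refine mul_nonpos_of_nonneg_of_nonpos (mul_nonneg (ph_pos' hx).le (ph_pos' hy).le) ?_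
        have k1 : 0 ≤ 2 * Real.pi * β := by positivity
        have k2 : 2 * Real.pi * β ≤ 2 * Real.pi * b := by nlinarith
        have k3 : 2 * Real.pi * b ≤ Real.pi := by nlinarith
        rcases le_total |x| |y| with hxy | hxy
        · have g1 := cosh_mono le_rfl hH hxy
          have g2 := cos_mono k1 k2 k3 hx' hy' hxy
          exact mul_nonpos_of_nonpos_of_nonneg (by linarith) (by linarith)
        · have g1 := cosh_mono le_rfl hH hxy
          have g2 := cos_mono k1 k2 k3 hy' hx' hxy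
          exact mul_nonpos_of_nonneg_of_nonpos (by linarith) (by linarith))
  unfold FF
  linarith

end Pool.Agent.Helper66.RT
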