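import Pool.Agent.Helper66.RT.Cheb
import Pool.Agent.Helper65.RT.Num

/-!
# RT project: closed forms of `FF` and `AA2`
-/

set_option autoImplicit false

open MeasureTheory Set

namespace Pool.Agent.Helper66.RT

lemma int_cosh_cos (h c : ℝ) : (h ^ 2 + c ^ 2) * ∫ x in (-(1 / 2) : ℝ)..(1 / 2), Real.cosh (x * h) * Real.cos (c * x) =
    2 * (h * Real.sinh (h / 2) * Real.cos (c / 2) + c * Real.cosh (h / 2) * Real.sin (c / 2)) := by
  rw [← intervalIntegral.integral_const_mul]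
  have hd : ∀ x : ℝ, HasDerivAt (fun x => h * (Real.sinh (x * h) * Real.cos (c * x)) + c * (Real.cosh (x * h) * Real.sin (c * x)))
      ((h ^ 2 + c ^ 2) * (Real.cosh (x * h) * Real.cos (c * x))) x := by
    intro x
    have h1 : HasDerivAt (fun x : ℝ => x * h) h x := by simpa using (hasDerivAt_id x).mul_const h
    have h2 : HasDerivAt (fun x : ℝ => c * x) c x := by simpa using (hasDerivAt_id x).const_mul c
    have h3 := ((h1.sinh.mul h2.cos).const_mul h).add ((h1.cosh.mul h2.sin).const_mul c)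
    refine h3.congr_deriv ?_
    ring
  have hci : Continuous fun x : ℝ => (h ^ 2 + c ^ 2) * (Real.cosh (x * h) * Real.cos (c * x)) := by
    have : Continuous fun x : ℝ => Real.cosh (x * h) := Real.continuous_cosh.comp (by fun_prop)
    fun_prop
  rw [intervalIntegral.integral_eq_sub_of_hasDerivAt (fun x _ => hd x) (hci.intervalIntegrable _ _)]
  have e1 : (1 / 2 : ℝ) * h = h / 2 := by ring
  have e2 : -(1 / 2 : ℝ) * h = -(h / 2) := by ring
  have e3 : c * (1 / 2 : ℝ) = c / 2 := by ring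
  have e4 : c * -(1 / 2 : ℝ) = -(c / 2) := by ring
  rw [e1, e2, e3, e4, Real.sinh_neg, Real.cosh_neg, Real.cos_neg, Real.sin_neg]
  ring

/-- `q = C - 1/2` -/
lemma q_eq : (CMT - 1 / 2) * Real.sin aa = aa * Real.cos aa := by
  unfold CMT
  have := sin_aa_pos.ne'
  field_simp
  ring

/-- the closed form of the square mean -/
lemma AA2_closed (H : ℝ) : (2 * H ^ 2 + 1) * (2 * (AA2 H / I0) - 1) =
    2 * H * (CMT - 1 / 2) * Real.sinh H + Real.cosh H := by
  have h1 : AA2 H = I0 / 2 + (∫ x in (-(1 / 2) : ℝ)..(1 / 2), Real.cosh (x * (2 * H)) * Real.cos (2 * aa * x)) / 2 := by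
    unfold AA2
    rw [← int_ph, ← intervalIntegral.integral_div, ← intervalIntegral.integral_div, ← intervalIntegral.integral_add]
    · refine intervalIntegral.integral_congr fun x _ => ?_
      have e1 : Real.cosh (x * (2 * H)) = 2 * Real.cosh (x * H) ^ 2 - 1 := by
        have : x * (2 * H) = 2 * (x * H) := by ring
        rw [this, Real.cosh_two_mul, Real.sinh_sq]
        ring
      rw [e1]
      unfold ph
      ring
    · exact (ph_cont.div_const _).intervalIntegrable _ _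
    · have : Continuous fun x : ℝ => Real.cosh (x * (2 * H)) := Real.continuous_cosh.comp (by fun_prop)
      exact Continuous.intervalIntegrable (by fun_prop) _ _
  have h2 := int_cosh_cos (2 * H) (2 * aa)
  have h3 : 2 * H / 2 = H := by ring
  have h4 : 2 * aa / 2 = aa := by ring
  rw [h3, h4] at h2
  have h5 := aa_sq
  have h6 : (2 * H) ^ 2 + (2 * aa) ^ 2 = 2 * (2 * H ^ 2 + 1) := by
    linear_combination 4 * h5
  rw [h6] at h2
  have hq := q_eq
  have hI : I0 * aa = Real.sin aa := by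
    unfold I0
    have := aa_pos.ne'
    field_simp
  obtain ⟨J, hJ⟩ : ∃ J, J = ∫ x in (-(1 / 2) : ℝ)..(1 / 2), Real.cosh (x * (2 * H)) * Real.cos (2 * aa * x) := ⟨_, rfl⟩
  rw [← hJ] at h1 h2
  have h7 : 2 * (AA2 H / I0) - 1 = J / I0 := by
    rw [h1]
    have := I0_pos.ne'
    field_simp
    ring
  rw [h7]
  have h8 : J / I0 * Real.sin aa = J * aa := by
    rw [← hI]
    have := I0_pos.ne'
    field_simp
  have h9 := sin_aa_pos.ne'
  apply mul_right_cancel₀ h9
  calc (2 * H ^ 2 + 1) * (J / I0) * Real.sin aa = (2 * H ^ 2 + 1) * (J / I0 * Real.sin aa) := by ring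
    _ = (2 * H ^ 2 + 1) * J * aa := by rw [h8]; ring
    _ = _ := by linear_combination aa / 2 * h2 - 2 * H * Real.sinh H * hq + 2 * Real.cosh H * Real.sin aa * h5

/-- the closed form of the transform, `θ = π b` -/
lemma FF_closed (H b θ : ℝ) (hθ : θ = Real.pi * b) :
    ((H ^ 2 + 2 + 4 * θ ^ 2) ^ 2 - 32 * θ ^ 2) * (FF H b / I0) =
    2 * (H ^ 2 + 2 + 4 * θ ^ 2) * (H * Real.sinh (H / 2) * (CMT - 1 / 2) * Real.cos θ + Real.cosh (H / 2) * Real.cos θ +
      2 * Real.cosh (H / 2) * θ * (CMT - 1 / 2) * Real.sin θ) + 8 * θ * H * Real.sinh (H / 2) * Real.sin θ -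
      16 * θ * Real.cosh (H / 2) * ((CMT - 1 / 2) * Real.sin θ + θ * Real.cos θ) := by
  obtain ⟨J₁, hJ₁⟩ : ∃ J, J = ∫ x in (-(1 / 2) : ℝ)..(1 / 2), Real.cosh (x * H) * Real.cos ((2 * aa + 2 * θ) * x) := ⟨_, rfl⟩
  obtain ⟨J₂, hJ₂⟩ : ∃ J, J = ∫ x in (-(1 / 2) : ℝ)..(1 / 2), Real.cosh (x * H) * Real.cos ((2 * aa - 2 * θ) * x) := ⟨_, rfl⟩
  have h1 : FF H b = J₁ / 2 + J₂ / 2 := by
    have hc : Continuous fun x : ℝ => Real.cosh (x * H) := Real.continuous_cosh.comp (by fun_prop)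
    rw [hJ₁, hJ₂]
    unfold FF
    rw [← intervalIntegral.integral_div, ← intervalIntegral.integral_div, ← intervalIntegral.integral_add
      (Continuous.intervalIntegrable (by fun_prop) _ _) (Continuous.intervalIntegrable (by fun_prop) _ _)]
    refine intervalIntegral.integral_congr fun x _ => ?_
    have e1 : (2 * aa + 2 * θ) * x = 2 * aa * x + 2 * Real.pi * b * x := by rw [hθ]; ring
    have e2 : (2 * aa - 2 * θ) * x = 2 * aa * x - 2 * Real.pi * b * x := by rw [hθ]; ring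
    rw [e1, e2, Real.cos_add, Real.cos_sub]
    unfold ph
    ring
  have h2 := int_cosh_cos H (2 * aa + 2 * θ)
  have h3 := int_cosh_cos H (2 * aa - 2 * θ)
  rw [← hJ₁] at h2
  rw [← hJ₂] at h3
  have h4 : (2 * aa + 2 * θ) / 2 = aa + θ := by ring
  have h5 : (2 * aa - 2 * θ) / 2 = aa - θ := by ring
  rw [h4, Real.cos_add, Real.sin_add] at h2
  rw [h5, Real.cos_sub, Real.sin_sub] at h3
  have ha := aa_sq
  have hq := q_eq
  have hI : I0 * aa = Real.sin aa := by
    unfold I0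
    have := aa_pos.ne'
    field_simp
  have h7 : FF H b / I0 * Real.sin aa = (J₁ / 2 + J₂ / 2) * aa := by
    rw [h1, ← hI]
    have := I0_pos.ne'
    field_simp
  have h9 := sin_aa_pos.ne'
  apply mul_right_cancel₀ h9
  have h8 : ((H ^ 2 + 2 + 4 * θ ^ 2) ^ 2 - 32 * θ ^ 2) * (FF H b / I0) * Real.sin aa =
      ((H ^ 2 + 2 + 4 * θ ^ 2) ^ 2 - 32 * θ ^ 2) * ((J₁ / 2 + J₂ / 2) * aa) := by
    rw [mul_assoc, h7]
  rw [h8]
  -- the two denominators
  have d1 : H ^ 2 + (2 * aa + 2 * θ) ^ 2 = H ^ 2 + 2 + 4 * θ ^ 2 + 8 * aa * θ := by linear_combination 4 * ha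
  have d2 : H ^ 2 + (2 * aa - 2 * θ) ^ 2 = H ^ 2 + 2 + 4 * θ ^ 2 - 8 * aa * θ := by linear_combination 4 * ha
  rw [d1] at h2
  rw [d2] at h3
  linear_combination (aa / 2 * (H ^ 2 + 2 + 4 * θ ^ 2 - 8 * aa * θ)) * h2 + (aa / 2 * (H ^ 2 + 2 + 4 * θ ^ 2 + 8 * aa * θ)) * h3 +
    (32 * θ ^ 2 * aa * (J₁ + J₂) + 16 * θ * Real.sin aa * Real.sin θ * H * Real.sinh (H / 2) +
      Real.sin aa * Real.cos θ * Real.cosh (H / 2) * (4 * (H ^ 2 + 2 + 4 * θ ^ 2) - 32 * θ ^ 2) -
      32 * θ * Real.cosh (H / 2) * Real.sin θ * (CMT - 1 / 2) * Real.sin aa) * ha -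
    (2 * (H ^ 2 + 2 + 4 * θ ^ 2) * H * Real.sinh (H / 2) * Real.cos θ +
      Real.cosh (H / 2) * Real.sin θ * (4 * θ * (H ^ 2 + 2 + 4 * θ ^ 2) - 32 * aa ^ 2 * θ)) * hq

end Pool.Agent.Helper66.RT
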