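import Pool.Agent.Helper66.RT.Near4
import Pool.Agent.Helper49.RT.Cnt
import Pool.Agent.Helper49.RV.All2

/-!
# RT project: the count in a box, all `β ≤ 1/2`
-/

set_option autoImplicit false

open Finset Filter Topology MeasureTheory

namespace Pool.Agent.Helper66.RT

open Pool.Agent.Helper57.LH Pool.Agent.Helper57.PC Pool.Agent.Helper57.Zeta
open Pool.Agent.Helper57.FL (ff)
open Pool.Agent.Helper6.HM (lev one_le_mult Sc mem_Sc lev_inj)
open Pool.Agent.Helper99.HZ (hh)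
open Pool.Agent.Helper49.RT (combine2 IsoSet)
open Pool.Agent.Helper49.RV (Deep)

/-- near to an object which is not a simple critical zero, box of depth `H` -/
def NbH (T β H : ℝ) (ρ : ℂ) : Prop :=
  ∃ σ ∈ Zf T, σ ∉ Sc T ∧ |lev T ρ - lev T σ| ≤ β ∧ |σ.re - 1 / 2| * Real.log T ≤ H

/-- near to another simple critical zero -/
def RbH (T β : ℝ) (ρ : ℂ) : Prop := ∃ σ ∈ Sc T, σ ≠ ρ ∧ |lev T ρ - lev T σ| ≤ β

open Classical in
/-- the isolated zeros, box of depth `H` -/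
noncomputable def IsoH (T β H : ℝ) : Finset ℂ := (Sc T).filter (fun ρ => ¬ NbH T β H ρ ∧ ¬ RbH T β ρ)

theorem count8 {T β H g d a κ : ℝ} (hT : 1 < T) {p : ℝ → ℝ} {b : ℝ} (hp : Wt p b) (ha0 : 0 ≤ a) (ha1 : a ≤ 1)
    (hκ : 1 + g ^ 2 ≤ (4 - 2 * a) * κ + 2 * a - a ^ 2) (hnb : NearOK p b κ H β) (hH : 0 ≤ H)
    (hg0 : 0 < g) (hg1 : g ≤ 1) (hf : ∀ u, |u| ≤ β → g ≤ Gp p u) (hd0 : 0 ≤ d)
    (hd : ∀ u v : ℝ, 0 ≤ u → u ≤ 20 → 0 ≤ v → v ≤ 20 → d ≤ Pool.Agent.Helper6.RT.eta (Gp p u) +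
      Pool.Agent.Helper6.RT.eta (Gp p v) + Pool.Agent.Helper6.RT.eta (Gp p (u + v))) (_hd1 : d ≤ g ^ 2) :
    (1 + g ^ 2) * NT T + (1 - g ^ 2) * (Deep T H).card - (IsoH T β H).card * (g ^ 2 - d) - d * (2 + 2 * SN T / 20) ≤
      SN T * ∫ u, hh p u * ff T u := by
  classical
  have hS0 : 0 < SN T := SN_pos hT
  have hlog : 0 < Real.log T := Real.log_pos hT
  have hpi := Real.pi_pos
  obtain ⟨W, hW⟩ : ∃ W, W = (Sc T).filter (fun ρ => RbH T β ρ) := ⟨_, rfl⟩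
  obtain ⟨A, hA⟩ : ∃ A, A = (Sc T).filter (fun ρ => ¬ RbH T β ρ ∧ NbH T β H ρ) := ⟨_, rfl⟩
  obtain ⟨I, hI⟩ : ∃ I, I = IsoH T β H := ⟨_, rfl⟩
  have mW : ∀ ρ, ρ ∈ W ↔ ρ ∈ Sc T ∧ RbH T β ρ := fun ρ => by rw [hW, mem_filter]
  have mA : ∀ ρ, ρ ∈ A ↔ ρ ∈ Sc T ∧ ¬ RbH T β ρ ∧ NbH T β H ρ := fun ρ => by rw [hA, mem_filter]
  have mI : ∀ ρ, ρ ∈ I ↔ ρ ∈ Sc T ∧ ¬ NbH T β H ρ ∧ ¬ RbH T β ρ := fun ρ => by
    rw [hI]
    unfold IsoH
    rw [mem_filter]
  have sA : A ⊆ Sc T := fun ρ h => ((mA ρ).1 h).1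
  have sW : W ⊆ Sc T := fun ρ h => ((mW ρ).1 h).1
  have sI : I ⊆ Sc T := fun ρ h => ((mI ρ).1 h).1
  have hWI : Disjoint W I := by
    rw [disjoint_left]
    intro ρ h1 h2
    exact ((mI ρ).1 h2).2.2 ((mW ρ).1 h1).2
  have hinj : ∀ X ⊆ Sc T, Set.InjOn (lev T) (X : Set ℂ) := fun X hX ρ hρ σ hσ h => lev_inj hT ρ (hX hρ) σ (hX hσ) h
  have hdis : Disjoint (W.image (lev T)) (I.image (lev T)) := by
    rw [disjoint_left]
    intro u h1 h2
    obtain ⟨ρ, hρ, rfl⟩ := mem_image.1 h1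
    obtain ⟨σ, hσ, h3⟩ := mem_image.1 h2
    have := lev_inj hT σ (sI hσ) ρ (sW hρ) h3
    exact disjoint_left.1 hWI hρ (this ▸ hσ)
  obtain ⟨c, c1, c2, c3, c4⟩ := combine2 (W.image (lev T)) (I.image (lev T)) hdis (f := Gp p) (s := fun _ => 1) (β := β)
    (g := g) (S := SN T) (R := 20) (d := d) hg0 hg1 (Gp_even p) hf (fun _ => le_rfl) (fun _ _ => rfl)
    (by
      intro u hu
      obtain ⟨ρ, hρ, rfl⟩ := mem_image.1 hu
      obtain ⟨h0, σ, hσ, h1, h2⟩ := (mW ρ).1 hρ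
      have hσW : σ ∈ W := (mW σ).2 ⟨hσ, ρ, h0, h1.symm, by rw [abs_sub_comm]; exact h2⟩
      exact ⟨lev T σ, mem_image_of_mem _ hσW, fun h => h1 (lev_inj hT σ (sW hσW) ρ (sW hρ) h), h2⟩)
    hS0.le (by norm_num) hd0
    (by
      intro u hu
      obtain ⟨ρ, hρ, rfl⟩ := mem_image.1 hu
      have h1 := (mem_Zf.1 (mem_Sc.1 (sI hρ)).1).2
      unfold lev SN
      constructor
      · have := h1.1
        positivity
      · gcongr
        exact h1.2) hd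
  have hQ : (W ∪ I).image (lev T) = W.image (lev T) ∪ I.image (lev T) := image_union _ _
  have sQ : W ∪ I ⊆ Sc T := union_subset sW sI
  have hsum : ∀ f : ℝ → ℝ, ∑ u ∈ W.image (lev T) ∪ I.image (lev T), f u = ∑ ρ ∈ W ∪ I, f (lev T ρ) := by
    intro f
    rw [← hQ]
    exact sum_image (hinj _ sQ)
  have hall : ∀ ρ ∈ Sc T, ρ ∈ W ∪ I ∨ ρ ∈ A := by
    intro ρ hρ
    rw [mem_union, mW, mI, mA]
    tauto
  have hAQ : ∀ ρ ∈ A, ρ ∉ W ∪ I := by
    intro ρ hρ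
    rw [mem_union, mW, mI]
    have := (mA ρ).1 hρ
    tauto
  have hz := zeros4 hT hp (W ∪ I) A (a := a) (κ := κ) (w := 1 + g ^ 2) (H := H) (β := β) ha0 ha1 hκ hnb (fun ρ hρ => sQ hρ)
    (fun ρ hρ => ⟨sA hρ, hAQ ρ hρ⟩) hall (fun ρ hρ => ((mA ρ).1 hρ).2.2) c1 c2
    (fun ρ hρ => by
      have h1 := c3 (lev T ρ) (by rw [← hQ]; exact mem_image_of_mem _ hρ)
      rwa [hsum] at h1)
  rw [hsum] at c4
  simp only [hsum, mul_one] at c4
  rw [card_image_of_injOn (hinj _ sW), card_image_of_injOn (hinj _ sI)] at c4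
  have hcard : ((W ∪ I).card : ℝ) = W.card + I.card := by exact_mod_cast card_union_of_disjoint hWI
  rw [hcard] at hz
  -- all simple critical zeros and the deep zeros
  have hSc : ((Sc T).card : ℝ) = W.card + I.card + A.card := by
    have h1 : Sc T = (W ∪ I) ∪ A := by
      ext ρ
      rw [mem_union]
      constructor
      · exact hall ρ
      · rintro (h | h)
        · exact sQ h
        · exact sA h
    have h2 : Disjoint (W ∪ I) A := by
      rw [disjoint_left]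
      intro ρ h3 h4
      exact hAQ ρ h4 h3
    rw [h1, card_union_of_disjoint h2, card_union_of_disjoint hWI]
    push_cast
    ring
  have hSN : ((Sc T).card : ℝ) + (Deep T H).card ≤ NT T := by
    have h1 : Disjoint (Sc T) (Deep T H) := by
      rw [disjoint_left]
      intro ρ h3 h4
      have h5 := (mem_Sc.1 h3).2.1
      unfold Deep at h4
      rw [mem_filter, h5] at h4
      have h6 := h4.2
      simp at h6
      linarith
    have h2 : (Sc T) ∪ (Deep T H) ⊆ Zf T := by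
      intro ρ hρ
      rw [mem_union] at hρ
      rcases hρ with h | h
      · exact (mem_Sc.1 h).1
      · unfold Deep at h
        exact (mem_filter.1 h).1
    have h3 : (((Sc T) ∪ (Deep T H)).card : ℝ) = (Sc T).card + (Deep T H).card := by
      exact_mod_cast card_union_of_disjoint h1
    rw [← h3]
    calc ((((Sc T) ∪ (Deep T H)).card : ℕ) : ℝ) ≤ ∑ ρ ∈ (Sc T) ∪ (Deep T H), (mult ρ : ℝ) :=
          Pool.Agent.Helper49.RT.card_le_NT h2
      _ ≤ NT T := sum_le_sum_of_subset_of_nonneg h2 fun _ _ _ => Nat.cast_nonneg _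
  have hg2 : 0 ≤ 1 - g ^ 2 := by nlinarith
  have h5 := mul_le_mul_of_nonneg_left hSN hg2
  rw [← hI]
  nlinarith

end Pool.Agent.Helper66.RT
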