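import Pool.Agent.Helper57.ED.EdU
import Pool.Agent.Helper49.RV.All2

/-!
# RT project: the number of deep zeros, from the explicit density theorem
-/

set_option autoImplicit false

open Finset Filter Topology MeasureTheory

namespace Pool.Agent.Helper66.RT

open Pool.Agent.Helper57.LH Pool.Agent.Helper57.PC Pool.Agent.Helper57.Zeta
open Pool.Agent.Helper6.HM (lev one_le_mult st_mem)
open Pool.Agent.Helper49.RV (Deep)

lemma deep_card {T H : ℝ} (hT : 1 < T) : ((Deep T H).card : ℝ) ≤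
    2 * ∑ ρ ∈ (Zf T).filter (fun ρ => H ≤ (ρ.re - 1 / 2) * Real.log T), mx ρ := by
  classical
  have hlog : 0 < Real.log T := Real.log_pos hT
  obtain ⟨R, hR⟩ : ∃ R, R = (Zf T).filter (fun ρ => H ≤ (ρ.re - 1 / 2) * Real.log T) := ⟨_, rfl⟩
  obtain ⟨R', hR'⟩ : ∃ R', R' = (Deep T H).filter (fun σ => 1 / 2 < σ.re) := ⟨_, rfl⟩
  obtain ⟨L', hL'⟩ : ∃ L', L' = (Deep T H).filter (fun σ => ¬ 1 / 2 < σ.re) := ⟨_, rfl⟩
  have h1 : (Deep T H).card = R'.card + L'.card := by
    rw [hR', hL', card_filter_add_card_filter_not]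
  have hmD : ∀ σ, σ ∈ Deep T H ↔ σ ∈ Zf T ∧ H < |σ.re - 1 / 2| * Real.log T := fun σ => by
    unfold Deep
    rw [mem_filter]
  have h2 : R' ⊆ R := by
    intro σ hσ
    rw [hR', mem_filter, hmD] at hσ
    rw [hR, mem_filter]
    refine ⟨hσ.1.1, ?_⟩
    have h3 := hσ.1.2
    rw [abs_of_pos (by linarith [hσ.2])] at h3
    exact h3.le
  have h3 : L'.card ≤ R.card := by
    refine card_le_card_of_injOn (fun σ => 1 - starRingEnd ℂ σ) ?_ ?_
    · intro σ hσ
      rw [mem_coe, hL', mem_filter, hmD] at hσ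
      rw [mem_coe, hR, mem_filter]
      refine ⟨(st_mem hσ.1.1).1, ?_⟩
      have h4 := hσ.1.2
      have h5 := hσ.2
      push Not at h5
      have h6 : |σ.re - 1 / 2| = 1 / 2 - σ.re := by
        rw [abs_of_nonpos (by linarith)]
        ring
      rw [h6] at h4
      have e1 : (1 - starRingEnd ℂ σ).re - 1 / 2 = 1 / 2 - σ.re := by
        simp only [Complex.sub_re, Complex.one_re, Complex.conj_re]
        ring
      rw [e1]
      exact h4.le
    · intro σ _ σ' _ h
      have h4 : (1 : ℂ) - starRingEnd ℂ σ = 1 - starRingEnd ℂ σ' := h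
      have h5 : starRingEnd ℂ σ = starRingEnd ℂ σ' := by linear_combination -h4
      exact (starRingEnd ℂ).injective h5
  have h4 : (R.card : ℝ) ≤ ∑ ρ ∈ R, mx ρ := by
    have h5 : ∀ ρ ∈ R, (1:ℝ) ≤ mx ρ := by
      intro ρ hρ
      rw [hR, mem_filter] at hρ
      have h6 := one_le_mult hρ.1
      have h7 : mx ρ = (mult ρ : ℝ) := by
        unfold mx
        rw [mult_eq (mem_Zf.1 hρ.1).1]
      rw [h7]
      exact_mod_cast h6
    calc (R.card : ℝ) = ∑ ρ ∈ R, (1:ℝ) := by simp
      _ ≤ _ := sum_le_sum h5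
  have h5 : (Deep T H).card ≤ 2 * R.card := by
    rw [h1]
    have := card_le_card h2
    omega
  have h6 : ((Deep T H).card : ℝ) ≤ 2 * (R.card : ℝ) := by exact_mod_cast h5
  rw [hR] at h4 h6
  linarith

/-- **the number of deep zeros** -/
theorem deep_le {H Db : ℝ} (hH : 1 < H) (h : Real.log (1 / (1 - Real.exp (-(H - 1)))) < Db) :
    ∀ᶠ T : ℝ in atTop, ((Deep T H).card : ℝ) ≤ Db * SN T := by
  have h1 := Pool.Agent.Helper57.ED.ed_count (h0 := H - 1) (H := H)
    (ε := (Db - Real.log (1 / (1 - Real.exp (-(H - 1))))) / 2) (by linarith) (by linarith) (by linarith)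
  filter_upwards [h1, eventually_gt_atTop 1] with T h2 h3
  refine (deep_card h3).trans ?_
  have e1 : 1 / (2 * (H - (H - 1))) * Real.log (1 / (1 - Real.exp (-(H - 1)))) +
      (Db - Real.log (1 / (1 - Real.exp (-(H - 1))))) / 2 = Db / 2 := by
    have : H - (H - 1) = 1 := by ring
    rw [this]
    ring
  rw [e1] at h2
  linarith

/-- a rational form of the bound -/
lemma log_bound {x r : ℝ} (hr : 1 < r) (h : r ≤ Real.exp x) :
    Real.log (1 / (1 - Real.exp (-x))) ≤ 1 / (r - 1) := by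
  have hE := Real.exp_pos x
  have h1 : Real.exp (-x) ≤ 1 / r := by
    rw [Real.exp_neg, ← one_div]
    exact one_div_le_one_div_of_le (by linarith) h
  have h2 : 1 / r < 1 := by
    rw [div_lt_one (by linarith)]
    exact hr
  have h3 : 0 < 1 - Real.exp (-x) := by linarith
  have h4 : 1 / (1 - Real.exp (-x)) ≤ 1 / (1 - 1 / r) := one_div_le_one_div_of_le (by linarith) (by linarith)
  have h5 : 0 < 1 / (1 - Real.exp (-x)) := by positivity
  refine (Real.log_le_sub_one_of_pos h5).trans ?_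
  have h6 : 1 / (1 - 1 / r) - 1 = 1 / (r - 1) := by
    have : r ≠ 0 := by linarith
    have : r - 1 ≠ 0 := by linarith
    have : 1 - 1 / r ≠ 0 := by linarith
    field_simp
    ring
  linarith

end Pool.Agent.Helper66.RT
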