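import Pool.Agent.Helper66.RT.Fin

/-!
# RT project: the limit
-/

set_option autoImplicit false

open Finset Filter Topology MeasureTheory
open Pool.Agent.Helper57.LH Pool.Agent.Helper57.PC Pool.Agent.Helper57.Zeta
open Pool.Agent.Helper57.FL (ff)
open Pool.Agent.Helper6.HM (lev one_le_mult)
open Pool.Agent.Helper99.HZ (hh)

namespace Pool.Agent.Helper66.RT

lemma arith {x d S a N e : ℝ} (hx : 13 / 20 ≤ x) (hd0 : 0 < d) (hd1 : d ≤ 1 / 10) (he : e = d / 200) (hS : 20 ≤ S)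
    (hN : 0 ≤ N) (hN2 : N ≤ 2 * S) (h : 2 * (1 - e) * S - a - 2 * e * N + d * (a - 2 - 2 * S / 10) - 2 * e * a ≤
      S * (2 - x + 2 * e)) : (x + d / 10) * S ≤ a := by
  by_contra hlt
  push Not at hlt
  subst he
  have h1 : 0 < 1 - d + d / 100 := by linarith
  have h2 : (1 - d + d / 100) * a < (1 - d + d / 100) * ((x + d / 10) * S) := mul_lt_mul_of_pos_left hlt h1
  have h3 : d / 100 * N ≤ d / 100 * (2 * S) := mul_le_mul_of_nonneg_left hN2 (by positivity)
  have h4 : d * 20 ≤ d * S := mul_le_mul_of_nonneg_left hS hd0.le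
  have h5 : (1 - d + d / 100) * ((x + d / 10) * S) ≤ (x - 34 / 100 * d) * S := by
    have h6 : (1 - d + d / 100) * (x + d / 10) ≤ x - 34 / 100 * d := by nlinarith
    calc (1 - d + d / 100) * ((x + d / 10) * S) = ((1 - d + d / 100) * (x + d / 10)) * S := by ring
      _ ≤ _ := mul_le_mul_of_nonneg_right h6 (by linarith)
  nlinarith

open Classical in
/-- **the limit** -/
theorem final : ∃ β κ T₀ : ℝ, 0 < β ∧ 2 - CMT < κ ∧ ∀ T : ℝ, T₀ ≤ T → κ * SN T ≤ ((Is T β).card : ℝ) := by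
  obtain ⟨d₀, hd₀, hd₀'⟩ := gain (R := 10) (by norm_num)
  obtain ⟨d, hd⟩ : ∃ d, d = min d₀ (1 / 10) := ⟨_, rfl⟩
  have hd0 : 0 < d := by rw [hd]; positivity
  have hd1 : d ≤ 1 / 10 := by rw [hd]; exact min_le_right _ _
  have hdd : d ≤ d₀ := by rw [hd]; exact min_le_left _ _
  obtain ⟨e, he⟩ : ∃ e, e = d / 200 := ⟨_, rfl⟩
  have he0 : 0 < e := by rw [he]; positivity
  have he1 : e ≤ 1 := by rw [he]; linarith
  obtain ⟨p, b, hp, hen, hcl⟩ := exists_weight he0
  obtain ⟨T₁, hT₁⟩ := NT_lower e he0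
  obtain ⟨T₂, hT₂⟩ := NT_upper 1 one_pos
  obtain ⟨T₃, hT₃⟩ := Filter.eventually_atTop.1 (trace_up hp he0)
  have hβ : 0 < e / 5 := by positivity
  refine ⟨e / 5, 2 - CMT + d / 10, max (max T₁ T₂) (max T₃ 200), hβ, by linarith, fun T hT => ?_⟩
  have g1 : T₁ ≤ T := ((le_max_left _ _).trans (le_max_left _ _)).trans hT
  have g2 : T₂ ≤ T := ((le_max_right _ _).trans (le_max_left _ _)).trans hT
  have g3 : T₃ ≤ T := ((le_max_left _ _).trans (le_max_right _ _)).trans hT
  have g4 : 200 ≤ T := ((le_max_right _ _).trans (le_max_right _ _)).trans hT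
  have hT1 : 1 < T := by linarith
  have hpi := Real.pi_pos
  have hpi4 := Real.pi_lt_four
  have hlog : 1 ≤ Real.log T := by
    rw [Real.le_log_iff_exp_le (by linarith)]
    have := Real.exp_one_lt_d9
    linarith
  have hSd : SN T = T * Real.log T / (2 * Real.pi) := rfl
  have hS : 20 ≤ SN T := by
    rw [hSd, le_div_iff₀ (by positivity)]
    nlinarith
  have hc := count (T := T) (β := e / 5) (ε := e) (e := e) (d := d) (S := SN T) hT1 hp (by
      intro u hu
      refine le_trans ?_ (Gp_near hp u)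
      have h1 : u ^ 2 ≤ (2 * (e / 5)) ^ 2 := by
        rw [← sq_abs]
        exact pow_le_pow_left₀ (abs_nonneg _) hu 2
      have h2 : (Real.pi * u) ^ 2 ≤ 12 * (2 * (e / 5)) ^ 2 := by
        rw [mul_pow]
        have h3 : Real.pi ^ 2 ≤ 12 := by
          have := Real.pi_lt_d2
          nlinarith
        exact mul_le_mul h3 h1 (sq_nonneg _) (by norm_num)
      nlinarith) he0.le he1 hcl hd0.le
    (fun u v h1 h2 h3 h4 => hdd.trans (hd₀' u v h1 h2 h3 h4)) hSd
  have h1 := hT₁ T g1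
  have h2 := hT₂ T g2
  have h3 := hT₃ T g3
  have hNr : ((Nr T (e / 5)).card : ℝ) ≤ NT T := by
    have hsub : Nr T (e / 5) ⊆ Zf T := by
      intro ρ hρ
      unfold Nr Cr at hρ
      rw [Finset.mem_filter, Finset.mem_filter] at hρ
      exact hρ.1.1
    calc ((Nr T (e / 5)).card : ℝ) ≤ ((Zf T).card : ℝ) := by exact_mod_cast Finset.card_le_card hsub
      _ = ∑ ρ ∈ Zf T, (1:ℝ) := by simp
      _ ≤ NT T := Finset.sum_le_sum fun ρ hρ => by exact_mod_cast one_le_mult hρ
  have hx : 13 / 20 ≤ 2 - CMT := by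
    have := CMT_le
    linarith
  have h4 : SN T * ∫ u, hh p u * ff T u ≤ SN T * (CMT + e + e) :=
    mul_le_mul_of_nonneg_left (h3.trans (by linarith)) (by linarith)
  refine arith (e := e) (N := (Nr T (e / 5)).card) hx hd0 hd1 he hS (Nat.cast_nonneg _) ?_ ?_
  · refine hNr.trans (h2.trans (le_of_eq ?_))
    rw [← hSd]
    ring
  · have e1 : (1 - e) * SN T ≤ NT T := h1
    have e2 : SN T * (2 - (2 - CMT) + 2 * e) = SN T * (CMT + e + e) := by ring
    rw [e2]
    refine le_trans ?_ (hc.trans h4)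
    linarith

end Pool.Agent.Helper66.RT
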