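import Pool.Agent.Helper66.RT.Cnt8

/-!
# RT project: isolation from all zeros, one cell
-/

set_option autoImplicit false

open Finset Filter Topology MeasureTheory

namespace Pool.Agent.Helper66.RT

open Pool.Agent.Helper57.LH Pool.Agent.Helper57.PC Pool.Agent.Helper57.Zeta
open Pool.Agent.Helper57.FL (ff)
open Pool.Agent.Helper6.HM (lev one_le_mult Sc mem_Sc lev_inj)
open Pool.Agent.Helper99.HZ (hh)
open Pool.Agent.Helper49.RT (IsoSet IsoSet_sub in_range Ed edge eta_lip)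
open Pool.Agent.Helper49.RV (Deep all_count2)

lemma arith8 {C γ g d S a N e E D Db τ : ℝ} (hC : C ≤ 133 / 100) (hγ : 42 / 100 ≤ γ ^ 2) (hγ0 : 0 < γ) (hγ1 : γ ≤ 1)
    (hg : g = γ - e) (hge : 0 ≤ g) (hd0 : 0 < d) (hd1 : d ≤ 1 / 200) (he : e = d / 1000) (hS : 40 ≤ S)
    (hD0 : 0 ≤ D) (hD : D ≤ Db * S) (hτ0 : 0 ≤ τ) (hτ1 : τ ≤ 1 / 100) (hτ : (2 * γ ^ 2 - 1) * Db ≤ γ ^ 2 * τ)
    (hN1 : (1 - e) * S ≤ N) (hE : E ≤ e * S)
    (h : (1 + g ^ 2) * N + (1 - g ^ 2) * D - a * (g ^ 2 - d) - d * (2 + 2 * S / 20) ≤ S * (C + e + e)) :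
    (1 - (C - 1) / γ ^ 2 - τ + d / 40) * S ≤ a - D - E := by
  have he0 : 0 < e := by rw [he]; positivity
  have hγ2 : γ ^ 2 ≤ 1 := by nlinarith
  obtain ⟨y, hy⟩ : ∃ y, y = 1 - (C - 1) / γ ^ 2 := ⟨_, rfl⟩
  have hy1 : γ ^ 2 * y = γ ^ 2 - (C - 1) := by
    rw [hy]
    field_simp
  have hy2 : 214 / 1000 ≤ y := by
    by_contra hlt
    push Not at hlt
    have h1 : γ ^ 2 * y < γ ^ 2 * (214 / 1000) := mul_lt_mul_of_pos_left hlt (by linarith)
    linarith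
  rw [← hy]
  by_contra hlt
  push Not at hlt
  have g1 : γ ^ 2 - 2 * e ≤ g ^ 2 := by
    have k1 : g ^ 2 = γ ^ 2 - 2 * (γ * e) + e ^ 2 := by rw [hg]; ring
    have k2 : γ * e ≤ 1 * e := mul_le_mul_of_nonneg_right hγ1 he0.le
    have k3 := sq_nonneg e
    linarith
  have g2 : g ^ 2 ≤ γ ^ 2 := pow_le_pow_left₀ hge (by rw [hg]; linarith) 2
  have g3 : 0 < g ^ 2 - d := by linarith
  -- the deep zeros
  have h1 : (2 * g ^ 2 - 1) * D ≤ γ ^ 2 * τ * S := by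
    rcases le_or_gt (2 * g ^ 2 - 1) 0 with k | k
    · have k1 : (2 * g ^ 2 - 1) * D ≤ 0 := mul_nonpos_of_nonpos_of_nonneg k hD0
      have k2 : 0 ≤ γ ^ 2 * τ * S := by
        have : 0 ≤ S := by linarith
        positivity
      linarith
    · calc (2 * g ^ 2 - 1) * D ≤ (2 * g ^ 2 - 1) * (Db * S) := mul_le_mul_of_nonneg_left hD k.le
        _ ≤ (2 * γ ^ 2 - 1) * (Db * S) := by
            have k3 : 0 ≤ Db * S := hD0.trans hD
            exact mul_le_mul_of_nonneg_right (by linarith) k3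
        _ = (2 * γ ^ 2 - 1) * Db * S := by ring
        _ ≤ γ ^ 2 * τ * S := mul_le_mul_of_nonneg_right hτ (by linarith)
  have h2 : (g ^ 2 - d) * a < (g ^ 2 - d) * ((y - τ + d / 40 + e) * S + D) := by
    refine mul_lt_mul_of_pos_left ?_ g3
    linarith
  have hpos : 0 ≤ y - τ + d / 40 + e := by linarith
  have h3 : (g ^ 2 - d) * ((y - τ + d / 40 + e) * S) ≤ (γ ^ 2 - d) * ((y - τ + d / 40 + e) * S) :=
    mul_le_mul_of_nonneg_right (by linarith) (mul_nonneg hpos (by linarith))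
  have h4 : (γ ^ 2 - d) * (y - τ + d / 40 + e) ≤ γ ^ 2 * y - γ ^ 2 * τ - 178 / 1000 * d := by
    have k1 : (γ ^ 2 - d) * (d / 40 + e) ≤ 1 * (d / 40 + e) :=
      mul_le_mul_of_nonneg_right (by linarith) (by positivity)
    have k2 : d * (214 / 1000) ≤ d * y := mul_le_mul_of_nonneg_left hy2 hd0.le
    have k4 : d * τ ≤ d * (1 / 100) := mul_le_mul_of_nonneg_left hτ1 hd0.le
    have k3 : (γ ^ 2 - d) * (y - τ + d / 40 + e) = γ ^ 2 * y - γ ^ 2 * τ - d * y + d * τ + (γ ^ 2 - d) * (d / 40 + e) := by ring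
    rw [k3]
    linarith
  have h5 : (γ ^ 2 - d) * ((y - τ + d / 40 + e) * S) ≤ (γ ^ 2 * y - γ ^ 2 * τ - 178 / 1000 * d) * S := by
    calc (γ ^ 2 - d) * ((y - τ + d / 40 + e) * S) = ((γ ^ 2 - d) * (y - τ + d / 40 + e)) * S := by ring
      _ ≤ _ := mul_le_mul_of_nonneg_right h4 (by linarith)
  have h6 : (1 + g ^ 2) * ((1 - e) * S) ≤ (1 + g ^ 2) * N := mul_le_mul_of_nonneg_left hN1 (by positivity)
  have h7 : (1 + γ ^ 2 - 4 * e) * S ≤ (1 + g ^ 2) * ((1 - e) * S) := by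
    rw [← mul_assoc]
    refine mul_le_mul_of_nonneg_right ?_ (by linarith)
    have k1 : e * g ^ 2 ≤ e * 1 := mul_le_mul_of_nonneg_left (g2.trans hγ2) he0.le
    have k2 : (1 + g ^ 2) * (1 - e) = 1 + g ^ 2 - e - e * g ^ 2 := by ring
    rw [k2]
    linarith
  have h8 : d * 40 ≤ d * S := mul_le_mul_of_nonneg_left hS hd0.le
  have h9 : 0 ≤ d * D := mul_nonneg hd0.le hD0
  rw [hy1] at h5
  have e1 : (γ ^ 2 - (C - 1) - γ ^ 2 * τ - 178 / 1000 * d) * S = γ ^ 2 * S - C * S + S - γ ^ 2 * τ * S - 178 / 1000 * (d * S) := by ring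
  have e2 : (1 + γ ^ 2 - 4 * e) * S = S + γ ^ 2 * S - 4 * (e * S) := by ring
  have e3 : a * (g ^ 2 - d) = (g ^ 2 - d) * a := by ring
  have e4 : (g ^ 2 - d) * ((y - τ + d / 40 + e) * S + D) = (g ^ 2 - d) * ((y - τ + d / 40 + e) * S) + g ^ 2 * D - d * D := by ring
  have e5 : S * (C + e + e) = C * S + 2 * (e * S) := by ring
  have e6 : d * (2 + 2 * S / 20) = 2 * d + (d * S) / 10 := by ring
  have e7 : (1 - g ^ 2) * D = D - g ^ 2 * D := by ring
  have e8 : (2 * g ^ 2 - 1) * D = 2 * (g ^ 2 * D) - D := by ring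
  have e9 : e * S = d * S / 1000 := by rw [he]; ring
  rw [e1] at h5
  rw [e2] at h7
  rw [e3, e5, e6, e7] at h
  rw [e4] at h2
  rw [e8] at h1
  rw [e9] at h7 h
  have hdS : 0 < d * S := by
    have : 0 < S := by linarith
    positivity
  linarith

/-- **one cell** -/
theorem cell_final {b₀ H a Db : ℝ} (hcell : Cell b₀ H a (1 / 1000)) (ha0 : 0 ≤ a) (ha : a ≤ 1) (hb : b₀ ≤ 1 / 2) (hH : 0 ≤ H)
    (hcosh : Real.cosh (H / 2) ≤ 32) (hdeep : ∀ᶠ T : ℝ in atTop, ((Deep T H).card : ℝ) ≤ Db * SN T) :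
    ∃ δ T₀ : ℝ, 0 < δ ∧ ∀ T : ℝ, T₀ ≤ T → ∀ β : ℝ, 0 ≤ β → β ≤ b₀ → ∀ τ : ℝ, 0 ≤ τ → τ ≤ 1 / 100 →
      (2 * Gam β ^ 2 - 1) * Db ≤ Gam β ^ 2 * τ →
      (1 - (CMT - 1) / Gam β ^ 2 - τ + δ) * SN T ≤ ((AllSet T β).ncard : ℝ) := by
  classical
  obtain ⟨d₀, hd₀, hd₀'⟩ := gain (R := 20) (by norm_num)
  obtain ⟨d, hd⟩ : ∃ d, d = min (d₀ / 2) (1 / 200) := ⟨_, rfl⟩
  have hd0 : 0 < d := by rw [hd]; positivity
  have hd1 : d ≤ 1 / 200 := by rw [hd]; exact min_le_right _ _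
  have hdd : d ≤ d₀ / 2 := by rw [hd]; exact min_le_left _ _
  obtain ⟨e, he⟩ : ∃ e, e = d / 1000 := ⟨_, rfl⟩
  have he0 : 0 < e := by rw [he]; positivity
  have he1 : e ≤ 1 / 200000 := by rw [he]; linarith
  obtain ⟨p, b, hp, hen, hcl, hclo⟩ := exists_weight4 he0
  obtain ⟨T₁, hT₁⟩ := NT_lower e he0
  obtain ⟨T₃, hT₃⟩ := Filter.eventually_atTop.1 (trace_up hp he0)
  obtain ⟨T₄, hT₄⟩ := Filter.eventually_atTop.1 (edge (half_pos he0))
  obtain ⟨T₅, hT₅⟩ := Filter.eventually_atTop.1 hdeep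
  refine ⟨d / 40, max T₁ (max T₃ (max T₄ (max T₅ (max (Real.exp 4) 80)))), by positivity, fun T hT => ?_⟩
  have g1 : T₁ ≤ T := (le_max_left _ _).trans hT
  have hT' : max T₃ (max T₄ (max T₅ (max (Real.exp 4) 80))) ≤ T := (le_max_right _ _).trans hT
  have g3 : T₃ ≤ T := (le_max_left _ _).trans hT'
  have hT'' : max T₄ (max T₅ (max (Real.exp 4) 80)) ≤ T := (le_max_right _ _).trans hT'
  have g4 : T₄ ≤ T := (le_max_left _ _).trans hT''
  have hT''' : max T₅ (max (Real.exp 4) 80) ≤ T := (le_max_right _ _).trans hT''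
  have g6 : T₅ ≤ T := (le_max_left _ _).trans hT'''
  have g5' : max (Real.exp 4) 80 ≤ T := (le_max_right _ _).trans hT'''
  have g5 : Real.exp 4 ≤ T := (le_max_left _ _).trans g5'
  have hT0 : 0 < T := lt_of_lt_of_le (Real.exp_pos 4) g5
  have hlog : 4 ≤ Real.log T := by rwa [Real.le_log_iff_exp_le hT0]
  have hTbig : 80 ≤ T := (le_max_right _ _).trans g5'
  have hT1 : 1 < T := by linarith
  have hpi := Real.pi_pos
  have hpi4 := Real.pi_lt_four
  have hSd : SN T = T * Real.log T / (2 * Real.pi) := rfl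
  have hS : 40 ≤ SN T := by
    rw [hSd, le_div_iff₀ (by positivity)]
    nlinarith
  have hgain : ∀ u v : ℝ, 0 ≤ u → u ≤ 20 → 0 ≤ v → v ≤ 20 → d ≤ Pool.Agent.Helper6.RT.eta (Gp p u) +
      Pool.Agent.Helper6.RT.eta (Gp p v) + Pool.Agent.Helper6.RT.eta (Gp p (u + v)) := by
    intro u v h1 h2 h3 h4
    have q := hd₀' u v h1 h2 h3 h4
    have q1 := eta_lip (Gam u) (Gp p u)
    have q2 := eta_lip (Gam v) (Gp p v)
    have q3 := eta_lip (Gam (u + v)) (Gp p (u + v))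
    have r1 := hcl u
    have r2 := hcl v
    have r3 := hcl (u + v)
    have s : ∀ g, Pool.Agent.Helper66.RT.eta g = Pool.Agent.Helper6.RT.eta g := fun g => rfl
    rw [s, s, s] at q
    linarith
  have h1 := hT₁ T g1
  have h3 := hT₃ T g3
  have h4 := hT₄ T g4
  have h6 := hT₅ T g6
  have h5 : SN T * ∫ u, hh p u * ff T u ≤ SN T * (CMT + e + e) :=
    mul_le_mul_of_nonneg_left (h3.trans (by linarith)) (by linarith)
  intro β hβ0 hβ τ hτ0 hτ1 hτ
  have hβ1 : β ≤ 1 / 2 := hβ.trans hb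
  -- the correlation
  have a1 := Gam_pos_half (u := β) (by rw [abs_of_nonneg hβ0]; exact hβ1)
  have a2 : Gam β ≤ 1 := (le_abs_self _).trans (Gam_abs β)
  have a3 : 42 / 100 ≤ Gam β ^ 2 := by nlinarith
  have a4 : ∀ u, |u| ≤ β → Gam β - e ≤ Gp p u := by
    intro u hu
    have k2 : Gam β ≤ Gam |u| := Gam_anti (abs_nonneg u) hu hβ1
    have k3 : Gam |u| = Gam u := by
      rcases abs_choice u with h | h
      · rw [h]
      · rw [h, Gam_even]
    have k4 := (abs_le.1 (hcl u)).1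
    linarith
  have hnb := near_cell hp hcell ha hb hβ0 hβ he0.le he1 hclo hcosh
  have hg0 : 0 < Gam β - e := by linarith
  have hκ : 1 + (Gam β - e) ^ 2 ≤ (4 - 2 * a) * ((Gam β ^ 2 + (1 - a) ^ 2) / (4 - 2 * a)) + 2 * a - a ^ 2 := by
    have k1 : 0 < 4 - 2 * a := by linarith
    rw [mul_div_cancel₀ _ k1.ne']
    have k2 : (Gam β - e) ^ 2 ≤ Gam β ^ 2 := pow_le_pow_left₀ hg0.le (by linarith) 2
    nlinarith
  have hc := count8 (T := T) (β := β) (H := H) (g := Gam β - e) (d := d) hT1 hp ha0 ha hκ hnb hH hg0 (by linarith) a4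
    hd0.le hgain (by nlinarith)
  have hcount := arith8 (C := CMT) (γ := Gam β) (g := Gam β - e) (d := d) (e := e) (N := NT T) (E := 2 * (Ed T).card)
    (D := (Deep T H).card) (Db := Db) (τ := τ) CMT_le3 a3 (by linarith) a2 rfl hg0.le hd0 hd1 he hS (Nat.cast_nonneg _) h6 hτ0 hτ1 hτ
    h1 (by linarith) (hc.trans h5)
  refine hcount.trans ?_
  have hall := all_count2 (T := T) (b := β) (h := H) hH hβ1 hlog
  have hiso : ((IsoH T β H).card : ℝ) - (Ed T).card ≤ ((IsoSet T β H).ncard : ℝ) := by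
    have k1 := le_card_sdiff (Ed T) (IsoH T β H)
    have k2 : (IsoH T β H \ Ed T).card ≤ (IsoSet T β H).ncard := by
      rw [← Set.ncard_coe_finset]
      refine Set.ncard_le_ncard ?_ ((Zf T).finite_toSet.subset (IsoSet_sub T β H))
      intro ρ hρ
      rw [Finset.mem_coe, Finset.mem_sdiff] at hρ
      obtain ⟨hρ1, hρE⟩ := hρ
      unfold IsoH at hρ1
      rw [mem_filter, mem_Sc] at hρ1
      obtain ⟨⟨h7, h8, h9⟩, h10, h11⟩ := hρ1
      have hEd : 1 < ρ.im ∧ ρ.im ≤ T - 1 := by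
        by_contra h
        apply hρE
        unfold Ed
        rw [mem_filter]
        exact ⟨h7, h⟩
      refine ⟨h7, h8, h9, fun σ hσ hne hre => ?_⟩
      by_contra hle
      push Not at hle
      have h12 := in_range (by linarith) hβ1 hEd hσ hle hlog
      by_cases h13 : σ ∈ Sc T
      · exact h11 ⟨σ, h13, hne, hle⟩
      · exact h10 ⟨σ, h12, h13, hle, hre⟩
    have k3 : (IsoH T β H).card ≤ (IsoSet T β H).ncard + (Ed T).card := by omega
    have k4 : ((IsoH T β H).card : ℝ) ≤ ((IsoSet T β H).ncard : ℝ) + (Ed T).card := by exact_mod_cast k3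
    linarith
  linarith

end Pool.Agent.Helper66.RT
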