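import Pool.Agent.Helper66.RT.Deep2
import Pool.Agent.Helper66.RT.Fin8

/-!
# RT project: isolation from all zeros, all `β ≤ 1/2`
-/

set_option autoImplicit false

open Finset Filter Topology MeasureTheory

namespace Pool.Agent.Helper66.RT

open Pool.Agent.Helper57.LH Pool.Agent.Helper57.PC Pool.Agent.Helper57.Zeta
open Pool.Agent.Helper49.RV (Deep)

lemma cosh_H {H : ℝ} (h0 : 0 ≤ H) (h : H ≤ 83 / 10) : Real.cosh (H / 2) ≤ 32 := by
  have h1 : Real.cosh (H / 2) ≤ Real.cosh (83 / 20) := by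
    rw [Real.cosh_le_cosh, abs_of_nonneg (by positivity), abs_of_nonneg (by norm_num)]
    linarith
  refine h1.trans ?_
  rw [Real.cosh_eq]
  have h2 : Real.exp (83 / 20) ≤ 6344 / 100 := exp_le' (n := 20) (k := 83) (by norm_num) (by norm_num) (by norm_num) (by norm_num)
  have h4 : (2:ℝ) ≤ Real.exp (83 / 20) := exp_ge (n := 20) (k := 83) (by norm_num) (by norm_num) (by norm_num) (by norm_num)
  have h3 : Real.exp (-(83 / 20)) ≤ 1 / 2 := by
    rw [Real.exp_neg, ← one_div]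
    exact one_div_le_one_div_of_le (by norm_num) h4
  linarith

lemma deep_cell {H Db r : ℝ} (hH : 1 < H) (hr : 1 < r) (h : r ≤ Real.exp (H - 1)) (hD : 1 / (r - 1) < Db) :
    ∀ᶠ T : ℝ in atTop, ((Deep T H).card : ℝ) ≤ Db * SN T :=
  deep_le hH (lt_of_le_of_lt (log_bound hr h) hD)

lemma deep_6 : ∀ᶠ T : ℝ in atTop, ((Deep T (83 / 10)).card : ℝ) ≤ 1 / 1400 * SN T := by
  refine deep_cell (r := 1402) (by norm_num) (by norm_num) ?_ (by norm_num)
  exact exp_ge (n := 10) (k := 73) (by norm_num) (by norm_num) (by norm_num) (by norm_num)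

lemma deep_4 : ∀ᶠ T : ℝ in atTop, ((Deep T (37 / 5)).card : ℝ) ≤ 1 / 595 * SN T := by
  refine deep_cell (r := 600) (by norm_num) (by norm_num) ?_ (by norm_num)
  exact exp_ge (n := 5) (k := 32) (by norm_num) (by norm_num) (by norm_num) (by norm_num)

lemma deep_3 : ∀ᶠ T : ℝ in atTop, ((Deep T (32 / 5)).card : ℝ) ≤ 1 / 219 * SN T := by
  refine deep_cell (r := 221) (by norm_num) (by norm_num) ?_ (by norm_num)
  exact exp_ge (n := 5) (k := 27) (by norm_num) (by norm_num) (by norm_num) (by norm_num)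

lemma deep_5 : ∀ᶠ T : ℝ in atTop, ((Deep T (27 / 5)).card : ℝ) ≤ 1 / 80 * SN T := by
  refine deep_cell (r := 813 / 10) (by norm_num) (by norm_num) ?_ (by norm_num)
  exact exp_ge (n := 5) (k := 22) (by norm_num) (by norm_num) (by norm_num) (by norm_num)

lemma deep_2 : ∀ᶠ T : ℝ in atTop, ((Deep T (9 / 2)).card : ℝ) ≤ 1 / 32 * SN T := by
  refine deep_cell (r := 331 / 10) (by norm_num) (by norm_num) ?_ (by norm_num)
  exact exp_ge (n := 2) (k := 7) (by norm_num) (by norm_num) (by norm_num) (by norm_num)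

/-- the condition on the loss -/
lemma loss_cond {γ G Db t τ : ℝ} (hγ : 0 ≤ γ) (hγG : γ ≤ G) (hD : t ≤ 2 * Db) (hG : G ^ 2 * (2 * Db - t) ≤ Db) (hτ : t ≤ τ) :
    (2 * γ ^ 2 - 1) * Db ≤ γ ^ 2 * τ := by
  have h1 : γ ^ 2 ≤ G ^ 2 := pow_le_pow_left₀ hγ hγG 2
  have h2 : γ ^ 2 * (2 * Db - t) ≤ G ^ 2 * (2 * Db - t) := mul_le_mul_of_nonneg_right h1 (by linarith)
  have h3 : γ ^ 2 * t ≤ γ ^ 2 * τ := mul_le_mul_of_nonneg_left hτ (sq_nonneg _)
  linarith

theorem final9 : ∃ δ T₀ : ℝ, 0 < δ ∧ ∀ T : ℝ, T₀ ≤ T → ∀ β : ℝ, 0 ≤ β →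
    (β ≤ 1 / 6 → (1 - (CMT - 1) / Gam β ^ 2 - 1 / 1400 + δ) * SN T ≤ ((AllSet T β).ncard : ℝ)) ∧
    (β ≤ 1 / 4 → (1 - (CMT - 1) / Gam β ^ 2 - 1 / 600 + δ) * SN T ≤ ((AllSet T β).ncard : ℝ)) ∧
    (β ≤ 1 / 3 → (1 - (CMT - 1) / Gam β ^ 2 - 1 / 270 + δ) * SN T ≤ ((AllSet T β).ncard : ℝ)) ∧
    (β ≤ 1 / 2 → (1 - (CMT - 1) / Gam β ^ 2 - 1 / 125 + δ) * SN T ≤ ((AllSet T β).ncard : ℝ)) := by
  obtain ⟨δ₆, T₆, hδ₆, h₆⟩ := cell_final cell_6 (by norm_num) (by norm_num) (by norm_num) (by norm_num)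
    (cosh_H (by norm_num) (by norm_num)) deep_6
  obtain ⟨δ₄, T₄, hδ₄, h₄⟩ := cell_final cell_4 (by norm_num) (by norm_num) (by norm_num) (by norm_num)
    (cosh_H (by norm_num) (by norm_num)) deep_4
  obtain ⟨δ₃, T₃, hδ₃, h₃⟩ := cell_final cell_3 (by norm_num) (by norm_num) (by norm_num) (by norm_num)
    (cosh_H (by norm_num) (by norm_num)) deep_3
  obtain ⟨δ₅, T₅, hδ₅, h₅⟩ := cell_final cell_5 (by norm_num) (by norm_num) (by norm_num) (by norm_num)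
    (cosh_H (by norm_num) (by norm_num)) deep_5
  obtain ⟨δ₂, T₂, hδ₂, h₂⟩ := cell_final cell_2 (by norm_num) (by norm_num) (by norm_num) (by norm_num)
    (cosh_H (by norm_num) (by norm_num)) deep_2
  obtain ⟨δ, hδ⟩ : ∃ δ, δ = min δ₆ (min δ₄ (min δ₃ (min δ₅ δ₂))) := ⟨_, rfl⟩
  have e6 : δ ≤ δ₆ := by rw [hδ]; exact min_le_left _ _
  have e4 : δ ≤ δ₄ := by rw [hδ]; exact (min_le_right _ _).trans (min_le_left _ _)
  have e3 : δ ≤ δ₃ := by rw [hδ]; exact (min_le_right _ _).trans ((min_le_right _ _).trans (min_le_left _ _))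
  have e5 : δ ≤ δ₅ := by
    rw [hδ]; exact (min_le_right _ _).trans ((min_le_right _ _).trans ((min_le_right _ _).trans (min_le_left _ _)))
  have e2 : δ ≤ δ₂ := by
    rw [hδ]; exact (min_le_right _ _).trans ((min_le_right _ _).trans ((min_le_right _ _).trans (min_le_right _ _)))
  have hδ0 : 0 < δ := by rw [hδ]; positivity
  refine ⟨δ, max T₆ (max T₄ (max T₃ (max T₅ (max T₂ 2)))), hδ0, fun T hT β hβ0 => ?_⟩
  have t6 : T₆ ≤ T := (le_max_left _ _).trans hT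
  have s1 := (le_max_right _ _).trans hT
  have t4 : T₄ ≤ T := (le_max_left _ _).trans s1
  have s2 := (le_max_right _ _).trans s1
  have t3 : T₃ ≤ T := (le_max_left _ _).trans s2
  have s3 := (le_max_right _ _).trans s2
  have t5 : T₅ ≤ T := (le_max_left _ _).trans s3
  have s4 := (le_max_right _ _).trans s3
  have t2 : T₂ ≤ T := (le_max_left _ _).trans s4
  have hT2 : (2:ℝ) ≤ T := (le_max_right _ _).trans s4
  have hSN : 0 < SN T := SN_pos (by linarith)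
  have fin : ∀ {δ' τ R : ℝ}, δ ≤ δ' → (1 - R - τ + δ') * SN T ≤ ((AllSet T β).ncard : ℝ) →
      (1 - R - τ + δ) * SN T ≤ ((AllSet T β).ncard : ℝ) := by
    intro δ' τ R h1 h2
    refine le_trans ?_ h2
    exact mul_le_mul_of_nonneg_right (by linarith) hSN.le
  have c6 : ∀ τ : ℝ, τ ≤ 1 / 100 → 1 / 1400 ≤ τ → β ≤ 1 / 6 →
      (1 - (CMT - 1) / Gam β ^ 2 - τ + δ) * SN T ≤ ((AllSet T β).ncard : ℝ) := by
    intro τ h1 h2 h3
    have g1 := Gam_nn hβ0 (h3.trans (by norm_num))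
    have g2 : Gam β ≤ 1 := (le_abs_self _).trans (Gam_abs β)
    exact fin e6 (h₆ T t6 β hβ0 h3 τ (by linarith) h1 (loss_cond (t := 1 / 1400) (G := 1) g1 g2 (by norm_num) (by norm_num) h2))
  have c4 : ∀ τ : ℝ, τ ≤ 1 / 100 → 1 / 600 ≤ τ → 1 / 6 ≤ β → β ≤ 1 / 4 →
      (1 - (CMT - 1) / Gam β ^ 2 - τ + δ) * SN T ≤ ((AllSet T β).ncard : ℝ) := by
    intro τ h1 h2 h3 h4
    have g1 := Gam_nn hβ0 (h4.trans (by norm_num))
    have g2 : Gam β ≤ 9583 / 10000 := (Gam_anti (by norm_num) h3 (h4.trans (by norm_num))).trans Gam_6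
    exact fin e4 (h₄ T t4 β hβ0 h4 τ (by linarith) h1 (loss_cond (t := 1 / 600) g1 g2 (by norm_num) (by norm_num) h2))
  have c3 : ∀ τ : ℝ, τ ≤ 1 / 100 → 1 / 270 ≤ τ → 1 / 4 ≤ β → β ≤ 1 / 3 →
      (1 - (CMT - 1) / Gam β ^ 2 - τ + δ) * SN T ≤ ((AllSet T β).ncard : ℝ) := by
    intro τ h1 h2 h3 h4
    have g1 := Gam_nn hβ0 (h4.trans (by norm_num))
    have g2 : Gam β ≤ 909 / 1000 := (Gam_anti (by norm_num) h3 (h4.trans (by norm_num))).trans Gam_4
    exact fin e3 (h₃ T t3 β hβ0 h4 τ (by linarith) h1 (loss_cond (t := 1 / 270) g1 g2 (by norm_num) (by norm_num) h2))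
  have c5 : ∀ τ : ℝ, τ ≤ 1 / 100 → 1 / 125 ≤ τ → 1 / 3 ≤ β → β ≤ 5 / 12 →
      (1 - (CMT - 1) / Gam β ^ 2 - τ + δ) * SN T ≤ ((AllSet T β).ncard : ℝ) := by
    intro τ h1 h2 h3 h4
    have g1 := Gam_nn hβ0 (h4.trans (by norm_num))
    have g2 : Gam β ≤ 84 / 100 := (Gam_anti (by norm_num) h3 (h4.trans (by norm_num))).trans Gam_3
    exact fin e5 (h₅ T t5 β hβ0 h4 τ (by linarith) h1 (loss_cond (t := 1 / 125) g1 g2 (by norm_num) (by norm_num) h2))
  have c2 : ∀ τ : ℝ, τ ≤ 1 / 100 → 1 / 125 ≤ τ → 5 / 12 ≤ β → β ≤ 1 / 2 →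
      (1 - (CMT - 1) / Gam β ^ 2 - τ + δ) * SN T ≤ ((AllSet T β).ncard : ℝ) := by
    intro τ h1 h2 h3 h4
    have g1 := Gam_nn hβ0 h4
    have g2 : Gam β ≤ 757 / 1000 := (Gam_anti (by norm_num) h3 h4).trans Gam_5
    exact fin e2 (h₂ T t2 β hβ0 h4 τ (by linarith) h1 (loss_cond (t := 1 / 125) g1 g2 (by norm_num) (by norm_num) h2))
  refine ⟨fun h => c6 _ (by norm_num) le_rfl h, fun h => ?_, fun h => ?_, fun h => ?_⟩
  · rcases le_total β (1 / 6) with k | k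
    · exact c6 _ (by norm_num) (by norm_num) k
    · exact c4 _ (by norm_num) le_rfl k h
  · rcases le_total β (1 / 6) with k | k
    · exact c6 _ (by norm_num) (by norm_num) k
    · rcases le_total β (1 / 4) with k' | k'
      · exact c4 _ (by norm_num) (by norm_num) k k'
      · exact c3 _ (by norm_num) le_rfl k' h
  · rcases le_total β (1 / 6) with k | k
    · exact c6 _ (by norm_num) (by norm_num) k
    · rcases le_total β (1 / 4) with k' | k'
      · exact c4 _ (by norm_num) (by norm_num) k k'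
      · rcases le_total β (1 / 3) with k'' | k''
        · exact c3 _ (by norm_num) (by norm_num) k' k''
        · rcases le_total β (5 / 12) with l | l
          · exact c5 _ (by norm_num) le_rfl k'' l
          · exact c2 _ (by norm_num) le_rfl l h

end Pool.Agent.Helper66.RT
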