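import Pool.Agent.Helper66.RT.Frame3

/-!
# RT project: the finite inequality in projection form, general weights

As `Frame3`, but the near points have diagonal entry `a` and count `w`, where `w ≤ (4 - 2a) κ + 2a - a²` and `κ` is the lower bound
of the squared cosine.
-/

set_option autoImplicit false

open Matrix Finset
open scoped ComplexOrder ComplexConjugate Classical

namespace Pool.Agent.Helper66.RT

open Pool.Agent.Helper6.HM (diagdom_psd exists_root)

namespace Data3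

variable {ι : Type*} [Fintype ι] [DecidableEq ι] (D : Data3 ι)

/-- admissible test data, general weights -/
structure Adm4 (A : ι → Prop) (a κ : ℝ) (c : ι → ι → ℂ) : Prop where
  herm : ∀ i j, c j i = conj (c i j)
  supp : ∀ i j, c i j ≠ 0 → i ≠ j ∧ D.S i ∧ ¬ A i
  row : ∀ i, ∑ j, ‖c i j‖ ≤ 1
  a0 : 0 ≤ a
  a1 : a ≤ 1
  near : ∀ i, A i → D.S i ∧ ∃ k, ¬ D.S k ∧
    κ * ((D.E k k).re + (D.E (D.st k) (D.st k)).re + 2) ≤ ‖D.E k i + D.E (D.st k) i‖ ^ 2

/-- the test matrix -/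
noncomputable def C4 (A : ι → Prop) (a : ℝ) (c : ι → ι → ℂ) : Matrix {i // D.S i} {i // D.S i} ℂ := Matrix.of fun i j =>
  (if j = i then ((if A i then a else 1 : ℝ) : ℂ) else 0) + c i j

variable {D} {A : ι → Prop} {a κ : ℝ} {c : ι → ι → ℂ}

lemma Adm4.diag (h : D.Adm4 A a κ c) (i : ι) : c i i = 0 := by
  by_contra h0
  exact (h.supp i i h0).1 rfl

lemma Adm4.symm_ne (h : D.Adm4 A a κ c) {i j : ι} (h0 : c i j ≠ 0) : c j i ≠ 0 := by
  rw [h.herm i j]
  exact (map_ne_zero _).2 h0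

lemma C4_apply (i j : {i // D.S i}) : D.C4 A a c i j =
    (if j = i then ((if A i then a else 1 : ℝ) : ℂ) else 0) + c i j := rfl

lemma C4_diag (h : D.Adm4 A a κ c) (i : {i // D.S i}) : D.C4 A a c i i = ((if A i then a else 1 : ℝ) : ℂ) := by
  rw [C4_apply, if_pos rfl, h.diag, add_zero]

lemma C4_herm (h : D.Adm4 A a κ c) : (D.C4 A a c).IsHermitian := by
  ext i j
  rw [conjTranspose_apply, C4_apply, C4_apply, star_add, RCLike.star_def, ← h.herm j i]
  congr 1
  by_cases hij : i = j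
  · subst hij
    rw [if_pos rfl, Complex.conj_ofReal]
  · rw [if_neg hij, if_neg (fun e => hij e.symm), map_zero]

lemma row_sub4 (h : D.Adm4 A a κ c) (i : {i // D.S i}) : ∑ j : {i // D.S i}, ‖c i j‖ ≤ if A i then 0 else 1 := by
  by_cases hA : A i
  · rw [if_pos hA]
    refine le_of_eq (sum_eq_zero fun j _ => ?_)
    rw [norm_eq_zero]
    by_contra h0
    exact (h.supp i j h0).2.2 hA
  · rw [if_neg hA]
    refine le_trans ?_ (h.row i)
    rw [← Finset.sum_subtype (univ.filter D.S) (p := D.S) (by simp) (fun j => ‖c i j‖)]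
    exact sum_le_sum_of_subset_of_nonneg (filter_subset _ _) fun j _ _ => norm_nonneg _

lemma C4_row (h : D.Adm4 A a κ c) (i : {i // D.S i}) : ∑ j ∈ univ.erase i, ‖D.C4 A a c i j‖ ≤ if A i then 0 else 1 := by
  refine le_trans ?_ (row_sub4 h i)
  have e : ∀ j ∈ univ.erase i, ‖D.C4 A a c i j‖ = ‖c i j‖ := by
    intro j hj
    rw [C4_apply, if_neg (Finset.ne_of_mem_erase hj), zero_add]
  rw [sum_congr rfl e]
  exact sum_le_sum_of_subset_of_nonneg (erase_subset _ _) fun j _ _ => norm_nonneg _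

lemma C4_psd (h : D.Adm4 A a κ c) : (D.C4 A a c).PosSemidef := by
  refine diagdom_psd (C4_herm h) fun i => ?_
  rw [C4_diag h, Complex.ofReal_re]
  refine (C4_row h i).trans ?_
  split_ifs
  · exact h.a0
  · exact le_rfl

lemma C4_two (h : D.Adm4 A a κ c) : ((2:ℂ) • 1 - D.C4 A a c).PosSemidef := by
  refine diagdom_psd ?_ fun i => ?_
  · refine IsHermitian.sub ?_ (C4_herm h)
    ext i j
    rw [conjTranspose_apply, Matrix.smul_apply, Matrix.smul_apply, Matrix.one_apply, Matrix.one_apply]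
    by_cases hij : i = j
    · subst hij; simp
    · simp [hij, Ne.symm hij]
  · have e1 : ∑ j ∈ univ.erase i, ‖((2:ℂ) • 1 - D.C4 A a c) i j‖ = ∑ j ∈ univ.erase i, ‖D.C4 A a c i j‖ := by
      refine sum_congr rfl fun j hj => ?_
      rw [Matrix.sub_apply, Matrix.smul_apply, Matrix.one_apply, if_neg (Finset.ne_of_mem_erase hj).symm, smul_zero,
        zero_sub, norm_neg]
    rw [e1, Matrix.sub_apply, Matrix.smul_apply, Matrix.one_apply_eq, C4_diag h]
    have e2 : ((2:ℂ) • (1:ℂ) - ((if A i then a else 1 : ℝ) : ℂ)).re = 2 - (if A i then a else 1 : ℝ) := by simp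
    rw [e2]
    refine (C4_row h i).trans ?_
    have h1 := h.a1
    split_ifs
    · linarith
    · norm_num

lemma C4_sq (h : D.Adm4 A a κ c) : (D.C4 A a c * D.C4 A a c).trace.re =
    ∑ i : {i // D.S i}, ((if A i then a ^ 2 else 1 : ℝ) + ∑ j : {i // D.S i}, ‖c i j‖ ^ 2) := by
  have hh := C4_herm h
  rw [Matrix.trace, Complex.re_sum]
  refine sum_congr rfl fun i _ => ?_
  rw [diag_apply, Matrix.mul_apply, Complex.re_sum]
  have h1 : ∀ j, (D.C4 A a c i j * D.C4 A a c j i).re = (if j = i then (if A i then a ^ 2 else 1 : ℝ) else 0) + ‖c i j‖ ^ 2 := by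
    intro j
    have h2 : D.C4 A a c i j * D.C4 A a c j i = ((‖D.C4 A a c i j‖ ^ 2 : ℝ) : ℂ) := by
      rw [← hh.apply j i, RCLike.star_def, Complex.mul_conj']
      push_cast
      ring
    rw [h2, Complex.ofReal_re]
    by_cases h3 : j = i
    · subst h3
      rw [C4_diag h, h.diag, if_pos rfl, norm_zero, Complex.norm_real, Real.norm_eq_abs, sq_abs]
      split_ifs <;> norm_num
    · rw [if_neg h3, C4_apply, if_neg h3]
      simp
  simp only [h1, sum_add_distrib]
  rw [Finset.sum_ite_eq' univ i]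
  simp

/-- **the main inequality, finite form** -/
theorem main4 (h : D.Adm4 A a κ c) {w : ℝ} (hw : w ≤ (4 - 2 * a) * κ + 2 * a - a ^ 2) :
    ∑ i, (if D.S i then (if A i then w else 1) else 2 * D.m i) + ∑ i, ∑ j, (2 * (D.E j i * c i j).re - ‖c i j‖ ^ 2) ≤
    (∑ i, ∑ j, (D.m i : ℂ) * D.m j * (D.E (D.st i) j * D.E (D.st j) i)).re := by
  obtain ⟨Y, hY⟩ := exists_root D.hE
  obtain ⟨P, p1, p2, p3, p4⟩ := exists_proj (D.V2 Y)
  have h1 := trace_lower2 (D.V1 Y) (D.V2 Y) (D.W2 Y) p1 p2 p3 (C4_psd h) (C4_two h)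
  rw [B_eq, D.toData.B_sq hY, C4_sq h] at h1
  refine le_trans ?_ h1
  clear h1
  -- the projected columns
  set X : Matrix ι {i // D.S i} ℂ := P * D.V1 Y with hX
  obtain ⟨π, hπ⟩ : ∃ π : {i // D.S i} → ℝ, ∀ i, π i = ∑ k, ‖X k i‖ ^ 2 := ⟨fun i => ∑ k, ‖X k i‖ ^ 2, fun _ => rfl⟩
  have hπ0 : ∀ i, 0 ≤ π i := fun i => by rw [hπ]; positivity
  have hXX : (D.V1 Y)ᴴ * P * D.V1 Y = Xᴴ * X := by
    rw [hX, conjTranspose_mul, p2]
    calc (D.V1 Y)ᴴ * P * D.V1 Y = (D.V1 Y)ᴴ * (P * P) * D.V1 Y := by rw [p1]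
      _ = _ := by simp only [Matrix.mul_assoc]
  have hXd : ∀ i, (Xᴴ * X) i i = ((π i : ℝ) : ℂ) := by
    intro i
    rw [Matrix.mul_apply, hπ]
    push_cast
    refine sum_congr rfl fun k _ => ?_
    rw [conjTranspose_apply, RCLike.star_def, Complex.conj_mul']
  have hXo : ∀ i j, ‖(Xᴴ * X) i j‖ ≤ (π i + π j) / 2 := by
    intro i j
    rw [Matrix.mul_apply, hπ, hπ, ← sum_add_distrib, sum_div]
    refine (norm_sum_le _ _).trans (sum_le_sum fun k _ => ?_)
    rw [conjTranspose_apply, RCLike.star_def, norm_mul, RCLike.norm_conj]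
    nlinarith [sq_nonneg (‖X k i‖ - ‖X k j‖)]
  have hVV : ∀ i j, ((D.V1 Y)ᴴ * D.V1 Y) i j = D.E i j := by
    intro i j
    rw [hY, Matrix.mul_apply, Matrix.mul_apply]
    rfl
  have hEd : ∀ i : {i // D.S i}, D.E i i = 1 := by
    intro i
    have h2 : D.E i (D.st i) = 1 := D.hE1 i
    rwa [i.2.1] at h2
  -- near points
  have hnear : ∀ i : {i // D.S i}, A i → κ ≤ π i := by
    intro i hA
    obtain ⟨-, k, hk, hk2⟩ := h.near i hA
    -- pass to a selected index
    obtain ⟨k', hk'1, hk'2⟩ : ∃ k' : {i // D.Sel i},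
        κ * ((D.E k' k').re + (D.E (D.st k') (D.st k')).re + 2) ≤ ‖D.E k' i + D.E (D.st k') i‖ ^ 2 ∧ True := by
      by_cases h3 : D.Sel k
      · exact ⟨⟨k, h3⟩, hk2, trivial⟩
      · have h4 : D.st k ≠ k := fun e => h3 ⟨hk, Or.inl e⟩
        have h5 : ¬ D.up k := fun e => h3 ⟨hk, Or.inr e⟩
        have h6 : D.up (D.st k) := by
          by_contra h7
          exact h5 ((D.hup k h4).2 h7)
        have h7 : D.Sel (D.st k) := by
          refine ⟨fun e => h4 ?_, Or.inr h6⟩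
          have := e.1
          rw [D.hst] at this
          exact this.symm
        refine ⟨⟨D.st k, h7⟩, ?_, trivial⟩
        show κ * ((D.E (D.st k) (D.st k)).re + (D.E (D.st (D.st k)) (D.st (D.st k))).re + 2) ≤
          ‖D.E (D.st k) i + D.E (D.st (D.st k)) i‖ ^ 2
        rw [D.hst, add_comm (D.E (D.st k) (D.st k)).re, add_comm (D.E (D.st k) i)]
        exact hk2
    clear hk'2
    -- Cauchy-Schwarz
    have hcs : ‖∑ l, conj (D.V2 Y l k') * X l i‖ ^ 2 ≤ (∑ l, ‖D.V2 Y l k'‖ ^ 2) * π i := by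
      rw [hπ]
      calc ‖∑ l, conj (D.V2 Y l k') * X l i‖ ^ 2 ≤ (∑ l, ‖D.V2 Y l k'‖ * ‖X l i‖) ^ 2 := by
            refine pow_le_pow_left₀ (norm_nonneg _) ?_ 2
            refine (norm_sum_le _ _).trans (sum_le_sum fun l _ => ?_)
            rw [norm_mul, RCLike.norm_conj]
        _ ≤ _ := sum_mul_sq_le_sq_mul_sq _ _ _
    have hproj : ∑ l, conj (D.V2 Y l k') * X l i = ∑ l, conj (D.V2 Y l k') * Y l i := by
      have g1 : ((D.V2 Y)ᴴ * X) k' i = ((D.V2 Y)ᴴ * D.V1 Y) k' i := by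
        have : (D.V2 Y)ᴴ * X = (D.V2 Y)ᴴ * D.V1 Y := by
          rw [hX, ← Matrix.mul_assoc]
          congr 1
          calc (D.V2 Y)ᴴ * P = (Pᴴ * D.V2 Y)ᴴ := by rw [conjTranspose_mul, conjTranspose_conjTranspose]
            _ = _ := by rw [p2, p3]
        rw [this]
      rw [Matrix.mul_apply, Matrix.mul_apply] at g1
      exact g1
    have hsum : ∑ l, ‖D.V2 Y l k'‖ ^ 2 = (((D.V2 Y)ᴴ * D.V2 Y) k' k').re := by
      rw [Matrix.mul_apply, Complex.re_sum]
      refine sum_congr rfl fun l _ => ?_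
      rw [conjTranspose_apply, RCLike.star_def, Complex.conj_mul', ← Complex.ofReal_pow, Complex.ofReal_re]
    rw [hproj, V2_inner hY, hsum, V2_norm hY] at hcs
    have hm : (1:ℝ) ≤ D.m k' := by exact_mod_cast D.hm k'
    by_cases h3 : D.st k' = k'
    · rw [if_pos h3, if_pos h3, norm_mul, mul_pow, Complex.norm_real, Real.norm_eq_abs, sq_abs,
        Real.sq_sqrt (Nat.cast_nonneg _)] at hcs
      have hE1 : D.E k' k' = 1 := by
        have h2 : D.E k' (D.st k') = 1 := D.hE1 k'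
        rwa [h3] at h2
      rw [h3, hE1] at hk'1
      rw [hE1, mul_one, Complex.natCast_re] at hcs
      have h4 : ‖D.E k' i + D.E k' i‖ ^ 2 = 4 * ‖D.E k' i‖ ^ 2 := by
        rw [← two_mul, norm_mul, mul_pow]
        norm_num
      rw [h4, Complex.one_re] at hk'1
      have h5 : ‖D.E k' i‖ ^ 2 ≤ π i := by
        have : (D.m k' : ℝ) * ‖D.E k' i‖ ^ 2 ≤ D.m k' * π i := hcs
        exact le_of_mul_le_mul_left this (by linarith)
      linarith
    · rw [if_neg h3, if_neg h3, norm_mul, mul_pow, Complex.norm_real, Real.norm_eq_abs, sq_abs,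
        Real.sq_sqrt (by positivity)] at hcs
      have e1 : ((D.m k' : ℂ) / 2 * (D.E k' k' + D.E (D.st k') (D.st k') + 2)).re =
          (D.m k' : ℝ) / 2 * ((D.E k' k').re + (D.E (D.st k') (D.st k')).re + 2) := by
        have : ((D.m k' : ℂ) / 2) = (((D.m k' : ℝ) / 2 : ℝ) : ℂ) := by push_cast; rfl
        rw [this, Complex.re_ofReal_mul]
        simp
      rw [e1, mul_assoc] at hcs
      have h5 : ‖D.E k' i + D.E (D.st k') i‖ ^ 2 ≤ ((D.E k' k').re + (D.E (D.st k') (D.st k')).re + 2) * π i :=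
        le_of_mul_le_mul_left hcs (by positivity)
      have h6 : 0 ≤ (D.E k' k').re := (Complex.le_def.1 (D.hE.diag_nonneg (i := (k' : ι)))).1
      have h7 : 0 ≤ (D.E (D.st k') (D.st k')).re := (Complex.le_def.1 (D.hE.diag_nonneg (i := D.st k'))).1
      have h8 := hk'1.trans h5
      rw [mul_comm (κ : ℝ)] at h8
      exact le_of_mul_le_mul_left h8 (by linarith)
  -- the terms
  have t1 : ((D.V1 Y)ᴴ * P * D.V1 Y).trace.re = ∑ i, π i := by
    rw [hXX, Matrix.trace, Complex.re_sum]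
    refine sum_congr rfl fun i _ => ?_
    rw [diag_apply, hXd, Complex.ofReal_re]
  have t2 : ∑ i : {i // D.S i}, ((if A i then a else 1 : ℝ) * (1 - π i) - π i * ∑ j : {i // D.S i}, ‖c i j‖) +
      ∑ i : {i // D.S i}, ∑ j : {i // D.S i}, (D.E j i * c i j).re ≤
      ((D.V1 Y)ᴴ * (1 - P) * D.V1 Y * D.C4 A a c).trace.re := by
    have f1 : (D.V1 Y)ᴴ * (1 - P) * D.V1 Y = (D.V1 Y)ᴴ * D.V1 Y - Xᴴ * X := by
      rw [Matrix.mul_sub, Matrix.sub_mul, Matrix.mul_one, hXX]
    rw [f1, Matrix.sub_mul, trace_sub, Complex.sub_re]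
    have f2 : ∀ G : Matrix {i // D.S i} {i // D.S i} ℂ, (G * D.C4 A a c).trace.re =
        ∑ i : {i // D.S i}, (if A i then a else 1 : ℝ) * (G i i).re +
          ∑ i : {i // D.S i}, ∑ j : {i // D.S i}, (G j i * c i j).re := by
      intro G
      rw [Matrix.trace_mul_comm, Matrix.trace, Complex.re_sum, ← sum_add_distrib]
      refine sum_congr rfl fun i _ => ?_
      rw [diag_apply, Matrix.mul_apply]
      have g1 : ∀ j, D.C4 A a c i j * G j i = (if j = i then ((if A i then a else 1 : ℝ) : ℂ) * G j i else 0) + G j i * c i j := by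
        intro j
        rw [C4_apply, add_mul]
        congr 1
        · split_ifs <;> simp
        · ring
      simp only [g1, sum_add_distrib]
      rw [Finset.sum_ite_eq' univ i]
      simp only [mem_univ, if_true, Complex.add_re, Complex.re_sum, Complex.re_ofReal_mul]
    rw [f2, f2]
    have f3 : ∀ i : {i // D.S i}, (D.E i i).re = 1 := fun i => by rw [hEd, Complex.one_re]
    have f4 : ∀ i, ((Xᴴ * X) i i).re = π i := fun i => by rw [hXd, Complex.ofReal_re]
    have f5 : ∑ i : {i // D.S i}, ∑ j : {i // D.S i}, ((Xᴴ * X) j i * c i j).re ≤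
        ∑ i : {i // D.S i}, π i * ∑ j : {i // D.S i}, ‖c i j‖ := by
      have g1 : ∀ i j : {i // D.S i}, ((Xᴴ * X) j i * c i j).re ≤ π i / 2 * ‖c i j‖ + π j / 2 * ‖c i j‖ := by
        intro i j
        calc ((Xᴴ * X) j i * c i j).re ≤ ‖(Xᴴ * X) j i * c i j‖ := Complex.re_le_norm _
          _ = ‖(Xᴴ * X) j i‖ * ‖c i j‖ := norm_mul _ _
          _ ≤ (π j + π i) / 2 * ‖c i j‖ := mul_le_mul_of_nonneg_right (hXo j i) (norm_nonneg _)
          _ = _ := by ring
      have g2 : ∑ i : {i // D.S i}, ∑ j : {i // D.S i}, π j / 2 * ‖c i j‖ =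
          ∑ i : {i // D.S i}, ∑ j : {i // D.S i}, π i / 2 * ‖c i j‖ := by
        rw [sum_comm]
        refine sum_congr rfl fun i _ => sum_congr rfl fun j _ => ?_
        rw [h.herm i j, RCLike.norm_conj]
      calc ∑ i : {i // D.S i}, ∑ j : {i // D.S i}, ((Xᴴ * X) j i * c i j).re ≤
          ∑ i : {i // D.S i}, ∑ j : {i // D.S i}, (π i / 2 * ‖c i j‖ + π j / 2 * ‖c i j‖) :=
            sum_le_sum fun i _ => sum_le_sum fun j _ => g1 i j
        _ = ∑ i : {i // D.S i}, ∑ j : {i // D.S i}, π i / 2 * ‖c i j‖ +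
            ∑ i : {i // D.S i}, ∑ j : {i // D.S i}, π j / 2 * ‖c i j‖ := by
            simp only [sum_add_distrib]
        _ = ∑ i : {i // D.S i}, π i * ∑ j : {i // D.S i}, ‖c i j‖ := by
            rw [g2, ← sum_add_distrib]
            refine sum_congr rfl fun i _ => ?_
            rw [← sum_add_distrib, mul_sum]
            refine sum_congr rfl fun j _ => ?_
            ring
    simp only [hVV, f3, f4]
    have f6 : ∑ i : {i // D.S i}, ((if A i then a else 1 : ℝ) * (1 - π i) - π i * ∑ j : {i // D.S i}, ‖c i j‖) =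
        ∑ i : {i // D.S i}, (if A i then a else 1 : ℝ) * 1 - ∑ i : {i // D.S i}, (if A i then a else 1 : ℝ) * π i -
        ∑ i : {i // D.S i}, π i * ∑ j : {i // D.S i}, ‖c i j‖ := by
      rw [← sum_sub_distrib, ← sum_sub_distrib]
      refine sum_congr rfl fun i _ => ?_
      ring
    rw [f6]
    linarith
  have t3 : ∑ k : {i // D.Sel i}, (if D.st k = k then 2 * (D.m k : ℝ) else 2 * (D.m k : ℝ) + 2 * (D.m (D.st k) : ℝ)) ≤
      4 * ((D.V2 Y)ᴴ * D.V2 Y).trace.re - 4 * P.trace.re - 4 * ((D.W2 Y)ᴴ * D.W2 Y).trace.re := by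
    have f1 : 4 * ((D.V2 Y)ᴴ * D.V2 Y).trace.re - 4 * (Fintype.card {i // D.Sel i} : ℝ) - 4 * ((D.W2 Y)ᴴ * D.W2 Y).trace.re =
        ∑ k : {i // D.Sel i}, (4 * (((D.V2 Y)ᴴ * D.V2 Y) k k).re - 4 - 4 * (((D.W2 Y)ᴴ * D.W2 Y) k k).re) := by
      rw [Matrix.trace, Matrix.trace, Complex.re_sum, Complex.re_sum, sum_sub_distrib, sum_sub_distrib, mul_sum, mul_sum]
      simp [Finset.card_univ]
      ring
    have f2 : ∑ k : {i // D.Sel i}, (if D.st k = k then 2 * (D.m k : ℝ) else 2 * (D.m k : ℝ) + 2 * (D.m (D.st k) : ℝ)) ≤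
        ∑ k : {i // D.Sel i}, (4 * (((D.V2 Y)ᴴ * D.V2 Y) k k).re - 4 - 4 * (((D.W2 Y)ᴴ * D.W2 Y) k k).re) := by
      refine sum_le_sum fun k _ => ?_
      rw [V2_norm hY, W2_norm hY]
      have hm : (1:ℝ) ≤ D.m k := by exact_mod_cast D.hm k
      by_cases h3 : D.st k = k
      · rw [if_pos h3, if_pos h3, if_pos h3]
        have hE1 : D.E k k = 1 := by
          have h2 : D.E k (D.st k) = 1 := D.hE1 k
          rwa [h3] at h2
        have h4 : 2 ≤ D.m k := by
          have h5 : D.m k ≠ 1 := fun e => k.2.1 ⟨h3, e⟩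
          have := D.hm k
          omega
        have h5 : (2:ℝ) ≤ D.m k := by exact_mod_cast h4
        rw [hE1, mul_one, Complex.natCast_re, Complex.zero_re]
        linarith
      · rw [if_neg h3, if_neg h3, if_neg h3, D.hms]
        have e0 : ((D.m k : ℂ) / 2) = (((D.m k : ℝ) / 2 : ℝ) : ℂ) := by push_cast; rfl
        rw [e0, Complex.re_ofReal_mul, Complex.re_ofReal_mul]
        simp only [Complex.add_re, Complex.sub_re, Complex.re_ofNat]
        nlinarith
    linarith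
  -- assembly
  have a1 : ∑ i, (if D.S i then (if A i then w else 1) else 2 * D.m i) =
      ∑ i : {i // D.S i}, (if A i then w else 1) +
      ∑ k : {i // D.Sel i}, (if D.st k = k then 2 * (D.m k : ℝ) else 2 * (D.m k : ℝ) + 2 * (D.m (D.st k) : ℝ)) := by
    rw [reindex (D := D)]
    congr 1
    · refine sum_congr rfl fun i _ => ?_
      rw [if_pos i.2]
    · refine sum_congr rfl fun k _ => ?_
      by_cases h3 : D.st k = k
      · rw [if_pos h3, if_pos h3, if_neg k.2.1]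
      · have h4 : ¬ D.S (D.st k) := fun e => h3 (by have := e.1; rw [D.hst] at this; exact this.symm)
        rw [if_neg h3, if_neg h3, if_neg k.2.1, if_neg h4]
  have a2 : ∑ i, ∑ j, (2 * (D.E j i * c i j).re - ‖c i j‖ ^ 2) =
      2 * ∑ i : {i // D.S i}, ∑ j : {i // D.S i}, (D.E j i * c i j).re - ∑ i : {i // D.S i}, ∑ j : {i // D.S i}, ‖c i j‖ ^ 2 := by
    have b0 : ∀ f : ι → ℝ, (∀ i, ¬ D.S i → f i = 0) → ∑ i, f i = ∑ i : {i // D.S i}, f i := by
      intro f hf
      rw [← Finset.sum_subtype (univ.filter D.S) (p := D.S) (by simp) f, sum_filter]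
      refine sum_congr rfl fun i _ => ?_
      by_cases h3 : D.S i
      · rw [if_pos h3]
      · rw [if_neg h3, hf i h3]
    have b1 : ∀ i j, ¬ D.S i → c i j = 0 := fun i j h3 => by
      by_contra h0
      exact h3 (h.supp i j h0).2.1
    have b2 : ∀ i j, ¬ D.S j → c i j = 0 := fun i j h3 => by
      by_contra h0
      exact h3 (h.supp j i (h.symm_ne h0)).2.1
    rw [b0 _ (fun i h3 => sum_eq_zero fun j _ => by rw [b1 i j h3]; simp)]
    have b3 : ∀ i : {i // D.S i}, ∑ j, (2 * (D.E j i * c i j).re - ‖c i j‖ ^ 2) =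
        2 * ∑ j : {i // D.S i}, (D.E j i * c i j).re - ∑ j : {i // D.S i}, ‖c i j‖ ^ 2 := by
      intro i
      rw [b0 _ (fun j h3 => by rw [b2 i j h3]; simp), mul_sum, sum_sub_distrib]
    rw [sum_congr rfl fun i _ => b3 i, sum_sub_distrib, mul_sum]
  rw [a1, a2, t1]
  have a3 : ∑ i : {i // D.S i}, (if A i then w else 1) ≤
      4 * ∑ i, π i + 2 * ∑ i : {i // D.S i}, ((if A i then a else 1 : ℝ) * (1 - π i) - π i * ∑ j : {i // D.S i}, ‖c i j‖) -
      ∑ i : {i // D.S i}, (if A i then a ^ 2 else 1 : ℝ) := by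
    rw [mul_sum, mul_sum, ← sum_add_distrib, ← sum_sub_distrib]
    refine sum_le_sum fun i _ => ?_
    have h3 := row_sub4 h i
    have h4 := hπ0 i
    have h5 : 0 ≤ ∑ j : {i // D.S i}, ‖c i j‖ := sum_nonneg fun j _ => norm_nonneg _
    by_cases hA : A i
    · rw [if_pos hA, if_pos hA, if_pos hA]
      rw [if_pos hA] at h3
      have h6 : ∑ j : {i // D.S i}, ‖c i j‖ = 0 := le_antisymm h3 h5
      rw [h6]
      have h7 := hnear i hA
      have h8 := mul_le_mul_of_nonneg_left h7 (show 0 ≤ 4 - 2 * a by linarith [h.a1])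
      nlinarith
    · rw [if_neg hA, if_neg hA, if_neg hA]
      rw [if_neg hA] at h3
      nlinarith
  simp only [sum_add_distrib]
  linarith

end Data3

end Pool.Agent.Helper66.RT
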