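import Pool.Agent.Helper66.RT.Frame4
import Pool.Agent.Helper6.RT.Zeros3

/-!
# RT project: the main inequality for the zeros, box form, general box and weights
-/

set_option autoImplicit false

open MeasureTheory Set Filter Topology Matrix
open scoped ComplexOrder ComplexConjugate

namespace Pool.Agent.Helper66.RT

open Pool.Agent.Helper57.LH Pool.Agent.Helper57.PC Pool.Agent.Helper57.Zeta
open Pool.Agent.Helper57.FL (ff ff_nonneg ff_cont)
open Pool.Agent.Helper99.HZ (AA AA_psd sz sz_sz sg sg_re sym_Zf hh ex ex_cont ex_int)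
open Pool.Agent.Helper6.HM (lev st_mem one_le_mult Sc mem_Sc)
open Pool.Agent.Helper6.RT (AA_re Z3)

/-- the near condition: the squared cosine is at least `κ` in the box `|y| ≤ H`, `|d| ≤ 2πβ` -/
def NearOK (p : ℝ → ℝ) (c κ H β : ℝ) : Prop := ∀ y d : ℝ, |y| ≤ H → |d| ≤ 2 * Real.pi * β →
  κ * ∫ x in Icc (-c) c, p x * (4 * Real.cosh (x * y) ^ 2) ≤
      (∫ x in Icc (-c) c, p x * (2 * Real.cosh (x * y) * Real.cos (x * d))) ^ 2 ∧
    0 ≤ ∫ x in Icc (-c) c, p x * (2 * Real.cosh (x * y) * Real.cos (x * d))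

/-- **the main inequality for the zeros, box form** -/
theorem zeros4 {T : ℝ} (hT : 1 < T) {p : ℝ → ℝ} {b : ℝ} (hp : Wt p b) (Q A : Finset ℂ) {a κ w H β : ℝ}
    (ha0 : 0 ≤ a) (ha1 : a ≤ 1) (hw : w ≤ (4 - 2 * a) * κ + 2 * a - a ^ 2) (hnb : NearOK p b κ H β)
    (hQ : ∀ ρ ∈ Q, ρ ∈ Sc T) (hA : ∀ ρ ∈ A, ρ ∈ Sc T ∧ ρ ∉ Q) (hQA : ∀ ρ ∈ Sc T, ρ ∈ Q ∨ ρ ∈ A)
    (hA2 : ∀ ρ ∈ A, ∃ σ ∈ Zf T, σ ∉ Sc T ∧ |lev T ρ - lev T σ| ≤ β ∧ |σ.re - 1 / 2| * Real.log T ≤ H)
    {c : ℝ → ℝ → ℝ} (hc1 : ∀ u v, c u v = c v u) (hc2 : ∀ u, c u u = 0)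
    (hc3 : ∀ ρ ∈ Q, ∑ σ ∈ Q, |c (lev T ρ) (lev T σ)| ≤ 1) :
    2 * NT T - (Q.card : ℝ) - (2 - w) * (A.card : ℝ) +
      ∑ ρ ∈ Q, ∑ σ ∈ Q, (2 * Gp p (lev T ρ - lev T σ) * c (lev T ρ) (lev T σ) - c (lev T ρ) (lev T σ) ^ 2) ≤
      SN T * ∫ u, hh p u * ff T u := by
  classical
  have hL : 0 < Real.log T := Real.log_pos hT
  set D := Z3 T hp with hD
  have hS : ∀ i : {ρ : ℂ // ρ ∈ Zf T}, D.S i ↔ (i : ℂ) ∈ Sc T := by
    intro i
    rw [mem_Sc]
    have h1 : D.st i = i ↔ (i : ℂ).re = 1 / 2 := by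
      rw [Subtype.ext_iff]
      show 1 - conj (i : ℂ) = (i : ℂ) ↔ _
      rw [Complex.ext_iff]
      simp only [Complex.sub_re, Complex.one_re, Complex.conj_re, Complex.sub_im, Complex.one_im, Complex.conj_im]
      constructor
      · rintro ⟨h, -⟩; linarith
      · intro h; constructor <;> linarith
    unfold Data3.S
    rw [h1]
    show _ ∧ mult (i : ℂ) = 1 ↔ _
    exact ⟨fun h => ⟨i.2, h⟩, fun h => h.2⟩
  set c' : {ρ : ℂ // ρ ∈ Zf T} → {ρ : ℂ // ρ ∈ Zf T} → ℂ := fun i j =>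
    if (i : ℂ) ∈ Q ∧ (j : ℂ) ∈ Q then ((c (lev T i) (lev T j) : ℝ) : ℂ) else 0 with hc'
  have hSub : Q ⊆ Zf T := fun ρ hρ => (mem_Sc.1 (hQ ρ hρ)).1
  have hsum1 : ∀ f : ℂ → ℝ, ∑ j : {ρ : ℂ // ρ ∈ Zf T}, (if (j : ℂ) ∈ Q then f (j : ℂ) else 0) = ∑ σ ∈ Q, f σ := by
    intro f
    rw [Finset.sum_coe_sort (Zf T) (fun σ => if σ ∈ Q then f σ else 0), Finset.sum_ite_mem, Finset.inter_eq_right.2 hSub]
  have hadm : D.Adm4 (fun i => (i : ℂ) ∈ A) a κ c' := by
    refine ⟨fun i j => ?_, fun i j h => ?_, fun i => ?_, ha0, ha1, fun i hi => ?_⟩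
    · simp only [hc']
      by_cases h : (i : ℂ) ∈ Q ∧ (j : ℂ) ∈ Q
      · rw [if_pos h, if_pos h.symm, Complex.conj_ofReal, hc1]
      · rw [if_neg h, if_neg (fun h' => h h'.symm), map_zero]
    · simp only [hc'] at h
      by_cases h1 : (i : ℂ) ∈ Q ∧ (j : ℂ) ∈ Q
      · rw [if_pos h1] at h
        refine ⟨fun e => ?_, (hS i).2 (hQ _ h1.1), fun h' => (hA _ h').2 h1.1⟩
        subst e
        rw [hc2] at h
        exact h (by simp)
      · rw [if_neg h1] at h
        exact absurd rfl h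
    · by_cases h : (i : ℂ) ∈ Q
      · have h1 := hc3 _ h
        have h2 : ∑ j, ‖c' i j‖ = ∑ σ ∈ Q, |c (lev T i) (lev T σ)| := by
          rw [← hsum1]
          refine Finset.sum_congr rfl fun j _ => ?_
          simp only [hc']
          by_cases h3 : (j : ℂ) ∈ Q
          · rw [if_pos ⟨h, h3⟩, if_pos h3, Complex.norm_real, Real.norm_eq_abs]
          · rw [if_neg (fun h' => h3 h'.2), if_neg h3, norm_zero]
        rw [h2]
        exact h1
      · have h2 : ∑ j, ‖c' i j‖ = 0 := by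
          refine Finset.sum_eq_zero fun j _ => ?_
          simp only [hc']
          rw [if_neg (fun h' => h h'.1), norm_zero]
        rw [h2]
        norm_num
    · have hi0 := hA _ hi
      refine ⟨(hS i).2 hi0.1, ?_⟩
      obtain ⟨σ, hσ, hσS, hσ1, hσ2⟩ := hA2 _ hi
      refine ⟨⟨σ, hσ⟩, fun h => hσS ((hS _).1 h), ?_⟩
      have hire : (i : ℂ).re = 1 / 2 := (mem_Sc.1 hi0.1).2.1
      set y : ℝ := Real.log T * (σ.re - 1 / 2) with hy
      set d : ℝ := Real.log T * ((i : ℂ).im - σ.im) with hd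
      have hy5 : |y| ≤ H := by
        rw [hy, abs_mul, abs_of_pos hL, mul_comm]
        exact hσ2
      have hd5 : |d| ≤ 2 * Real.pi * β := by
        have h1 : d = 2 * Real.pi * (lev T i - lev T σ) := by
          rw [hd]
          unfold lev
          have := Real.pi_pos
          field_simp
        rw [h1, abs_mul, abs_of_pos (by positivity)]
        have := Real.pi_pos
        nlinarith
      have hstim : ((sz (sym_Zf T) ⟨σ, hσ⟩ : {ρ : ℂ // ρ ∈ Zf T}) : ℂ).im = σ.im := by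
        show (1 - conj σ).im = σ.im
        simp
      have hstre : ((sz (sym_Zf T) ⟨σ, hσ⟩ : {ρ : ℂ // ρ ∈ Zf T}) : ℂ).re = 1 - σ.re := sg_re _
      have k1 := AA_re hp (Real.log T) (⟨σ, hσ⟩ : {ρ : ℂ // ρ ∈ Zf T}) ⟨σ, hσ⟩
      have k2 := AA_re hp (Real.log T) (sz (sym_Zf T) ⟨σ, hσ⟩) (sz (sym_Zf T) ⟨σ, hσ⟩)
      have k3 := AA_re hp (Real.log T) (⟨σ, hσ⟩ : {ρ : ℂ // ρ ∈ Zf T}) i
      have k4 := AA_re hp (Real.log T) (sz (sym_Zf T) ⟨σ, hσ⟩) i
      rw [hstre] at k2 k4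
      rw [hstim] at k4
      simp only [sub_self, mul_zero, Real.cos_zero, mul_one] at k1 k2
      rw [hire] at k3 k4
      have a1 : ∀ x : ℝ, x * (Real.log T * (σ.re + σ.re - 1)) = 2 * (x * y) := by intro x; rw [hy]; ring
      have a2 : ∀ x : ℝ, x * (Real.log T * (1 - σ.re + (1 - σ.re) - 1)) = -(2 * (x * y)) := by intro x; rw [hy]; ring
      have a3 : ∀ x : ℝ, x * (Real.log T * (σ.re + 1 / 2 - 1)) = x * y := by intro x; rw [hy]; ring
      have a4 : ∀ x : ℝ, x * (Real.log T * (1 - σ.re + 1 / 2 - 1)) = -(x * y) := by intro x; rw [hy]; ring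
      have a5 : ∀ x : ℝ, x * (Real.log T * ((i : ℂ).im - σ.im)) = x * d := by intro x; rw [hd]
      simp only [a1] at k1
      simp only [a2] at k2
      simp only [a3, a5] at k3
      simp only [a4, a5] at k4
      have hcI : ∀ {f : ℝ → ℝ}, Continuous f → Integrable (fun x => p x * f x) (volume.restrict (Icc (-b) b)) := by
        intro f hf
        exact (hp.cont.mul hf).continuousOn.integrableOn_compact isCompact_Icc
      have hmass : ∫ x in Icc (-b) b, p x = 1 := by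
        rw [setIntegral_eq_integral_of_forall_compl_eq_zero hp.out, hp.mass]
      have e1 : (AA (Real.log T) (Zf T) p b ⟨σ, hσ⟩ ⟨σ, hσ⟩).re +
          (AA (Real.log T) (Zf T) p b (sz (sym_Zf T) ⟨σ, hσ⟩) (sz (sym_Zf T) ⟨σ, hσ⟩)).re + 2 =
          ∫ x in Icc (-b) b, p x * (4 * Real.cosh (x * y) ^ 2) := by
        have h2 : ∫ x in Icc (-b) b, 2 * p x = 2 := by rw [integral_const_mul, hmass, mul_one]
        have i1 : Integrable (fun x => p x * Real.exp (2 * (x * y))) (volume.restrict (Icc (-b) b)) := hcI (by fun_prop)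
        have i2 : Integrable (fun x => p x * Real.exp (-(2 * (x * y)))) (volume.restrict (Icc (-b) b)) := hcI (by fun_prop)
        have i3 : Integrable (fun x => 2 * p x) (volume.restrict (Icc (-b) b)) :=
          (hp.cont.continuousOn.integrableOn_compact isCompact_Icc).const_mul _
        have h7 : (∫ x in Icc (-b) b, p x * Real.exp (2 * (x * y))) + (∫ x in Icc (-b) b, p x * Real.exp (-(2 * (x * y)))) +
            ∫ x in Icc (-b) b, 2 * p x =
            ∫ x in Icc (-b) b, (p x * Real.exp (2 * (x * y)) + p x * Real.exp (-(2 * (x * y))) + 2 * p x) := by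
          rw [← integral_add i1 i2]
          exact (integral_add (i1.add i2) i3).symm
        rw [h2] at h7
        rw [k1, k2, h7]
        refine integral_congr_ae (Eventually.of_forall fun x => ?_)
        simp only
        rw [Real.cosh_eq]
        have h3 : Real.exp (2 * (x * y)) = Real.exp (x * y) ^ 2 := by
          rw [← Real.exp_nat_mul]
          norm_num
        have h4 : Real.exp (-(2 * (x * y))) = Real.exp (-(x * y)) ^ 2 := by
          rw [← Real.exp_nat_mul]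
          congr 1
          push_cast
          ring
        have h5 : Real.exp (x * y) * Real.exp (-(x * y)) = 1 := by
          rw [← Real.exp_add]
          simp
        rw [h3, h4]
        linear_combination (-2 * p x) * h5
      have e2 : (AA (Real.log T) (Zf T) p b ⟨σ, hσ⟩ i).re + (AA (Real.log T) (Zf T) p b (sz (sym_Zf T) ⟨σ, hσ⟩) i).re =
          ∫ x in Icc (-b) b, p x * (2 * Real.cosh (x * y) * Real.cos (x * d)) := by
        rw [k3, k4, ← integral_add (hcI (by fun_prop)) (hcI (by fun_prop))]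
        refine integral_congr_ae (Eventually.of_forall fun x => ?_)
        simp only
        rw [Real.cosh_eq]
        ring
      have h6 := hnb y d hy5 hd5
      show κ * ((AA (Real.log T) (Zf T) p b ⟨σ, hσ⟩ ⟨σ, hσ⟩).re +
        (AA (Real.log T) (Zf T) p b (sz (sym_Zf T) ⟨σ, hσ⟩) (sz (sym_Zf T) ⟨σ, hσ⟩)).re + 2) ≤
        ‖AA (Real.log T) (Zf T) p b ⟨σ, hσ⟩ i + AA (Real.log T) (Zf T) p b (sz (sym_Zf T) ⟨σ, hσ⟩) i‖ ^ 2
      rw [e1]
      refine h6.1.trans ?_
      refine pow_le_pow_left₀ h6.2 ?_ 2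
      rw [← e2, ← Complex.add_re]
      exact Complex.re_le_norm _
  have hmain := Data3.main4 hadm hw
  have hSubA : A ⊆ Zf T := fun ρ hρ => (mem_Sc.1 (hA ρ hρ).1).1
  have hsumA : ∑ j : {ρ : ℂ // ρ ∈ Zf T}, (if (j : ℂ) ∈ A then (1:ℝ) else 0) = A.card := by
    rw [Finset.sum_coe_sort (Zf T) (fun σ => if σ ∈ A then (1:ℝ) else 0), Finset.sum_ite_mem, Finset.inter_eq_right.2 hSubA]
    simp
  have e1 : ∑ i, (if D.S i then (if (i : ℂ) ∈ A then w else 1) else 2 * D.m i) =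
      2 * NT T - (Q.card : ℝ) - (2 - w) * (A.card : ℝ) := by
    have h1 : ∀ i : {ρ : ℂ // ρ ∈ Zf T}, (if D.S i then (if (i : ℂ) ∈ A then w else 1) else 2 * D.m i) =
        2 * (mult (i : ℂ) : ℝ) - (if (i : ℂ) ∈ Q then (fun _ : ℂ => (1:ℝ)) (i : ℂ) else 0) -
          (2 - w) * (if (i : ℂ) ∈ A then (1:ℝ) else 0) := by
      intro i
      have h2 := hS i
      by_cases h3 : (i : ℂ) ∈ Sc T
      · rw [if_pos (h2.2 h3), (mem_Sc.1 h3).2.2]
        by_cases h4 : (i : ℂ) ∈ A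
        · rw [if_pos h4, if_pos h4, if_neg (hA _ h4).2]
          push_cast
          ring
        · rw [if_neg h4, if_neg h4, if_pos ((hQA _ h3).resolve_right h4)]
          norm_num
      · rw [if_neg (fun h => h3 (h2.1 h)), if_neg (fun h => h3 (hQ _ h)), if_neg (fun h => h3 (hA _ h).1), sub_zero,
          mul_zero, sub_zero]
        rfl
    rw [Finset.sum_congr rfl fun i _ => h1 i, Finset.sum_sub_distrib, Finset.sum_sub_distrib, hsum1 (fun _ => 1),
      ← Finset.mul_sum, ← Finset.mul_sum, hsumA, Finset.sum_coe_sort (Zf T) (fun ρ => (mult ρ : ℝ))]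
    simp [NT]
  have e2 : ∑ i, ∑ j, (2 * (D.E j i * c' i j).re - ‖c' i j‖ ^ 2) =
      ∑ ρ ∈ Q, ∑ σ ∈ Q, (2 * Gp p (lev T ρ - lev T σ) * c (lev T ρ) (lev T σ) - c (lev T ρ) (lev T σ) ^ 2) := by
    rw [← hsum1]
    refine Finset.sum_congr rfl fun i _ => ?_
    by_cases h : (i : ℂ) ∈ Q
    · rw [if_pos h, ← hsum1]
      refine Finset.sum_congr rfl fun j _ => ?_
      simp only [hc']
      by_cases h3 : (j : ℂ) ∈ Q
      · rw [if_pos ⟨h, h3⟩, if_pos h3]
        have h4 : D.E j i = ((Gp p (lev T i - lev T j) : ℝ) : ℂ) := by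
          show AA (Real.log T) (Zf T) p b j i = _
          rw [AA_crit hp (Real.log T) (mem_Sc.1 (hQ _ h3)).2.1 (mem_Sc.1 (hQ _ h)).2.1]
          congr 2
          unfold lev
          ring
        rw [h4, ← Complex.ofReal_mul, Complex.ofReal_re, Complex.norm_real, Real.norm_eq_abs, sq_abs]
        ring
      · rw [if_neg (fun h' => h3 h'.2), if_neg h3]
        simp
    · rw [if_neg h]
      refine Finset.sum_eq_zero fun j _ => ?_
      simp only [hc']
      rw [if_neg (fun h' => h h'.1)]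
      simp
  have e3 : (∑ i, ∑ j, (D.m i : ℂ) * D.m j * (D.E (D.st i) j * D.E (D.st j) i)).re =
      SN T * ∫ u, hh p u * ff T u := by
    rw [← trace_id hT hp]
    congr 1
    refine Finset.sum_congr rfl fun i _ => ?_
    refine Finset.sum_congr rfl fun j _ => ?_
    have h3 : ∀ k : {ρ : ℂ // ρ ∈ Zf T}, (D.m k : ℂ) = (mx (k : ℂ) : ℂ) := by
      intro k
      show ((mult (k : ℂ) : ℕ) : ℂ) = _
      rw [mult_eq (mem_Zf.1 k.2).1]
      unfold mx
      simp
    rw [h3, h3]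
    rfl
  rw [e2, e3] at hmain
  refine le_trans (le_of_eq ?_) hmain
  rw [← e1]
  congr 1
  refine Finset.sum_congr rfl fun i _ => ?_
  split_ifs <;> rfl

end Pool.Agent.Helper66.RT
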