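import Pool.Agent.Helper66.RT.Wgt4
import Pool.Agent.Helper66.RT.Cells
import Pool.Agent.Helper66.RT.Zeros4

/-!
# RT project: the near condition in a cell
-/

set_option autoImplicit false

open MeasureTheory Set Filter Topology

namespace Pool.Agent.Helper66.RT

lemma FF_even (h β : ℝ) : FF (-h) β = FF h β := by
  unfold FF
  refine intervalIntegral.integral_congr fun x _ => ?_
  have : x * -h = -(x * h) := by ring
  rw [this, Real.cosh_neg]

lemma AA2_even (h : ℝ) : AA2 (-h) = AA2 h := by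
  unfold AA2
  refine intervalIntegral.integral_congr fun x _ => ?_
  have : x * -h = -(x * h) := by ring
  rw [this, Real.cosh_neg]

lemma AA2_ge (h : ℝ) : I0 ≤ AA2 h := by
  rw [← int_ph]
  unfold AA2
  have hc : Continuous fun x : ℝ => Real.cosh (x * h) := Real.continuous_cosh.comp (by fun_prop)
  have hk := ph_cont
  refine intervalIntegral.integral_mono_on (by norm_num) (Continuous.intervalIntegrable (by fun_prop) _ _)
    (Continuous.intervalIntegrable (by fun_prop) _ _) fun x hx => ?_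
  have h1 := ph_pos' hx
  have h2 := Real.one_le_cosh (x * h)
  have h3 : 1 ≤ Real.cosh (x * h) * Real.cosh (x * h) := by nlinarith
  nlinarith

lemma FF_ge {h β : ℝ} (hβ0 : 0 ≤ β) (hβ : β ≤ 1 / 2) : FF 0 β ≤ FF h β := by
  unfold FF
  have hc : Continuous fun x : ℝ => Real.cosh (x * h) := Real.continuous_cosh.comp (by fun_prop)
  have hc0 : Continuous fun x : ℝ => Real.cosh (x * 0) := Real.continuous_cosh.comp (by fun_prop)
  have hk := ph_cont
  refine intervalIntegral.integral_mono_on (by norm_num) (Continuous.intervalIntegrable (by fun_prop) _ _)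
    (Continuous.intervalIntegrable (by fun_prop) _ _) fun x hx => ?_
  have h1 := ph_pos' hx
  have h2 := Real.one_le_cosh (x * h)
  have h3 := cos_nn hβ0 hβ (abs_le.2 ⟨by linarith [hx.1], hx.2⟩)
  rw [mul_zero, Real.cosh_zero]
  refine mul_le_mul_of_nonneg_left ?_ h1.le
  exact mul_le_mul_of_nonneg_right h2 h3

/-- from the corner of the cell to all of the cell -/
lemma cell_all {b H a m h β : ℝ} (hcell : Cell b H a m) (hm : 0 ≤ m) (ha : a ≤ 1) (hb : b ≤ 1 / 2) (hβ0 : 0 ≤ β) (hβ : β ≤ b)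
    (hh : 0 ≤ h) (hH : h ≤ H) :
    (1 + m) * (Gam β ^ 2 + (1 - a) ^ 2) * (AA2 h / I0) ≤ (4 - 2 * a) * (FF h β / I0) ^ 2 := by
  have hI := I0_pos
  have h1 := FF_AA2 (β := β) hh hH hβ0 (hβ.trans hb) (lt_of_lt_of_le hI (AA2_ge h))
  have h2 := FF_ratio (H := H) (hh.trans hH) hβ0 hβ hb
  unfold Cell at hcell
  rw [FF_zero] at hcell
  -- normalised quantities
  obtain ⟨f, hf⟩ : ∃ f, f = FF h β / I0 := ⟨_, rfl⟩
  obtain ⟨F, hF⟩ : ∃ F, F = FF H β / I0 := ⟨_, rfl⟩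
  obtain ⟨F₀, hF₀⟩ : ∃ F, F = FF H b / I0 := ⟨_, rfl⟩
  obtain ⟨A, hA⟩ : ∃ A, A = AA2 h / I0 := ⟨_, rfl⟩
  obtain ⟨A₀, hA₀⟩ : ∃ A, A = AA2 H / I0 := ⟨_, rfl⟩
  have hg0 := FF_zero b
  have hg := FF_zero β
  have hgb : 0 < Gam b := by
    have := Gam_pos_half (u := b) (by rw [abs_of_nonneg (hβ0.trans hβ)]; exact hb)
    linarith
  have hgβ : Gam b ≤ Gam β := Gam_anti hβ0 hβ hb
  have hA1 : 1 ≤ A := by
    rw [hA, le_div_iff₀ hI, one_mul]
    exact AA2_ge h
  have hA2 : 1 ≤ A₀ := by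
    rw [hA₀, le_div_iff₀ hI, one_mul]
    exact AA2_ge H
  have k1 : F ^ 2 * A ≤ A₀ * f ^ 2 := by
    have e1 : F ^ 2 * A = FF H β ^ 2 * AA2 h / I0 ^ 3 := by rw [hF, hA]; field_simp
    have e2 : A₀ * f ^ 2 = AA2 H * FF h β ^ 2 / I0 ^ 3 := by rw [hf, hA₀]; field_simp
    rw [e1, e2]
    gcongr
  have k2 : Gam β * F₀ ≤ F * Gam b := by
    have e1 : Gam β * F₀ = FF 0 β * FF H b / I0 ^ 2 := by rw [← hg, hF₀]; field_simp
    have e2 : F * Gam b = FF H β * FF 0 b / I0 ^ 2 := by rw [← hg0, hF]; field_simp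
    rw [e1, e2]
    gcongr
  have hF₀0 : 0 ≤ F₀ := by
    rw [hF₀]
    refine div_nonneg ?_ hI.le
    have h3 := FF_ge (h := H) (hβ0.trans hβ) hb
    have h4 : 0 ≤ FF 0 b := by
      have h5 : FF 0 b = Gam b * I0 := by rw [← hg0]; field_simp
      rw [h5]
      positivity
    linarith
  rw [← hf, ← hA]
  rw [← hA₀, ← hF₀] at hcell
  have hgβ0 : 0 < Gam β := lt_of_lt_of_le hgb hgβ
  clear hf hF hF₀ hA hA₀ hg0 hg h1 h2
  -- the corner inequality times `(Γ(β)/Γ(b))²`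
  have k3 : (Gam β * F₀) ^ 2 ≤ (F * Gam b) ^ 2 := pow_le_pow_left₀ (mul_nonneg hgβ0.le hF₀0) k2 2
  have k4 : (1 + m) * (Gam β ^ 2 + (1 - a) ^ 2) * Gam b ^ 2 ≤ (1 + m) * (Gam b ^ 2 + (1 - a) ^ 2) * Gam β ^ 2 := by
    have h5 : Gam b ^ 2 ≤ Gam β ^ 2 := pow_le_pow_left₀ hgb.le hgβ 2
    have h6 : (1 + m) * (1 - a) ^ 2 * Gam b ^ 2 ≤ (1 + m) * (1 - a) ^ 2 * Gam β ^ 2 :=
      mul_le_mul_of_nonneg_left h5 (by positivity)
    linarith
  have k5 : (1 + m) * (Gam β ^ 2 + (1 - a) ^ 2) * A₀ * Gam b ^ 2 ≤ (4 - 2 * a) * F ^ 2 * Gam b ^ 2 := by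
    calc (1 + m) * (Gam β ^ 2 + (1 - a) ^ 2) * A₀ * Gam b ^ 2 = (1 + m) * (Gam β ^ 2 + (1 - a) ^ 2) * Gam b ^ 2 * A₀ := by ring
      _ ≤ (1 + m) * (Gam b ^ 2 + (1 - a) ^ 2) * Gam β ^ 2 * A₀ := mul_le_mul_of_nonneg_right k4 (by linarith)
      _ = (1 + m) * (Gam b ^ 2 + (1 - a) ^ 2) * A₀ * Gam β ^ 2 := by ring
      _ ≤ (4 - 2 * a) * F₀ ^ 2 * Gam β ^ 2 := mul_le_mul_of_nonneg_right hcell (sq_nonneg _)
      _ = (4 - 2 * a) * (Gam β * F₀) ^ 2 := by ring
      _ ≤ (4 - 2 * a) * (F * Gam b) ^ 2 := mul_le_mul_of_nonneg_left k3 (by linarith)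
      _ = _ := by ring
  have k6 : (1 + m) * (Gam β ^ 2 + (1 - a) ^ 2) * A₀ ≤ (4 - 2 * a) * F ^ 2 := le_of_mul_le_mul_right k5 (by positivity)
  have k7 : (1 + m) * (Gam β ^ 2 + (1 - a) ^ 2) * A * A₀ ≤ (4 - 2 * a) * f ^ 2 * A₀ := by
    calc (1 + m) * (Gam β ^ 2 + (1 - a) ^ 2) * A * A₀ = (1 + m) * (Gam β ^ 2 + (1 - a) ^ 2) * A₀ * A := by ring
      _ ≤ (4 - 2 * a) * F ^ 2 * A := mul_le_mul_of_nonneg_right k6 (by linarith)
      _ = (4 - 2 * a) * (F ^ 2 * A) := by ring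
      _ ≤ (4 - 2 * a) * (A₀ * f ^ 2) := mul_le_mul_of_nonneg_left k1 (by linarith)
      _ = _ := by ring
  exact le_of_mul_le_mul_right k7 (by linarith)

/-- **the near condition in a cell** -/
theorem near_cell {p : ℝ → ℝ} {c b H a β ε : ℝ} (hp : Wt p c) (hcell : Cell b H a (1 / 1000)) (ha : a ≤ 1) (hb : b ≤ 1 / 2)
    (hβ0 : 0 ≤ β) (hβ : β ≤ b) (_hε0 : 0 ≤ ε) (hε : ε ≤ 1 / 200000) (hclo : Clo p ε) (hcosh : Real.cosh (H / 2) ≤ 32) :
    NearOK p c ((Gam β ^ 2 + (1 - a) ^ 2) / (4 - 2 * a)) H β := by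
  intro y d hy hd
  have hI := I0_pos
  have hpc := hp.cont
  have hk := ph_cont
  have hc1 := hp.c1
  have hcc : Continuous fun x : ℝ => Real.cosh (x * y) := Real.continuous_cosh.comp (by fun_prop)
  -- to the interval `[-1/2,1/2]`
  have hbox : ∀ f : ℝ → ℝ, ∫ x in Icc (-c) c, p x * f x = ∫ x in (-(1 / 2) : ℝ)..(1 / 2), p x * f x := by
    intro f
    rw [setIntegral_eq_integral_of_forall_compl_eq_zero (fun x hx => by rw [hp.out x hx, zero_mul]),
      int_box (f := fun x => p x * f x) (fun x hx => by rw [hp.supp x (by linarith), zero_mul])]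
  rw [hbox, hbox]
  have hcell' := cell_all (h := |y|) hcell (by norm_num) ha hb hβ0 hβ (abs_nonneg y) hy
  have ey1 : AA2 |y| = AA2 y := by
    rcases abs_choice y with h | h <;> rw [h]
    exact AA2_even y
  have ey2 : FF |y| β = FF y β := by
    rcases abs_choice y with h | h <;> rw [h]
    exact FF_even y β
  rw [ey1, ey2] at hcell'
  -- the square mean
  have h1 : ∫ x in (-(1 / 2) : ℝ)..(1 / 2), p x * (4 * Real.cosh (x * y) ^ 2) ≤ (1 + ε) * (4 * (AA2 y / I0)) := by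
    have e : (1 + ε) * (4 * (AA2 y / I0)) = ∫ x in (-(1 / 2) : ℝ)..(1 / 2),
        (1 + ε) * (ph x / I0) * (4 * Real.cosh (x * y) ^ 2) := by
      unfold AA2
      rw [← intervalIntegral.integral_div, ← intervalIntegral.integral_const_mul, ← intervalIntegral.integral_const_mul]
      refine intervalIntegral.integral_congr fun x _ => ?_
      ring
    rw [e]
    refine intervalIntegral.integral_mono_on (by norm_num) (Continuous.intervalIntegrable (by fun_prop) _ _)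
      (Continuous.intervalIntegrable (by fun_prop) _ _) fun x hx => ?_
    exact mul_le_mul_of_nonneg_right (hclo.up x hx) (by positivity)
  -- the transform
  have hch : ∀ x ∈ Icc (-(1 / 2) : ℝ) (1 / 2), Real.cosh (x * y) ≤ 32 := by
    intro x hx
    refine le_trans ?_ hcosh
    rw [Real.cosh_le_cosh, abs_mul, abs_div, abs_of_pos (by norm_num : (0:ℝ) < 2)]
    have hx' : |x| ≤ 1 / 2 := abs_le.2 ⟨by linarith [hx.1], hx.2⟩
    have hH0 : 0 ≤ H := (abs_nonneg y).trans hy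
    rw [abs_of_nonneg hH0]
    calc |x| * |y| ≤ 1 / 2 * H := mul_le_mul hx' hy (abs_nonneg _) (by norm_num)
      _ = _ := by ring
  have h2 : 2 * (FF y β / I0) - 64 * ε ≤ ∫ x in (-(1 / 2) : ℝ)..(1 / 2), p x * (2 * Real.cosh (x * y) * Real.cos (x * d)) := by
    have e1 : 2 * (FF y β / I0) = ∫ x in (-(1 / 2) : ℝ)..(1 / 2),
        ph x / I0 * (2 * Real.cosh (x * y) * Real.cos (2 * Real.pi * β * x)) := by
      unfold FF
      rw [← intervalIntegral.integral_div, ← intervalIntegral.integral_const_mul]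
      refine intervalIntegral.integral_congr fun x _ => ?_
      ring
    have g1 : ∫ x in (-(1 / 2) : ℝ)..(1 / 2), p x * (2 * Real.cosh (x * y) * Real.cos (2 * Real.pi * β * x)) ≤
        ∫ x in (-(1 / 2) : ℝ)..(1 / 2), p x * (2 * Real.cosh (x * y) * Real.cos (x * d)) := by
      refine intervalIntegral.integral_mono_on (by norm_num) (Continuous.intervalIntegrable (by fun_prop) _ _)
        (Continuous.intervalIntegrable (by fun_prop) _ _) fun x hx => ?_
      have hx' : |x| ≤ 1 / 2 := abs_le.2 ⟨by linarith [hx.1], hx.2⟩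
      refine mul_le_mul_of_nonneg_left (mul_le_mul_of_nonneg_left (cos_box (hβ.trans hb) hx' hd) ?_) (hp.nn x)
      have := Real.cosh_pos (x * y)
      linarith
    have g2 : ∫ x in (-(1 / 2) : ℝ)..(1 / 2), (ph x / I0 * (2 * Real.cosh (x * y) * Real.cos (2 * Real.pi * β * x)) -
        p x * (2 * Real.cosh (x * y) * Real.cos (2 * Real.pi * β * x))) ≤
        ∫ x in (-(1 / 2) : ℝ)..(1 / 2), 64 * |p x - ph x / I0| := by
      refine intervalIntegral.integral_mono_on (by norm_num) (Continuous.intervalIntegrable (by fun_prop) _ _)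
        (Continuous.intervalIntegrable (by fun_prop) _ _) fun x hx => ?_
      have e2 : ph x / I0 * (2 * Real.cosh (x * y) * Real.cos (2 * Real.pi * β * x)) -
        p x * (2 * Real.cosh (x * y) * Real.cos (2 * Real.pi * β * x)) =
        -(p x - ph x / I0) * (2 * Real.cosh (x * y) * Real.cos (2 * Real.pi * β * x)) := by ring
      rw [e2]
      refine (le_abs_self _).trans ?_
      rw [abs_mul, abs_neg, mul_comm]
      refine mul_le_mul_of_nonneg_right ?_ (abs_nonneg _)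
      rw [abs_mul, abs_mul, abs_of_pos (by norm_num : (0:ℝ) < 2), abs_of_pos (Real.cosh_pos _)]
      have g3 := hch x hx
      have g4 := Real.abs_cos_le_one (2 * Real.pi * β * x)
      have g5 := Real.cosh_pos (x * y)
      calc 2 * Real.cosh (x * y) * |Real.cos (2 * Real.pi * β * x)| ≤ 2 * 32 * 1 :=
            mul_le_mul (by linarith) g4 (abs_nonneg _) (by norm_num)
        _ = 64 := by norm_num
    rw [intervalIntegral.integral_sub (Continuous.intervalIntegrable (by fun_prop) _ _)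
      (Continuous.intervalIntegrable (by fun_prop) _ _), intervalIntegral.integral_const_mul, ← e1] at g2
    have g3 := hclo.l1
    linarith
  obtain ⟨P, hP⟩ : ∃ P, P = ∫ x in (-(1 / 2) : ℝ)..(1 / 2), p x * (2 * Real.cosh (x * y) * Real.cos (x * d)) := ⟨_, rfl⟩
  obtain ⟨M, hM⟩ : ∃ M, M = ∫ x in (-(1 / 2) : ℝ)..(1 / 2), p x * (4 * Real.cosh (x * y) ^ 2) := ⟨_, rfl⟩
  obtain ⟨F, hF⟩ : ∃ F, F = FF y β / I0 := ⟨_, rfl⟩
  obtain ⟨A, hA⟩ : ∃ A, A = AA2 y / I0 := ⟨_, rfl⟩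
  obtain ⟨g, hg⟩ : ∃ g, g = Gam β ^ 2 + (1 - a) ^ 2 := ⟨_, rfl⟩
  have hF1 : 653 / 1000 ≤ F := by
    have h3 := FF_ge (h := y) hβ0 (hβ.trans hb)
    have h4 := Gam_pos_half (u := β) (by rw [abs_of_nonneg hβ0]; exact hβ.trans hb)
    rw [← FF_zero β] at h4
    rw [hF]
    refine h4.trans ?_
    gcongr
  have hA1 : 1 ≤ A := by
    rw [hA, le_div_iff₀ hI, one_mul]
    exact AA2_ge y
  have hg0 : 0 ≤ g := by rw [hg]; positivity
  rw [← hP, ← hF] at h2
  rw [← hM, ← hA] at h1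
  rw [← hF, ← hA, ← hg] at hcell'
  rw [← hP, ← hM, ← hg]
  clear hP hM hF hA hg
  have hP0 : 2 * F * (1 - 1 / 4000) ≤ P := by
    have : 64 * ε ≤ 2 * F * (1 / 4000) := by nlinarith
    linarith
  have ha2 : 0 < 4 - 2 * a := by linarith
  refine ⟨?_, le_trans (by nlinarith) hP0⟩
  have n1 : (2 * F * (1 - 1 / 4000)) ^ 2 ≤ P ^ 2 := pow_le_pow_left₀ (by nlinarith) hP0 2
  refine le_trans ?_ n1
  rw [div_mul_eq_mul_div, div_le_iff₀ ha2]
  have n2 : g * M ≤ g * ((1 + ε) * (4 * A)) := mul_le_mul_of_nonneg_left h1 hg0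
  have n3 : g * ((1 + ε) * (4 * A)) ≤ g * ((1 + 1 / 4000) * (4 * A)) := by
    refine mul_le_mul_of_nonneg_left (mul_le_mul_of_nonneg_right (by linarith) (by linarith)) hg0
  have n4 : (1 + 1 / 1000) * (g * A) ≤ (4 - 2 * a) * F ^ 2 := by linarith
  have n5 : 0 ≤ g * A := mul_nonneg hg0 (by linarith)
  have n6 : 0 ≤ (4 - 2 * a) * F ^ 2 := mul_nonneg ha2.le (sq_nonneg _)
  have n7 : g * ((1 + 1 / 4000) * (4 * A)) ≤ (2 * F * (1 - 1 / 4000)) ^ 2 * (4 - 2 * a) := by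
    have e1 : g * ((1 + 1 / 4000) * (4 * A)) = 4 * (1 + 1 / 4000) * (g * A) := by ring
    have e2 : (2 * F * (1 - 1 / 4000)) ^ 2 * (4 - 2 * a) = 4 * (1 - 1 / 4000) ^ 2 * ((4 - 2 * a) * F ^ 2) := by ring
    rw [e1, e2]
    nlinarith
  linarith

end Pool.Agent.Helper66.RT
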