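import Pool.Agent.Helper6.HM.Polar

/-!
# RT project: the trace inequality in projection form
-/

set_option autoImplicit false

open Matrix Finset
open scoped ComplexOrder ComplexConjugate

namespace Pool.Agent.Helper66.RT

open Pool.Agent.Helper6.HM (polar proj_compl tr_re transfer)

variable {ι κ μ ν : Type*} [Fintype ι] [DecidableEq ι] [Fintype κ] [DecidableEq κ] [Fintype μ] [DecidableEq μ] [Fintype ν]
  [DecidableEq ν]

/-- the projection on the span of the columns -/
theorem exists_proj (V : Matrix ι μ ℂ) : ∃ P : Matrix ι ι ℂ, P * P = P ∧ Pᴴ = P ∧ P * V = V ∧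
    P.trace.re ≤ Fintype.card μ := by
  obtain ⟨U, u1, u2, u3⟩ := polar V
  have hPh : (U * Uᴴ)ᴴ = U * Uᴴ := by rw [conjTranspose_mul, conjTranspose_conjTranspose]
  refine ⟨U * Uᴴ, u1, hPh, ?_, ?_⟩
  · have h1 : (((1 - U * Uᴴ) * V)ᴴ * ((1 - U * Uᴴ) * V)).trace = 0 := by
      have e1 : ((1 - U * Uᴴ) * V)ᴴ * ((1 - U * Uᴴ) * V) = Vᴴ * V - Vᴴ * (U * Uᴴ) * V := by
        rw [conjTranspose_mul, conjTranspose_sub, conjTranspose_one, hPh]
        calc Vᴴ * (1 - U * Uᴴ) * ((1 - U * Uᴴ) * V) = Vᴴ * ((1 - U * Uᴴ) * (1 - U * Uᴴ)) * V := by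
              simp only [Matrix.mul_assoc]
          _ = Vᴴ * (1 - U * Uᴴ) * V := by
              congr 2
              rw [Matrix.mul_sub, Matrix.sub_mul, Matrix.sub_mul, u1]
              simp
          _ = _ := by rw [Matrix.mul_sub, Matrix.sub_mul, Matrix.mul_one]
      rw [e1, trace_sub, ← u3]
      have e2 : (Uᴴ * V * (Vᴴ * U)).trace = (Vᴴ * (U * Uᴴ) * V).trace := by
        calc (Uᴴ * V * (Vᴴ * U)).trace = (Vᴴ * U * (Uᴴ * V)).trace := trace_mul_comm _ _
          _ = _ := by simp only [Matrix.mul_assoc]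
      rw [e2, sub_self]
    have h2 : (1 - U * Uᴴ) * V = 0 := by
      rwa [trace_conjTranspose_mul_self_eq_zero_iff] at h1
    rw [Matrix.sub_mul, Matrix.one_mul, sub_eq_zero] at h2
    exact h2.symm
  · have h1 := tr_re (proj_compl u2 (by rw [conjTranspose_mul, conjTranspose_conjTranspose]))
    rw [trace_sub, trace_one, Complex.sub_re, trace_mul_comm Uᴴ U] at h1
    simp only [Complex.natCast_re] at h1
    linarith

/-- **the trace inequality** -/
theorem trace_lower2 (V₁ : Matrix ι κ ℂ) (V₂ : Matrix ι μ ℂ) (W : Matrix ι ν ℂ) {P : Matrix ι ι ℂ} (p1 : P * P = P)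
    (p2 : Pᴴ = P) (p3 : P * V₂ = V₂) {C : Matrix κ κ ℂ} (h0 : C.PosSemidef) (h2 : ((2:ℂ) • 1 - C).PosSemidef) :
    4 * (V₁ᴴ * P * V₁).trace.re + 2 * (V₁ᴴ * (1 - P) * V₁ * C).trace.re - (C * C).trace.re + 4 * (V₂ᴴ * V₂).trace.re -
      4 * P.trace.re - 4 * (Wᴴ * W).trace.re ≤
      ((V₁ * V₁ᴴ + V₂ * V₂ᴴ - W * Wᴴ) * (V₁ * V₁ᴴ + V₂ * V₂ᴴ - W * Wᴴ)).trace.re := by
  obtain ⟨Q, hQ⟩ : ∃ Q : Matrix ι ι ℂ, Q = 1 - P := ⟨_, rfl⟩
  rw [← hQ]
  have q1 : Q * Q = Q := by
    rw [hQ, Matrix.mul_sub, Matrix.sub_mul, Matrix.sub_mul, p1]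
    simp
  have q2 : Qᴴ = Q := by rw [hQ, conjTranspose_sub, conjTranspose_one, p2]
  have q3 : Q * V₂ = 0 := by rw [hQ, Matrix.sub_mul, Matrix.one_mul, p3, sub_self]
  have qp : Q * P = 0 := by rw [hQ, Matrix.sub_mul, Matrix.one_mul, p1, sub_self]
  have pq : P * Q = 0 := by rw [hQ, Matrix.mul_sub, Matrix.mul_one, p1, sub_self]
  obtain ⟨D, d0, d2, d3, d4⟩ := transfer (Q * V₁) h0 h2
  have hDh : Dᴴ = D := d0.1
  set T : Matrix ι ι ℂ := (2:ℂ) • P + Q * D * Q with hT
  have hTh : Tᴴ = T := by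
    rw [hT, conjTranspose_add, conjTranspose_smul, p2, conjTranspose_mul, conjTranspose_mul, q2, hDh, Matrix.mul_assoc]
    simp
  have hT2 : ((2:ℂ) • 1 - T).PosSemidef := by
    have e : (2:ℂ) • 1 - T = Qᴴ * ((2:ℂ) • 1 - D) * Q := by
      rw [q2, Matrix.mul_sub, Matrix.sub_mul, Matrix.mul_smul, Matrix.mul_one, Matrix.smul_mul, q1, hT, hQ, smul_sub]
      abel
    rw [e]
    exact d2.conjTranspose_mul_mul_same Q
  set B : Matrix ι ι ℂ := V₁ * V₁ᴴ + V₂ * V₂ᴴ - W * Wᴴ with hB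
  have hBh : Bᴴ = B := by
    rw [hB, conjTranspose_sub, conjTranspose_add, conjTranspose_mul, conjTranspose_mul, conjTranspose_mul,
      conjTranspose_conjTranspose, conjTranspose_conjTranspose, conjTranspose_conjTranspose]
  have h3 := tr_re (posSemidef_conjTranspose_mul_self (B - T))
  rw [conjTranspose_sub, hBh, hTh] at h3
  have e3 : ((B - T) * (B - T)).trace = (B * B).trace - 2 * (B * T).trace + (T * T).trace := by
    have e : (B - T) * (B - T) = B * B - B * T - T * B + T * T := by noncomm_ring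
    rw [e, trace_add, trace_sub, trace_sub, trace_mul_comm T B]
    ring
  rw [e3] at h3
  -- `Tr T²`
  have eT : (T * T).trace = 4 * P.trace + (Q * D * Q * D).trace := by
    have e : T * T = (4:ℂ) • P + Q * D * Q * (D * Q) := by
      rw [hT, Matrix.add_mul, Matrix.mul_add, Matrix.mul_add, Matrix.smul_mul, Matrix.mul_smul, p1, smul_smul]
      have z1 : (2:ℂ) • P * (Q * D * Q) = 0 := by
        rw [Matrix.smul_mul, ← Matrix.mul_assoc, ← Matrix.mul_assoc, pq]
        simp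
      have z2 : Q * D * Q * ((2:ℂ) • P) = 0 := by
        rw [Matrix.mul_smul, Matrix.mul_assoc (Q * D), qp]
        simp
      have z3 : Q * D * Q * (Q * D * Q) = Q * D * Q * (D * Q) := by
        calc Q * D * Q * (Q * D * Q) = Q * D * (Q * Q) * (D * Q) := by simp only [Matrix.mul_assoc]
          _ = _ := by rw [q1]
      rw [z1, z2, z3]
      norm_num
    rw [e, trace_add, trace_smul, smul_eq_mul]
    congr 1
    calc (Q * D * Q * (D * Q)).trace = ((Q * D * Q * D) * Q).trace := by simp only [Matrix.mul_assoc]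
      _ = (Q * (Q * D * Q * D)).trace := trace_mul_comm _ _
      _ = ((Q * Q) * D * Q * D).trace := by simp only [Matrix.mul_assoc]
      _ = _ := by rw [q1]
  have eD : (Q * D * Q * D).trace.re ≤ (D * D).trace.re := by
    have x1 : ((P * D)ᴴ * (P * D)).trace = (P * D * D).trace := by
      rw [conjTranspose_mul, p2, hDh]
      calc (D * P * (P * D)).trace = (D * ((P * P) * D)).trace := by simp only [Matrix.mul_assoc]
        _ = (D * (P * D)).trace := by rw [p1]
        _ = ((P * D) * D).trace := trace_mul_comm _ _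
        _ = _ := rfl
    have x2 : ((Q * D * P)ᴴ * (Q * D * P)).trace = (Q * D * P * D).trace := by
      rw [conjTranspose_mul, conjTranspose_mul, p2, hDh, q2]
      calc (P * (D * Q) * (Q * D * P)).trace = (P * (D * (Q * Q) * D * P)).trace := by simp only [Matrix.mul_assoc]
        _ = (D * (Q * Q) * D * P * P).trace := trace_mul_comm _ _
        _ = (D * (Q * D * P)).trace := by rw [q1]; simp only [Matrix.mul_assoc, p1]
        _ = (Q * D * P * D).trace := trace_mul_comm _ _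
    have e : (D * D).trace = (Q * D * Q * D).trace + (((P * D)ᴴ * (P * D)).trace + ((Q * D * P)ᴴ * (Q * D * P)).trace) := by
      rw [x1, x2, ← trace_add, ← trace_add]
      congr 1
      have hQP : Q + P = 1 := by rw [hQ]; abel
      calc D * D = (Q + P) * (D * ((Q + P) * D)) := by rw [hQP]; simp
        _ = Q * D * Q * D + Q * D * P * D + P * D * ((Q + P) * D) := by noncomm_ring
        _ = Q * D * Q * D + Q * D * P * D + P * D * D := by rw [hQP, Matrix.one_mul]
        _ = _ := by abel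
    have y1 := tr_re (posSemidef_conjTranspose_mul_self (P * D))
    have y2 := tr_re (posSemidef_conjTranspose_mul_self (Q * D * P))
    rw [e, Complex.add_re, Complex.add_re]
    linarith
  -- `Tr B T`
  have h4 := tr_re (hT2.conjTranspose_mul_mul_same W)
  have e4 : (Wᴴ * ((2:ℂ) • 1 - T) * W).trace = 2 * (Wᴴ * W).trace - (W * Wᴴ * T).trace := by
    rw [Matrix.mul_sub, Matrix.sub_mul, trace_sub, Matrix.mul_smul, Matrix.mul_one, Matrix.smul_mul, trace_smul, smul_eq_mul]
    congr 1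
    calc (Wᴴ * T * W).trace = (W * (Wᴴ * T)).trace := trace_mul_comm _ _
      _ = _ := by rw [Matrix.mul_assoc]
  rw [e4] at h4
  have f1 : (V₁ * V₁ᴴ * T).trace = 2 * (V₁ᴴ * P * V₁).trace + (V₁ᴴ * Q * V₁ * C).trace := by
    rw [hT, Matrix.mul_add, trace_add, Matrix.mul_smul, trace_smul, smul_eq_mul]
    congr 1
    · congr 1
      calc (V₁ * V₁ᴴ * P).trace = (V₁ * (V₁ᴴ * P)).trace := by simp only [Matrix.mul_assoc]
        _ = _ := trace_mul_comm _ _
    · calc (V₁ * V₁ᴴ * (Q * D * Q)).trace = ((V₁ * V₁ᴴ * Q * D) * Q).trace := by simp only [Matrix.mul_assoc]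
        _ = (Q * (V₁ * V₁ᴴ * Q * D)).trace := trace_mul_comm _ _
        _ = ((Q * V₁) * (Q * V₁)ᴴ * D).trace := by rw [conjTranspose_mul, q2]; simp only [Matrix.mul_assoc]
        _ = ((Q * V₁)ᴴ * (Q * V₁) * C).trace := d3
        _ = (V₁ᴴ * (Q * Q) * V₁ * C).trace := by rw [conjTranspose_mul, q2]; simp only [Matrix.mul_assoc]
        _ = _ := by rw [q1]
  have f2 : (V₂ * V₂ᴴ * T).trace = 2 * (V₂ᴴ * V₂).trace := by
    rw [hT, Matrix.mul_add, trace_add, Matrix.mul_smul, trace_smul, smul_eq_mul]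
    have g1 : (V₂ * V₂ᴴ * P).trace = (V₂ᴴ * V₂).trace := by
      calc (V₂ * V₂ᴴ * P).trace = (V₂ * (V₂ᴴ * P)).trace := by simp only [Matrix.mul_assoc]
        _ = (V₂ᴴ * P * V₂).trace := trace_mul_comm _ _
        _ = (V₂ᴴ * (P * V₂)).trace := by rw [Matrix.mul_assoc]
        _ = _ := by rw [p3]
    have g2 : (V₂ * V₂ᴴ * (Q * D * Q)).trace = 0 := by
      calc (V₂ * V₂ᴴ * (Q * D * Q)).trace = ((V₂ * V₂ᴴ * Q * D) * Q).trace := by simp only [Matrix.mul_assoc]
        _ = (Q * (V₂ * V₂ᴴ * Q * D)).trace := trace_mul_comm _ _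
        _ = ((Q * V₂) * (V₂ᴴ * Q * D)).trace := by simp only [Matrix.mul_assoc]
        _ = 0 := by rw [q3]; simp
    rw [g1, g2, add_zero]
  have e5 : (B * T).trace = 2 * (V₁ᴴ * P * V₁).trace + (V₁ᴴ * Q * V₁ * C).trace + 2 * (V₂ᴴ * V₂).trace - (W * Wᴴ * T).trace := by
    rw [hB, Matrix.sub_mul, Matrix.add_mul, trace_sub, trace_add, f1, f2]
  rw [e5, eT] at h3
  simp only [Complex.add_re, Complex.sub_re, Complex.mul_re, Complex.re_ofNat, Complex.im_ofNat, zero_mul, sub_zero] at h3 h4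
  linarith

end Pool.Agent.Helper66.RT
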