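import Pool.Agent.Helper66.RT.Wgt
import Pool.Agent.Helper66.RT.Cheb

/-!
# RT project: weights close to the Montgomery-Taylor window, with pointwise control
-/

set_option autoImplicit false

open MeasureTheory Set Filter Topology

namespace Pool.Agent.Helper66.RT

open Pool.Agent.Helper99.HZ (hh)

/-- the `L¹` distance -/
lemma pw_L1 {δ : ℝ} (h0 : 0 < δ) (h1 : δ ≤ 1 / 10) (hZ : 0 < Zc δ) :
    ∫ x in (-(1 / 2) : ℝ)..(1 / 2), |pw δ x - ph x / I0| ≤ 2 * (I0 - Zc δ) / I0 := by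
  have hw := pw_wt h0 h1 hZ
  have hc := ph_cont
  have hp := hw.cont
  have hk := cut_cont δ
  have hI := I0_pos
  have hZI := Zc_le (by linarith : δ < 1 / 2)
  have hb : ∫ x in (-(1 / 2) : ℝ)..(1 / 2), (ph x * cut δ x * (1 / Zc δ - 1 / I0) + (ph x - ph x * cut δ x) / I0) =
      2 * (I0 - Zc δ) / I0 := by
    rw [intervalIntegral.integral_add (Continuous.intervalIntegrable (by fun_prop) _ _)
      (Continuous.intervalIntegrable (by fun_prop) _ _), intervalIntegral.integral_mul_const, intervalIntegral.integral_div,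
      intervalIntegral.integral_sub (Continuous.intervalIntegrable (by fun_prop) _ _)
      (Continuous.intervalIntegrable (by fun_prop) _ _), int_ph]
    have : ∫ x in (-(1 / 2) : ℝ)..(1 / 2), ph x * cut δ x = Zc δ := rfl
    rw [this]
    field_simp
    ring
  rw [← hb]
  refine intervalIntegral.integral_mono_on (by norm_num) (Continuous.intervalIntegrable (by fun_prop) _ _)
    (Continuous.intervalIntegrable (by fun_prop) _ _) fun x hx => ?_
  have g1 := (ph_pos (box_abs hx)).le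
  have g2 := cut_nonneg (by linarith : δ < 1 / 2) x
  have g3 := cut_le (by linarith : δ < 1 / 2) x
  have g4 : pw δ x - ph x / I0 = ph x * cut δ x * (1 / Zc δ - 1 / I0) - (ph x - ph x * cut δ x) / I0 := by
    unfold pw
    ring
  rw [g4]
  have g6 : 0 ≤ ph x * cut δ x * (1 / Zc δ - 1 / I0) := by
    refine mul_nonneg (mul_nonneg g1 g2) ?_
    rw [sub_nonneg]
    exact one_div_le_one_div_of_le hZ hZI
  have g7 : 0 ≤ (ph x - ph x * cut δ x) / I0 := div_nonneg (by nlinarith) hI.le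
  rw [abs_le]
  constructor <;> linarith

/-- the pointwise control -/
structure Clo (p : ℝ → ℝ) (ε : ℝ) : Prop where
  up : ∀ x ∈ Icc (-(1 / 2) : ℝ) (1 / 2), p x ≤ (1 + ε) * (ph x / I0)
  l1 : ∫ x in (-(1 / 2) : ℝ)..(1 / 2), |p x - ph x / I0| ≤ ε

theorem exists_weight4 {ε : ℝ} (hε : 0 < ε) : ∃ (p : ℝ → ℝ) (c : ℝ), Wt p c ∧
    hh p 0 + (∫ u, |u| * hh p u) ≤ CMT + ε ∧ (∀ u, |Gp p u - Gam u| ≤ ε) ∧ Clo p ε := by
  have hI := I0_pos
  have hC := CMT_pos
  obtain ⟨e, he⟩ : ∃ e, e = min (1 / 2) (min (ε / (6 * CMT)) (ε / 2)) := ⟨_, rfl⟩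
  have he0 : 0 < e := by rw [he]; positivity
  have he1 : e ≤ 1 / 2 := by rw [he]; exact min_le_left _ _
  have he2 : e ≤ ε / (6 * CMT) := by rw [he]; exact (min_le_right _ _).trans (min_le_left _ _)
  have he3 : e ≤ ε / 2 := by rw [he]; exact (min_le_right _ _).trans (min_le_right _ _)
  obtain ⟨δ, hδ⟩ : ∃ δ, δ = min (1 / 10) (e * I0 / 4) := ⟨_, rfl⟩
  have hδ0 : 0 < δ := by rw [hδ]; positivity
  have hδ1 : δ ≤ 1 / 10 := by rw [hδ]; exact min_le_left _ _
  have hδ2 : δ ≤ e * I0 / 4 := by rw [hδ]; exact min_le_right _ _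
  have hZ1 : I0 * (1 - e) ≤ Zc δ := by
    have := Zc_ge hδ0 hδ1
    nlinarith
  have hZ : 0 < Zc δ := lt_of_lt_of_le (by have : 0 < 1 - e := by linarith
                                           positivity) hZ1
  refine ⟨pw δ, (1 - 2 * δ) / 2, pw_wt hδ0 hδ1 hZ, ?_, fun u => ?_, ⟨fun x hx => ?_, ?_⟩⟩
  · refine (pw_energy hδ0 hδ1 hZ).trans ?_
    have h1 : (I0 / Zc δ) ^ 2 ≤ 1 + 6 * e := by
      rw [div_pow, div_le_iff₀ (by positivity)]
      have h2 : I0 ^ 2 * (1 - e) ^ 2 ≤ Zc δ ^ 2 := by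
        rw [← mul_pow]
        exact pow_le_pow_left₀ (mul_nonneg hI.le (by linarith)) hZ1 2
      have h3 : 1 ≤ (1 + 6 * e) * (1 - e) ^ 2 := by
        have : (1 + 6 * e) * (1 - e) ^ 2 = 1 + e * ((1 - 2 * e) * (4 - 3 * e)) := by ring
        rw [this]
        have : 0 ≤ e * ((1 - 2 * e) * (4 - 3 * e)) := mul_nonneg he0.le (mul_nonneg (by linarith) (by linarith))
        linarith
      calc I0 ^ 2 ≤ I0 ^ 2 * ((1 + 6 * e) * (1 - e) ^ 2) := le_mul_of_one_le_right (by positivity) h3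
        _ = (1 + 6 * e) * (I0 ^ 2 * (1 - e) ^ 2) := by ring
        _ ≤ _ := mul_le_mul_of_nonneg_left h2 (by linarith)
    have h2 : 6 * CMT * e ≤ ε := by
      rw [le_div_iff₀ (by positivity)] at he2
      linarith
    calc CMT * (I0 / Zc δ) ^ 2 ≤ CMT * (1 + 6 * e) := mul_le_mul_of_nonneg_left h1 hC.le
      _ = CMT + 6 * CMT * e := by ring
      _ ≤ _ := by linarith
  · refine (pw_close hδ0 hδ1 hZ u).trans ?_
    rw [div_le_iff₀ hI]
    nlinarith
  · refine (pw_le hδ0 hδ1 hZ hx).trans ?_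
    have hph := ph_pos (box_abs hx)
    have h1 : 1 / Zc δ ≤ (1 + ε) / I0 := by
      rw [div_le_div_iff₀ hZ hI, one_mul]
      have h2 : 1 ≤ (1 + ε) * (1 - e) := by nlinarith
      calc I0 ≤ I0 * ((1 + ε) * (1 - e)) := le_mul_of_one_le_right hI.le h2
        _ = (1 + ε) * (I0 * (1 - e)) := by ring
        _ ≤ _ := mul_le_mul_of_nonneg_left hZ1 (by linarith)
    calc ph x / Zc δ = ph x * (1 / Zc δ) := by ring
      _ ≤ ph x * ((1 + ε) / I0) := mul_le_mul_of_nonneg_left h1 hph.le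
      _ = _ := by ring
  · refine (pw_L1 hδ0 hδ1 hZ).trans ?_
    rw [div_le_iff₀ hI]
    nlinarith

end Pool.Agent.Helper66.RT
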