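import Pool.Agent.Helper99.HZ.FP

/-!
# RT project: an even continuous weight

`Wt p c`: `p ≥ 0` continuous, even, of mass one, supported in `[-c,c]`, `2c < 1`; `Gp p` its cosine transform. The Gram matrix
of the zeros is `AA (log T) (Zf T) p c`.
-/

set_option autoImplicit false

open MeasureTheory Set Filter Topology Matrix
open scoped ComplexConjugate ComplexOrder

namespace Pool.Agent.Helper66.RT

open Pool.Agent.Helper99.HZ Pool.Agent.Helper57.LH Pool.Agent.Helper57.PC Pool.Agent.Helper57.Zeta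
open Pool.Agent.Helper57.FL (ff ff_nonneg ff_cont)

/-- an admissible weight -/
structure Wt (p : ℝ → ℝ) (c : ℝ) : Prop where
  cont : Continuous p
  nn : ∀ x, 0 ≤ p x
  ev : ∀ x, p (-x) = p x
  supp : ∀ x, c ≤ |x| → p x = 0
  c1 : 2 * c < 1
  mass : ∫ x, p x = 1

/-- the cosine transform -/
noncomputable def Gp (p : ℝ → ℝ) (u : ℝ) : ℝ := ∫ x, p x * Real.cos (2 * Real.pi * x * u)

lemma Gp_even (p : ℝ → ℝ) (u : ℝ) : Gp p (-u) = Gp p u := by
  unfold Gp
  congr 1
  funext x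
  rw [mul_neg, Real.cos_neg]

section

variable {p : ℝ → ℝ} {c : ℝ}

lemma Wt.out (hp : Wt p c) : ∀ x, x ∉ Icc (-c) c → p x = 0 := by
  intro x hx
  apply hp.supp
  by_contra h
  push Not at h
  apply hx
  have := abs_lt.mp h
  exact ⟨by linarith, by linarith⟩

lemma Wt.integrable (hp : Wt p c) {f : ℝ → ℝ} (hf : Continuous f) : Integrable (fun x => p x * f x) := by
  refine Continuous.integrable_of_hasCompactSupport (hp.cont.mul hf) ?_
  refine HasCompactSupport.intro (isCompact_Icc (a := -c) (b := c)) fun x hx => ?_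
  rw [hp.out x hx, zero_mul]

lemma Gp_zero (hp : Wt p c) : Gp p 0 = 1 := by
  unfold Gp
  simp only [mul_zero, Real.cos_zero, mul_one]
  exact hp.mass

/-- the transform near zero -/
lemma Gp_near (hp : Wt p c) (u : ℝ) : 1 - (Real.pi * u) ^ 2 / 2 ≤ Gp p u := by
  unfold Gp
  have h1 : ∀ x, p x * (1 - (Real.pi * u) ^ 2 / 2) ≤ p x * Real.cos (2 * Real.pi * x * u) := by
    intro x
    by_cases hx : c ≤ |x|
    · rw [hp.supp x hx, zero_mul, zero_mul]
    · push Not at hx
      refine mul_le_mul_of_nonneg_left ?_ (hp.nn x)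
      have h2 := Real.one_sub_sq_div_two_le_cos (x := 2 * Real.pi * x * u)
      have h3 : (2 * Real.pi * x * u) ^ 2 ≤ (Real.pi * u) ^ 2 := by
        have h4 : x ^ 2 ≤ 1 / 4 := by
          rw [← sq_abs]
          have := hp.c1
          have h5 := abs_nonneg x
          nlinarith
        have h6 : (2 * Real.pi * x * u) ^ 2 = 4 * x ^ 2 * (Real.pi * u) ^ 2 := by ring
        rw [h6]
        have h7 : 0 ≤ (Real.pi * u) ^ 2 := sq_nonneg _
        nlinarith
      linarith
  have h2 : ∫ x, p x * (1 - (Real.pi * u) ^ 2 / 2) = 1 - (Real.pi * u) ^ 2 / 2 := by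
    rw [integral_mul_const, hp.mass, one_mul]
  rw [← h2]
  exact integral_mono (hp.integrable continuous_const) (hp.integrable (by fun_prop)) h1

variable {Z : Finset ℂ} {m : ℂ → ℝ}

lemma AA_st (hp : Wt p c) (L : ℝ) (h : Sym Z m) (ρ : Z) : AA L Z p c ρ (sz h ρ) = 1 := by
  unfold AA
  rw [of_apply]
  have e : ∀ x : ℝ, (p x : ℂ) * (conj (ex L x (ρ : ℂ)) * ex L x ((sz h ρ : Z) : ℂ)) = ((p x : ℝ) : ℂ) := by
    intro x
    have h1 : ((sz h ρ : Z) : ℂ) = sg (ρ : ℂ) := rfl
    have h2 : ex L x (sg (ρ : ℂ)) = conj (ex L (-x) (ρ : ℂ)) := by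
      rw [← ex_conj, Complex.conj_conj]
    rw [h1, h2, ← map_mul]
    have h3 : ex L x (ρ : ℂ) * ex L (-x) (ρ : ℂ) = 1 := by
      unfold ex
      rw [← Complex.exp_add]
      have : ((x : ℝ) : ℂ) * ((L : ℂ) * ((ρ : ℂ) - 1 / 2)) + ((-x : ℝ) : ℂ) * ((L : ℂ) * ((ρ : ℂ) - 1 / 2)) = 0 := by
        push_cast
        ring
      rw [this, Complex.exp_zero]
    rw [h3, map_one, mul_one]
  simp only [e]
  rw [integral_complex_ofReal, setIntegral_eq_integral_of_forall_compl_eq_zero hp.out, hp.mass]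
  simp

/-- the entries of the zeros on the line -/
lemma AA_crit (hp : Wt p c) (L : ℝ) {ρ ρ' : Z} (h : (ρ : ℂ).re = 1 / 2) (h' : (ρ' : ℂ).re = 1 / 2) :
    AA L Z p c ρ ρ' = ((Gp p (L * ((ρ' : ℂ).im - (ρ : ℂ).im) / (2 * Real.pi)) : ℝ) : ℂ) := by
  unfold AA
  rw [of_apply]
  set d : ℝ := L * ((ρ' : ℂ).im - (ρ : ℂ).im) with hd
  have e : ∀ x : ℝ, (p x : ℂ) * (conj (ex L x (ρ : ℂ)) * ex L x (ρ' : ℂ)) =
      ((p x * Real.cos (x * d) : ℝ) : ℂ) + ((p x * Real.sin (x * d) : ℝ) : ℂ) * Complex.I := by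
    intro x
    have h1 : conj (ex L x (ρ : ℂ)) * ex L x (ρ' : ℂ) = Complex.exp (((x * d : ℝ) : ℂ) * Complex.I) := by
      unfold ex
      rw [← Complex.exp_conj, ← Complex.exp_add]
      congr 1
      apply Complex.ext
      · simp [h, h']
      · simp [hd]
        ring
    rw [h1, Complex.exp_mul_I, ← Complex.ofReal_cos, ← Complex.ofReal_sin]
    push_cast
    ring
  have hout1 : ∀ x, x ∉ Icc (-c) c → ((p x * Real.cos (x * d) : ℝ) : ℂ) + ((p x * Real.sin (x * d) : ℝ) : ℂ) * Complex.I = 0 := by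
    intro x hx
    rw [hp.out x hx]
    simp
  simp only [e]
  rw [setIntegral_eq_integral_of_forall_compl_eq_zero hout1]
  have i1 : Integrable (fun x => p x * Real.cos (x * d)) := hp.integrable (by fun_prop)
  have i2 : Integrable (fun x => p x * Real.sin (x * d)) := hp.integrable (by fun_prop)
  have i1' : Integrable (fun x => ((p x * Real.cos (x * d) : ℝ) : ℂ)) := i1.ofReal
  have i2' : Integrable (fun x => ((p x * Real.sin (x * d) : ℝ) : ℂ)) := i2.ofReal
  rw [integral_add i1' (i2'.mul_const _), integral_mul_const, integral_complex_ofReal, integral_complex_ofReal]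
  have h0 : ∫ x, p x * Real.sin (x * d) = 0 := by
    have h2 := integral_neg_eq_self (fun x => p x * Real.sin (x * d)) volume
    have h3 : ∀ x : ℝ, p (-x) * Real.sin (-x * d) = -(p x * Real.sin (x * d)) := by
      intro x
      rw [hp.ev, neg_mul, Real.sin_neg]
      ring
    simp only [h3] at h2
    rw [integral_neg] at h2
    linarith
  rw [h0, Complex.ofReal_zero, zero_mul, add_zero]
  congr 1
  unfold Gp
  congr 1
  funext x
  congr 2
  have := Real.pi_pos
  field_simp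

/-- **the trace identity** -/
theorem trace_id {T : ℝ} (hT : 1 < T) (hp : Wt p c) :
    (∑ i : (Zf T : Finset ℂ), ∑ j : (Zf T : Finset ℂ), (mx i : ℂ) * (mx j : ℂ) *
      (AA (Real.log T) (Zf T) p c (sz (sym_Zf T) i) j * AA (Real.log T) (Zf T) p c (sz (sym_Zf T) j) i)).re =
      SN T * ∫ u, hh p u * ff T u := by
  have hT0 : 0 < T := by linarith
  have hL : 0 < Real.log T := Real.log_pos hT
  have h1 := HA_sq (Real.log T) c hp.cont (sym_Zf T)
  have h2 : (HH (sym_Zf T) * AA (Real.log T) (Zf T) p c * HH (sym_Zf T) * AA (Real.log T) (Zf T) p c).trace =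
      ∑ i : (Zf T : Finset ℂ), ∑ j : (Zf T : Finset ℂ), (mx i : ℂ) * (mx j : ℂ) *
      (AA (Real.log T) (Zf T) p c (sz (sym_Zf T) i) j * AA (Real.log T) (Zf T) p c (sz (sym_Zf T) j) i) := by
    rw [Matrix.mul_assoc (HH (sym_Zf T) * AA (Real.log T) (Zf T) p c), Matrix.trace]
    refine Finset.sum_congr rfl fun i _ => ?_
    rw [diag_apply, Matrix.mul_apply]
    refine Finset.sum_congr rfl fun j _ => ?_
    rw [HH_mul, HH_mul]
    ring
  rw [← h2, h1]
  have hds : ∀ u, ‖ds (Real.log T) (Zf T) mx u‖ ^ 2 = SN T * ff T u := by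
    intro u
    unfold ds ff SN
    have e1 : ∑ ρ ∈ Zf T, (mx ρ : ℂ) * (T : ℂ) ^ ((u : ℂ) * (ρ - 1 / 2)) =
        ∑ ρ ∈ Zf T, (mx ρ : ℂ) * Complex.exp ((u : ℂ) * ((Real.log T : ℂ) * (ρ - 1 / 2))) := by
      refine Finset.sum_congr rfl fun ρ _ => ?_
      rw [Complex.cpow_def_of_ne_zero (by exact_mod_cast hT0.ne'), ← Complex.ofReal_log hT0.le]
      congr 2
      ring
    rw [e1]
    have hpi := Real.pi_pos
    generalize ∑ ρ ∈ Zf T, (mx ρ : ℂ) * Complex.exp ((u : ℂ) * ((Real.log T : ℂ) * (ρ - 1 / 2))) = D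
    field_simp
  simp_rw [hds]
  have hfc := ff_cont hT
  rw [int_swap (K := fun u => SN T * ff T u) hp.cont (continuous_const.mul hfc) hp.supp, ← integral_const_mul]
  congr 1
  funext u
  ring

/-- the form factor side -/
theorem trace_up (hp : Wt p c) {ε : ℝ} (hε : 0 < ε) :
    ∀ᶠ T : ℝ in atTop, ∫ u, hh p u * ff T u ≤ hh p 0 + (∫ u, |u| * hh p u) + ε :=
  up_all (hh_cont hp.cont hp.supp) (hh_nonneg hp.nn) hp.c1 (fun _ hx => hh_supp hp.supp hx) hε

end

end Pool.Agent.Helper66.RT
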